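import Mathlib
import Pool.Agent.Helper968.Schild.CellData

/-!
Kernel checked subdivision for the key polynomial inequality.
-/

namespace Pool.Agent.Helper968.Schild

/-- evaluate before passing on -/
def forceN {α : Type} (n : ℕ) (k : ℕ → α) : α :=
  match n with
  | 0 => k 0
  | m + 1 => k (m + 1)

theorem forceN_eq {α : Type} (n : ℕ) (k : ℕ → α) : forceN n k = k n := by
  cases n <;> rfl

/-- leaf check: cell `[b1,b2] × [m1,m2]` in units of `1/N`, `t` in units of `1/T` -/
def leafOK (b1 b2 m1 m2 t : ℕ) : Bool :=
  Nat.ble b2 100000 && Nat.ble m2 100000 && Nat.ble t 10000 &&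
  (Nat.ble 10000 t ||
    Nat.ble (m2 * (20000 - t) * 10000 * (10000000000 - m1 * m1))
      ((2 * b1 + m1) * (10000000000 - b2 * b2) * (t * t))) &&
  (Nat.ble (t * 10000000000) (m1 * m1 * 10000) ||
    (Nat.blt
      ((2800000 - 23 * b1) * (b2 * b2) * (m2 * m2) * (10000000000 - b1 * b1) *
        (t * 10000000000 - m1 * m1 * 10000) * 10000)
      (((10000 - t) * (10000000000 - b2 * b2) * 10000000000 +
        10000 * (b1 * b1) * (10000000000 - m2 * m2) +
        10000 * (m1 * m1) * (10000000000 - b2 * b2)) ^ 2 * 100000)))

/-- the checker -/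
def chk : ℕ → List ℕ → ℕ → ℕ → ℕ → ℕ → Option (List ℕ)
  | 0, _, _, _, _, _ => none
  | _ + 1, [], _, _, _, _ => none
  | f + 1, k :: l, b1, b2, m1, m2 =>
    match k with
    | 0 => forceN ((b1 + b2) / 2) fun m =>
      match chk f l b1 m m1 m2 with
      | none => none
      | some l' => chk f l' m b2 m1 m2
    | 1 => forceN ((m1 + m2) / 2) fun m =>
      match chk f l b1 b2 m1 m with
      | none => none
      | some l' => chk f l' b1 b2 m m2
    | t + 2 => if leafOK b1 b2 m1 m2 t then some l else none

/-- the whole check -/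
def chkAll : Bool :=
  match chk 60 cellCode 1000 99800 10000 99000 with
  | some _ => true
  | none => false

set_option maxRecDepth 1000000 in
theorem chkAll_true : chkAll = true := by decide +kernel

end Pool.Agent.Helper968.Schild
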