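import Mathlib
import Pool.Agent.Helper968.Schild.Cells

/-!
Soundness of the subdivision.
-/

namespace Pool.Agent.Helper968.Schild

/-- the real inequality on a cell -/
theorem cell_real {B1 B2 M1 M2 θ b μ τ : ℝ} (hB1 : 0 ≤ B1) (hB2 : B2 ≤ 1) (hM1 : 0 ≤ M1)
    (hM2 : M2 ≤ 1) (hθ0 : 0 ≤ θ) (hθ2 : θ ≤ 1)
    (h1 : 1 ≤ θ ∨ M2 * (2 - θ) * (1 - M1 ^ 2) ≤ (2 * B1 + M1) * (1 - B2 ^ 2) * θ ^ 2)
    (h2 : θ ≤ M1 ^ 2 ∨ (28 - 23 * B1) * B2 ^ 2 * M2 ^ 2 * (1 - B1 ^ 2) * (θ - M1 ^ 2) <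
      ((1 - θ) * (1 - B2 ^ 2) + B1 ^ 2 * (1 - M2 ^ 2) + M1 ^ 2 * (1 - B2 ^ 2)) ^ 2)
    (hb1 : B1 ≤ b) (hb2 : b ≤ B2) (hm1 : M1 ≤ μ) (hm2 : μ ≤ M2) (hμ0 : 0 < μ) (hμ1 : μ < 1)
    (hτ0 : μ ^ 2 < τ) (hτ1 : τ ≤ 1)
    (H : (2 * b + μ) * (1 - b ^ 2) * τ ^ 2 ≤ μ * (2 - τ) * (1 - μ ^ 2)) :
    (28 - 23 * b) * b ^ 2 * μ ^ 2 * (1 - b ^ 2) * (τ - μ ^ 2) <
      ((1 - τ) * (1 - b ^ 2) + b ^ 2 * (1 - μ ^ 2) + μ ^ 2 * (1 - b ^ 2)) ^ 2 := by
  have hb0 : 0 ≤ b := hB1.trans hb1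
  have hb1' : b ≤ 1 := hb2.trans hB2
  have hB11 : B1 ≤ 1 := hb1.trans hb1'
  have hB20 : 0 ≤ B2 := hb0.trans hb2
  have hM20 : 0 < M2 := hμ0.trans_le hm2
  have hM11 : M1 < 1 := hm1.trans_lt hμ1
  have hbs : b ^ 2 ≤ B2 ^ 2 := by gcongr
  have hbs1 : B1 ^ 2 ≤ b ^ 2 := by gcongr
  have hms : μ ^ 2 ≤ M2 ^ 2 := by gcongr
  have hms1 : M1 ^ 2 ≤ μ ^ 2 := by gcongr
  have hB2s : B2 ^ 2 ≤ 1 := by nlinarith
  have hM2s : M2 ^ 2 ≤ 1 := by nlinarith
  have hM1s : M1 ^ 2 < 1 := by nlinarith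
  have hτ0' : 0 < τ := lt_of_le_of_lt (sq_nonneg μ) hτ0
  have hτθ : τ ≤ θ := by
    rcases h1 with h1 | h1
    · exact hτ1.trans h1
    · by_contra hlt
      push Not at hlt
      have a1 : μ * (2 - τ) * (1 - μ ^ 2) ≤ M2 * (2 - τ) * (1 - M1 ^ 2) := by
        apply mul_le_mul
        · apply mul_le_mul_of_nonneg_right hm2; linarith
        · linarith
        · nlinarith
        · apply mul_nonneg hM20.le; linarith
      have a2 : M2 * (2 - τ) * (1 - M1 ^ 2) < M2 * (2 - θ) * (1 - M1 ^ 2) := by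
        apply mul_lt_mul_of_pos_right _ (by linarith)
        apply mul_lt_mul_of_pos_left _ hM20
        linarith
      have a3 : (2 * B1 + M1) * (1 - B2 ^ 2) * θ ^ 2 ≤ (2 * b + μ) * (1 - b ^ 2) * τ ^ 2 := by
        apply mul_le_mul
        · apply mul_le_mul
          · linarith
          · linarith
          · linarith
          · linarith
        · gcongr
        · positivity
        · apply mul_nonneg <;> nlinarith
      linarith
  rcases h2 with h2 | h2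
  · linarith
  · have b1 : (1 - θ) * (1 - B2 ^ 2) ≤ (1 - τ) * (1 - b ^ 2) := by
      apply mul_le_mul <;> linarith
    have b2 : B1 ^ 2 * (1 - M2 ^ 2) ≤ b ^ 2 * (1 - μ ^ 2) := by
      apply mul_le_mul hbs1 (by linarith) (by linarith) (sq_nonneg _)
    have b3 : M1 ^ 2 * (1 - B2 ^ 2) ≤ μ ^ 2 * (1 - b ^ 2) := by
      apply mul_le_mul hms1 (by linarith) (by linarith) (sq_nonneg _)
    have b0 : 0 ≤ (1 - θ) * (1 - B2 ^ 2) + B1 ^ 2 * (1 - M2 ^ 2) + M1 ^ 2 * (1 - B2 ^ 2) := by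
      have c1 : 0 ≤ (1 - θ) * (1 - B2 ^ 2) := mul_nonneg (by linarith) (by linarith)
      have c2 : 0 ≤ B1 ^ 2 * (1 - M2 ^ 2) := mul_nonneg (sq_nonneg _) (by linarith)
      have c3 : 0 ≤ M1 ^ 2 * (1 - B2 ^ 2) := mul_nonneg (sq_nonneg _) (by linarith)
      linarith
    have b4 : ((1 - θ) * (1 - B2 ^ 2) + B1 ^ 2 * (1 - M2 ^ 2) + M1 ^ 2 * (1 - B2 ^ 2)) ^ 2 ≤
        ((1 - τ) * (1 - b ^ 2) + b ^ 2 * (1 - μ ^ 2) + μ ^ 2 * (1 - b ^ 2)) ^ 2 := by
      apply pow_le_pow_left₀ b0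
      linarith
    refine lt_of_le_of_lt ?_ (h2.trans_le b4)
    have d1 : (28 - 23 * b) * b ^ 2 ≤ (28 - 23 * B1) * B2 ^ 2 :=
      mul_le_mul (by linarith) hbs (sq_nonneg _) (by linarith)
    have d2 : (28 - 23 * b) * b ^ 2 * μ ^ 2 ≤ (28 - 23 * B1) * B2 ^ 2 * M2 ^ 2 :=
      mul_le_mul d1 hms (sq_nonneg _) (mul_nonneg (by linarith) (sq_nonneg _))
    have d3 : (28 - 23 * b) * b ^ 2 * μ ^ 2 * (1 - b ^ 2) ≤
        (28 - 23 * B1) * B2 ^ 2 * M2 ^ 2 * (1 - B1 ^ 2) :=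
      mul_le_mul d2 (by linarith) (by linarith)
        (mul_nonneg (mul_nonneg (by linarith) (sq_nonneg _)) (sq_nonneg _))
    exact mul_le_mul d3 (by linarith) (by linarith)
      (mul_nonneg (mul_nonneg (mul_nonneg (by linarith) (sq_nonneg _)) (sq_nonneg _)) (by linarith))

/-- the conclusion on a region -/
def Good (b μ : ℝ) : Prop :=
  ∀ τ : ℝ, μ ^ 2 < τ → τ ≤ 1 → (2 * b + μ) * (1 - b ^ 2) * τ ^ 2 ≤ μ * (2 - τ) * (1 - μ ^ 2) →
    (28 - 23 * b) * b ^ 2 * μ ^ 2 * (1 - b ^ 2) * (τ - μ ^ 2) <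
      ((1 - τ) * (1 - b ^ 2) + b ^ 2 * (1 - μ ^ 2) + μ ^ 2 * (1 - b ^ 2)) ^ 2

theorem leaf_sound {b1 b2 m1 m2 t : ℕ} (h : leafOK b1 b2 m1 m2 t = true) {b μ : ℝ}
    (hb1 : (b1 : ℝ) / 100000 ≤ b) (hb2 : b ≤ (b2 : ℝ) / 100000)
    (hm1 : (m1 : ℝ) / 100000 ≤ μ) (hm2 : μ ≤ (m2 : ℝ) / 100000) (hμ0 : 0 < μ) (hμ1 : μ < 1) :
    Good b μ := by
  intro τ hτ0 hτ1 H
  simp only [leafOK, Bool.and_eq_true, Bool.or_eq_true, Nat.ble_eq, Nat.blt_eq] at h
  obtain ⟨⟨⟨⟨h1, h2⟩, h3⟩, h4⟩, h5⟩ := h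
  have hb1n : b1 ≤ 100000 := by
    have : (b1 : ℝ) / 100000 ≤ (b2 : ℝ) / 100000 := hb1.trans hb2
    have : (b1 : ℝ) ≤ b2 := by
      rw [div_le_div_iff_of_pos_right (by norm_num)] at this
      exact this
    exact (by exact_mod_cast this : b1 ≤ b2).trans h1
  have hm1n : m1 ≤ 100000 := by
    have : (m1 : ℝ) / 100000 ≤ (m2 : ℝ) / 100000 := hm1.trans hm2
    have : (m1 : ℝ) ≤ m2 := by
      rw [div_le_div_iff_of_pos_right (by norm_num)] at this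
      exact this
    exact (by exact_mod_cast this : m1 ≤ m2).trans h2
  have q1 : b1 * b1 ≤ 10000000000 := (Nat.mul_le_mul hb1n hb1n).trans (by norm_num)
  have q2 : b2 * b2 ≤ 10000000000 := (Nat.mul_le_mul h1 h1).trans (by norm_num)
  have q3 : m1 * m1 ≤ 10000000000 := (Nat.mul_le_mul hm1n hm1n).trans (by norm_num)
  have q4 : m2 * m2 ≤ 10000000000 := (Nat.mul_le_mul h2 h2).trans (by norm_num)
  have r1 : (b1 : ℝ) ≤ 100000 := by exact_mod_cast hb1n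
  have r2 : (b2 : ℝ) ≤ 100000 := by exact_mod_cast h1
  have r3 : (m1 : ℝ) ≤ 100000 := by exact_mod_cast hm1n
  have r4 : (m2 : ℝ) ≤ 100000 := by exact_mod_cast h2
  have r5 : (t : ℝ) ≤ 10000 := by exact_mod_cast h3
  refine cell_real (B1 := (b1 : ℝ) / 100000) (B2 := (b2 : ℝ) / 100000) (M1 := (m1 : ℝ) / 100000)
    (M2 := (m2 : ℝ) / 100000) (θ := (t : ℝ) / 10000) (by positivity)
    (by rw [div_le_one (by norm_num)]; exact r2) (by positivity)
    (by rw [div_le_one (by norm_num)]; exact r4) (by positivity)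
    (by rw [div_le_one (by norm_num)]; exact r5) ?_ ?_ hb1 hb2 hm1 hm2 hμ0 hμ1 hτ0 hτ1 H
  · rcases h4 with h4 | h4
    · left
      have : (10000 : ℝ) ≤ t := by exact_mod_cast h4
      rw [le_div_iff₀ (by norm_num)]
      linarith
    · right
      have h4' : ((m2 * (20000 - t) * 10000 * (10000000000 - m1 * m1) : ℕ) : ℝ) ≤
          (((2 * b1 + m1) * (10000000000 - b2 * b2) * (t * t) : ℕ) : ℝ) := by exact_mod_cast h4
      push_cast [Nat.cast_sub (show t ≤ 20000 by omega), Nat.cast_sub q3, Nat.cast_sub q2] at h4'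
      have e1 : (m2 : ℝ) / 100000 * (2 - (t : ℝ) / 10000) * (1 - ((m1 : ℝ) / 100000) ^ 2) =
          ((m2 : ℝ) * (20000 - t) * 10000 * (10000000000 - m1 * m1)) /
            (100000 * 100000000 * 10000000000) := by ring
      have e2 : (2 * ((b1 : ℝ) / 100000) + (m1 : ℝ) / 100000) * (1 - ((b2 : ℝ) / 100000) ^ 2) *
          ((t : ℝ) / 10000) ^ 2 = ((2 * (b1 : ℝ) + m1) * (10000000000 - b2 * b2) * (t * t)) /
            (100000 * 100000000 * 10000000000) := by ring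
      rw [e1, e2]
      gcongr
  · by_cases h6 : m1 * m1 * 10000 ≤ t * 10000000000
    swap
    · left
      have h5' : (t : ℝ) * 10000000000 ≤ (m1 : ℝ) * m1 * 10000 := by
        exact_mod_cast (not_le.mp h6).le
      rw [div_pow, div_le_div_iff₀ (by norm_num) (by norm_num)]
      nlinarith
    rcases h5 with h5 | h5
    · left
      have h5' : (t : ℝ) * 10000000000 ≤ (m1 : ℝ) * m1 * 10000 := by exact_mod_cast h5
      rw [div_pow, div_le_div_iff₀ (by norm_num) (by norm_num)]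
      nlinarith
    · right
      have h5' : (((2800000 - 23 * b1) * (b2 * b2) * (m2 * m2) * (10000000000 - b1 * b1) *
          (t * 10000000000 - m1 * m1 * 10000) * 10000 : ℕ) : ℝ) <
          ((((10000 - t) * (10000000000 - b2 * b2) * 10000000000 +
          10000 * (b1 * b1) * (10000000000 - m2 * m2) +
          10000 * (m1 * m1) * (10000000000 - b2 * b2)) ^ 2 * 100000 : ℕ) : ℝ) := by
        exact_mod_cast h5
      push_cast [Nat.cast_sub (show 23 * b1 ≤ 2800000 by omega), Nat.cast_sub q1,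
        Nat.cast_sub q2, Nat.cast_sub q4, Nat.cast_sub h6, Nat.cast_sub h3] at h5'
      have e1 : (28 - 23 * ((b1 : ℝ) / 100000)) * ((b2 : ℝ) / 100000) ^ 2 *
          ((m2 : ℝ) / 100000) ^ 2 * (1 - ((b1 : ℝ) / 100000) ^ 2) *
          ((t : ℝ) / 10000 - ((m1 : ℝ) / 100000) ^ 2) =
          ((2800000 - 23 * (b1 : ℝ)) * (b2 * b2) * (m2 * m2) * (10000000000 - b1 * b1) *
          (t * 10000000000 - m1 * m1 * 10000) * 10000) /
          (100000 * (10000000000 * 10000000000 * 10000) ^ 2) := by ring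
      have e2 : ((1 - (t : ℝ) / 10000) * (1 - ((b2 : ℝ) / 100000) ^ 2) +
          ((b1 : ℝ) / 100000) ^ 2 * (1 - ((m2 : ℝ) / 100000) ^ 2) +
          ((m1 : ℝ) / 100000) ^ 2 * (1 - ((b2 : ℝ) / 100000) ^ 2)) ^ 2 =
          (((10000 - (t : ℝ)) * (10000000000 - b2 * b2) * 10000000000 +
          10000 * (b1 * b1) * (10000000000 - m2 * m2) +
          10000 * (m1 * m1) * (10000000000 - b2 * b2)) ^ 2 * 100000) /
          (100000 * (10000000000 * 10000000000 * 10000) ^ 2) := by ring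
      rw [e1, e2]
      gcongr

theorem chk_sound : ∀ (f : ℕ) (l : List ℕ) (b1 b2 m1 m2 : ℕ) (l' : List ℕ),
    chk f l b1 b2 m1 m2 = some l' → ∀ b μ : ℝ, (b1 : ℝ) / 100000 ≤ b → b ≤ (b2 : ℝ) / 100000 →
      (m1 : ℝ) / 100000 ≤ μ → μ ≤ (m2 : ℝ) / 100000 → 0 < μ → μ < 1 → Good b μ
  | 0, _, _, _, _, _, _, h => by simp [chk] at h
  | _ + 1, [], _, _, _, _, _, h => by simp [chk] at h
  | f + 1, k :: l, b1, b2, m1, m2, l', h => by
    intro b μ hb1 hb2 hm1 hm2 h0 h1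
    unfold chk at h
    split at h
    · rw [forceN_eq] at h
      rcases le_total b ((((b1 + b2) / 2 : ℕ) : ℝ) / 100000) with hle | hle
      · split at h
        · simp at h
        · rename_i h2
          exact chk_sound f _ _ _ _ _ _ h2 b μ hb1 hle hm1 hm2 h0 h1
      · split at h
        · simp at h
        · exact chk_sound f _ _ _ _ _ _ h b μ hle hb2 hm1 hm2 h0 h1
    · rw [forceN_eq] at h
      rcases le_total μ ((((m1 + m2) / 2 : ℕ) : ℝ) / 100000) with hle | hle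
      · split at h
        · simp at h
        · rename_i h2
          exact chk_sound f _ _ _ _ _ _ h2 b μ hb1 hb2 hm1 hle h0 h1
      · split at h
        · simp at h
        · exact chk_sound f _ _ _ _ _ _ h b μ hb1 hb2 hle hm2 h0 h1
    · split at h
      · rename_i h2
        exact leaf_sound h2 hb1 hb2 hm1 hm2 h0 h1
      · simp at h

theorem good_mid {b μ : ℝ} (hb1 : 0.01 ≤ b) (hb2 : b ≤ 0.998) (hm1 : 0.1 ≤ μ) (hm2 : μ ≤ 0.99) :
    Good b μ := by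
  have h := chkAll_true
  unfold chkAll at h
  split at h
  · rename_i l' h1
    refine chk_sound _ _ _ _ _ _ _ h1 b μ ?_ ?_ ?_ ?_ (by linarith) (by linarith)
    all_goals norm_num
    all_goals linarith
  · simp at h

end Pool.Agent.Helper968.Schild
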