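import Mathlib

set_option autoImplicit false

namespace Pool.Agent.Helper968.Schild

open Complex Metric Set

namespace ConvexImageBall

lemma exists_boundary {S : Set ℝ} (hS : IsOpen S) {x y : ℝ} (hx : x ∈ S) (hy : y ∉ S) :
    ∃ b ∈ uIcc x y, b ≠ x ∧ b ∈ closure S ∧ b ∉ S := by
  by_contra hcon
  push Not at hcon
  have hnone : ∀ b ∈ uIcc x y, b ∈ closure S → b ∈ S := by
    intro b hb hbc
    by_cases hbx : b = x
    · rw [hbx]; exact hx
    · exact hcon b hb hbx hbc
  have := isPreconnected_uIcc S (closure S)ᶜ hS isClosed_closure.isOpen_compl (by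
    intro b hb
    by_cases h : b ∈ closure S
    · exact Or.inl (hnone b hb h)
    · exact Or.inr h) ⟨x, left_mem_uIcc, hx⟩ ⟨y, right_mem_uIcc, fun h => hy (hnone y right_mem_uIcc h)⟩
  obtain ⟨z, _, hz1, hz2⟩ := this
  exact hz2 (subset_closure hz1)

lemma three_cos {x y z : ℝ} (hxy : x < y) (hyz : y < z) (hzx : z < x + 2 * Real.pi)
    (hx : Real.cos x = 0) (hy : Real.cos y = 0) (hz : Real.cos z = 0) : False := by
  rw [Real.cos_eq_zero_iff] at hx hy hz
  obtain ⟨k, hk⟩ := hx
  obtain ⟨l, hl⟩ := hy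
  obtain ⟨m, hm⟩ := hz
  have hpi := Real.pi_pos
  have h1 : k < l := by
    have : (k : ℝ) < l := by
      rw [hk, hl] at hxy
      nlinarith
    exact_mod_cast this
  have h2 : l < m := by
    have : (l : ℝ) < m := by
      rw [hl, hm] at hyz
      nlinarith
    exact_mod_cast this
  have h3 : m < k + 2 := by
    have : (m : ℝ) < k + 2 := by
      rw [hk, hm] at hzx
      nlinarith
    exact_mod_cast this
  omega

/-- Rolle argument -/
lemma rolle_three {g g' ψ ρ : ℝ → ℝ} {α : ℝ} (hg : ∀ t, HasDerivAt g (g' t) t)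
    (hper : ∀ t, g (t + 2 * Real.pi) = g t)
    (hg' : ∀ t, g' t = ρ t * Real.cos (ψ t - α)) (hρ : ∀ t, ρ t ≠ 0)
    (hψ : StrictMono ψ) (hψper : ∀ t, ψ (t + 2 * Real.pi) = ψ t + 2 * Real.pi)
    {t₁ t₂ t₃ : ℝ} (h12 : t₁ < t₂) (h23 : t₂ < t₃) (h31 : t₃ < t₁ + 2 * Real.pi)
    (h1 : g t₁ = 0) (h2 : g t₂ = 0) (h3 : g t₃ = 0) : False := by
  have hc : ∀ s : Set ℝ, ContinuousOn g s := fun s =>
    (continuous_iff_continuousAt.2 fun t => (hg t).continuousAt).continuousOn
  obtain ⟨a, ha, ha'⟩ := exists_hasDerivAt_eq_zero h12 (hc _) (h1.trans h2.symm) (fun x _ => hg x)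
  obtain ⟨b, hb, hb'⟩ := exists_hasDerivAt_eq_zero h23 (hc _) (h2.trans h3.symm) (fun x _ => hg x)
  obtain ⟨c, hc1, hc'⟩ := exists_hasDerivAt_eq_zero h31 (hc _)
    (h3.trans ((hper t₁).trans h1).symm) (fun x _ => hg x)
  have hz : ∀ t, g' t = 0 → Real.cos (ψ t - α) = 0 := by
    intro t ht
    rw [hg'] at ht
    exact (mul_eq_zero.1 ht).resolve_left (hρ t)
  have hab : a < b := ha.2.trans hb.1
  have hbc : b < c := hb.2.trans hc1.1
  have hca : c < a + 2 * Real.pi := by linarith [hc1.2, ha.1]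
  have k1 := hψ hab
  have k2 := hψ hbc
  have k3 := hψ hca
  rw [hψper] at k3
  exact three_cos (sub_lt_sub_right k1 α) (sub_lt_sub_right k2 α) (by linarith) (hz a ha')
    (hz b hb') (hz c hc')

end ConvexImageBall

open ConvexImageBall

/-- If the tangent direction of the curve `θ ↦ f (r e^{iθ})` turns strictly monotonically
(`Re (1 + z f''/f') > 0` on `|z| = r`, with `f' = exp H`), the image of the disc is convex. -/
theorem convex_image_ball {f H : ℂ → ℂ} {r : ℝ} (hr0 : 0 < r) (hr1 : r < 1)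
    (hf : DifferentiableOn ℂ f (ball (0:ℂ) 1)) (hH : DifferentiableOn ℂ H (ball (0:ℂ) 1))
    (hderiv : ∀ z ∈ ball (0:ℂ) 1, deriv f z = Complex.exp (H z))
    (hpos : ∀ z : ℂ, ‖z‖ = r → 0 < (1 + z * deriv H z).re) :
    Convex ℝ (f '' ball (0:ℂ) r) := by
  set U := f '' ball (0:ℂ) r with hU
  have hsub : ball (0:ℂ) r ⊆ ball (0:ℂ) 1 := ball_subset_ball hr1.le
  have hcsub : closedBall (0:ℂ) r ⊆ ball (0:ℂ) 1 := closedBall_subset_ball hr1
  -- `U` is open
  have hUo : IsOpen U := by
    rw [isOpen_iff_mem_nhds]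
    rintro _ ⟨z, hz, rfl⟩
    have hfa : AnalyticAt ℂ f z := hf.analyticAt (isOpen_ball.mem_nhds (hsub hz))
    have hs : HasStrictDerivAt f (deriv f z) z := hfa.hasStrictDerivAt
    have hne : deriv f z ≠ 0 := by rw [hderiv z (hsub hz)]; exact Complex.exp_ne_zero _
    rw [← hs.map_nhds_eq hne]
    exact Filter.image_mem_map (isOpen_ball.mem_nhds hz)
  have hcomp : IsCompact (f '' closedBall (0:ℂ) r) :=
    (isCompact_closedBall 0 r).image_of_continuousOn (hf.continuousOn.mono hcsub)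
  have hclo : closure U ⊆ f '' closedBall (0:ℂ) r :=
    closure_minimal (image_mono ball_subset_closedBall) hcomp.isClosed
  have hbdd : Bornology.IsBounded U := hcomp.isBounded.subset (image_mono ball_subset_closedBall)
  have hfr : ∀ w ∈ closure U, w ∉ U → ∃ t ∈ Ioc 0 (2 * Real.pi), f (circleMap 0 r t) = w := by
    intro w hw hwU
    obtain ⟨z, hz, rfl⟩ := hclo hw
    have hzr : z ∈ sphere (0:ℂ) r := by
      rw [mem_sphere_zero_iff_norm]
      rw [mem_closedBall_zero_iff] at hz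
      by_contra hne
      exact hwU ⟨z, mem_ball_zero_iff.2 (lt_of_le_of_ne hz hne), rfl⟩
    rw [← abs_of_pos hr0, ← image_circleMap_Ioc] at hzr
    obtain ⟨t, ht, rfl⟩ := hzr
    exact ⟨t, ht, rfl⟩
  -- the derivative along the circle
  have hmem : ∀ t, circleMap 0 r t ∈ ball (0:ℂ) 1 := fun t =>
    hcsub (circleMap_mem_closedBall 0 hr0.le t)
  have hnorm : ∀ t, ‖circleMap 0 r t‖ = r := fun t => by
    rw [norm_circleMap_zero, abs_of_pos hr0]
  set ψ : ℝ → ℝ := fun t => t + (H (circleMap 0 r t)).im with hψdef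
  have hHd : ∀ t, HasDerivAt (fun t : ℝ => H (circleMap 0 r t))
      (deriv H (circleMap 0 r t) * (circleMap 0 r t * I)) t := by
    intro t
    have h1 : HasDerivAt H (deriv H (circleMap 0 r t)) (circleMap 0 r t) :=
      (hH.differentiableAt (isOpen_ball.mem_nhds (hmem t))).hasDerivAt
    exact h1.comp t (hasDerivAt_circleMap 0 r t)
  have hfd : ∀ t, HasDerivAt (fun t : ℝ => f (circleMap 0 r t))
      (Complex.exp (H (circleMap 0 r t)) * (circleMap 0 r t * I)) t := by
    intro t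
    have h1 : HasDerivAt f (Complex.exp (H (circleMap 0 r t))) (circleMap 0 r t) := by
      rw [← hderiv _ (hmem t)]
      exact (hf.differentiableAt (isOpen_ball.mem_nhds (hmem t))).hasDerivAt
    exact h1.comp t (hasDerivAt_circleMap 0 r t)
  have hψd : ∀ t, HasDerivAt ψ ((1 + circleMap 0 r t * deriv H (circleMap 0 r t)).re) t := by
    intro t
    have h1 : HasDerivAt (fun t : ℝ => (H (circleMap 0 r t)).im)
        ((deriv H (circleMap 0 r t) * (circleMap 0 r t * I)).im) t :=
      (Complex.imCLM.hasFDerivAt.comp_hasDerivAt t (hHd t))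
    have h2 := (hasDerivAt_id t).add h1
    have e : (1 + circleMap 0 r t * deriv H (circleMap 0 r t)).re =
        1 + (deriv H (circleMap 0 r t) * (circleMap 0 r t * I)).im := by
      simp only [add_re, one_re, mul_re, mul_im, I_re, I_im]
      ring
    rw [e]
    exact h2
  have hψm : StrictMono ψ := strictMono_of_hasDerivAt_pos hψd fun t => hpos _ (hnorm t)
  have hcper : ∀ t, circleMap 0 r (t + 2 * Real.pi) = circleMap 0 r t := periodic_circleMap 0 r
  have hψper : ∀ t, ψ (t + 2 * Real.pi) = ψ t + 2 * Real.pi := by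
    intro t
    simp only [hψdef, hcper]
    ring
  rw [convex_iff_segment_subset]
  intro w₁ hw₁ w₂ hw₂ w hw
  by_contra hwU
  rw [segment_eq_image'] at hw
  obtain ⟨s₀, hs₀, hws⟩ := hw
  simp only at hws
  set v := w₂ - w₁ with hv
  have hv0 : v ≠ 0 := by
    intro h0
    rw [h0, smul_zero, add_zero] at hws
    exact hwU (hws ▸ hw₁)
  set l : ℝ → ℂ := fun s => w₁ + s • v with hl
  have hlc : Continuous l := by
    rw [hl]
    fun_prop
  set S := l ⁻¹' U with hS
  have hSo : IsOpen S := hUo.preimage hlc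
  have h0S : (0:ℝ) ∈ S := by
    change l 0 ∈ U
    simpa [hl] using hw₁
  have h1S : (1:ℝ) ∈ S := by
    change l 1 ∈ U
    simpa [hl, hv] using hw₂
  have hs₀S : s₀ ∉ S := by
    change l s₀ ∉ U
    rw [hl]
    simp only
    rwa [hws]
  -- bounded
  obtain ⟨R, hR⟩ := hbdd.exists_norm_le
  have hlarge : ∀ s : ℝ, (R + ‖w₁‖) / ‖v‖ < |s| → s ∉ S := by
    intro s hs hsS
    have h1 := hR _ hsS
    have h2 : |s| * ‖v‖ ≤ ‖l s‖ + ‖w₁‖ := by
      have : s • v = l s - w₁ := by simp [hl]
      have h3 : ‖s • v‖ = |s| * ‖v‖ := by rw [norm_smul, Real.norm_eq_abs]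
      rw [← h3, this]
      exact norm_sub_le _ _
    have h4 : 0 < ‖v‖ := norm_pos_iff.2 hv0
    rw [div_lt_iff₀ h4] at hs
    linarith
  set M := max 1 ((R + ‖w₁‖) / ‖v‖) + 1 with hM
  have hM1 : 1 < M := by
    have := le_max_left 1 ((R + ‖w₁‖) / ‖v‖)
    linarith
  have hM2 : (R + ‖w₁‖) / ‖v‖ < M := by
    have := le_max_right 1 ((R + ‖w₁‖) / ‖v‖)
    linarith
  have hMS : M ∉ S := hlarge M (by rw [abs_of_pos (by linarith)]; exact hM2)
  have hmS : -M ∉ S := hlarge (-M) (by rw [abs_neg, abs_of_pos (by linarith)]; exact hM2)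
  obtain ⟨a, ha, ha0, hac, haS⟩ := exists_boundary hSo h0S hmS
  obtain ⟨b, hb, hb0, hbc, hbS⟩ := exists_boundary hSo h0S hs₀S
  obtain ⟨d, hd, hd0, hdc, hdS⟩ := exists_boundary hSo h1S hMS
  rw [uIcc_of_ge (by linarith)] at ha
  rw [uIcc_of_le hs₀.1] at hb
  rw [uIcc_of_le hM1.le] at hd
  have ha1 : a < 0 := lt_of_le_of_ne ha.2 ha0
  have hb1 : 0 < b := lt_of_le_of_ne hb.1 (Ne.symm hb0)
  have hd1 : 1 < d := lt_of_le_of_ne hd.1 (Ne.symm hd0)
  have hb2 : b ≤ 1 := hb.2.trans hs₀.2
  have hcl : ∀ s ∈ closure S, l s ∈ closure U := fun s hs => by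
    have := hlc.closure_preimage_subset U hs
    exact this
  obtain ⟨ta, hta, htae⟩ := hfr _ (hcl a hac) haS
  obtain ⟨tb, htb, htbe⟩ := hfr _ (hcl b hbc) hbS
  obtain ⟨td, htd, htde⟩ := hfr _ (hcl d hdc) hdS
  have hlinj : ∀ s s' : ℝ, l s = l s' → s = s' := by
    intro s s' h
    simp only [hl, add_right_inj] at h
    exact smul_left_injective ℝ hv0 h
  have hab : ta ≠ tb := by
    rintro rfl
    have := hlinj a b (htae.symm.trans htbe)
    linarith
  have had : ta ≠ td := by
    rintro rfl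
    have := hlinj a d (htae.symm.trans htde)
    linarith
  have hbd : tb ≠ td := by
    rintro rfl
    have := hlinj b d (htbe.symm.trans htde)
    linarith
  -- the function g
  set g : ℝ → ℝ := fun t => ((f (circleMap 0 r t) - w₁) * (starRingEnd ℂ) v).im with hg
  have hgl : ∀ t s, f (circleMap 0 r t) = l s → g t = 0 := by
    intro t s h
    simp only [hg, h, hl, add_sub_cancel_left]
    rw [real_smul, mul_assoc, Complex.mul_conj, ← ofReal_mul, ofReal_im]
  set g' : ℝ → ℝ := fun t =>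
    ((Complex.exp (H (circleMap 0 r t)) * (circleMap 0 r t * I)) * (starRingEnd ℂ) v).im with hg'
  have hgd : ∀ t, HasDerivAt g (g' t) t := by
    intro t
    have h1 := ((hfd t).sub_const w₁).mul_const ((starRingEnd ℂ) v)
    exact Complex.imCLM.hasFDerivAt.comp_hasDerivAt t h1
  have hgper : ∀ t, g (t + 2 * Real.pi) = g t := by
    intro t
    simp only [hg, hcper]
  have hg'e : ∀ t, g' t = (Real.exp (H (circleMap 0 r t)).re * r * ‖v‖) *
      Real.cos (ψ t - Complex.arg v) := by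
    intro t
    have e1 : (starRingEnd ℂ) v = ‖v‖ * Complex.exp (-(Complex.arg v) * I) := by
      conv_lhs => rw [← Complex.norm_mul_exp_arg_mul_I v]
      rw [map_mul, ← Complex.exp_conj, map_mul, conj_I, conj_ofReal, conj_ofReal]
      congr 2
      ring
    have e2 : Complex.exp (H (circleMap 0 r t)) * (circleMap 0 r t * I) * (starRingEnd ℂ) v =
        ((Real.exp (H (circleMap 0 r t)).re * r * ‖v‖ : ℝ) : ℂ) *
          (Complex.exp (((ψ t - Complex.arg v : ℝ) : ℂ) * I) * I) := by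
      rw [e1]
      have e3 : Complex.exp (H (circleMap 0 r t)) =
          Complex.exp ((H (circleMap 0 r t)).re : ℂ) *
            Complex.exp (((H (circleMap 0 r t)).im : ℂ) * I) := by
        rw [← Complex.exp_add, Complex.re_add_im]
      have e4 : circleMap 0 r t = r * Complex.exp (t * I) := by simp [circleMap]
      have e6 : Complex.exp (t * I) * r = circleMap 0 r t := by rw [e4]; ring
      have e5 : Complex.exp (((ψ t - Complex.arg v : ℝ) : ℂ) * I) =
          Complex.exp (t * I) * Complex.exp (((H (circleMap 0 r t)).im : ℂ) * I) *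
            Complex.exp (-(Complex.arg v) * I) := by
        rw [← Complex.exp_add, ← Complex.exp_add]
        congr 1
        simp only [hψdef]
        push_cast
        ring
      rw [e5, ofReal_mul, ofReal_mul, ofReal_exp]
      calc Complex.exp (H (circleMap 0 r t)) * (circleMap 0 r t * I) *
            (‖v‖ * Complex.exp (-(Complex.arg v) * I))
          = (Complex.exp ((H (circleMap 0 r t)).re : ℂ) *
            Complex.exp (((H (circleMap 0 r t)).im : ℂ) * I)) * ((Complex.exp (t * I) * r) * I) *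
            (‖v‖ * Complex.exp (-(Complex.arg v) * I)) := by rw [← e3, e6]
        _ = _ := by ring
    simp only [hg']
    rw [e2, Complex.im_ofReal_mul, Complex.mul_I_im, Complex.exp_ofReal_mul_I_re]
  have hρ : ∀ t, (Real.exp (H (circleMap 0 r t)).re * r * ‖v‖) ≠ 0 := fun t => by
    have h4 : 0 < ‖v‖ := norm_pos_iff.2 hv0
    positivity
  have key : ∀ t₁ t₂ t₃ : ℝ, t₁ < t₂ → t₂ < t₃ → t₃ < t₁ + 2 * Real.pi → g t₁ = 0 → g t₂ = 0 →
      g t₃ = 0 → False := fun t₁ t₂ t₃ h12 h23 h31 h1 h2 h3 =>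
    rolle_three hgd hgper hg'e hρ hψm hψper h12 h23 h31 h1 h2 h3
  have ga := hgl ta a htae
  have gb := hgl tb b htbe
  have gd := hgl td d htde
  obtain ⟨ha₁, ha₂⟩ := hta
  obtain ⟨hb₁, hb₂⟩ := htb
  obtain ⟨hd₁, hd₂⟩ := htd
  rcases lt_or_gt_of_ne hab with h1 | h1 <;> rcases lt_or_gt_of_ne had with h2 | h2 <;>
    rcases lt_or_gt_of_ne hbd with h3 | h3
  · exact key ta tb td h1 h3 (by linarith) ga gb gd
  · exact key ta td tb h2 h3 (by linarith) ga gd gb
  · linarith
  · exact key td ta tb h2 h1 (by linarith) gd ga gb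
  · exact key tb ta td h1 h2 (by linarith) gb ga gd
  · linarith
  · exact key tb td ta h3 h2 (by linarith) gb gd ga
  · exact key td tb ta h3 h1 (by linarith) gd gb ga

end Pool.Agent.Helper968.Schild
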