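import Mathlib
import Pool.Agent.Helper968.Schild.CellSound

/-!
The remaining regions of the key inequality.
-/

namespace Pool.Agent.Helper968.Schild

theorem good_smallb {b μ : ℝ} (hb0 : 0 < b) (hb : b ≤ 0.01) (hμ : 0.1 ≤ μ) (hμ1 : μ < 1) :
    Good b μ := by
  intro τ hτ0 hτ1 _
  have hb2 : b ^ 2 ≤ 0.0001 := by nlinarith
  have hm2 : 0.01 ≤ μ ^ 2 := by nlinarith
  have hm3 : μ ^ 2 ≤ 1 := by nlinarith
  have hs : 0 < 1 - b ^ 2 := by linarith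
  have hbp : 0 < b ^ 2 := by positivity
  have hmp : 0 < μ ^ 2 := by linarith
  have h1 : (28 - 23 * b) * b ^ 2 * μ ^ 2 * (1 - b ^ 2) * (τ - μ ^ 2) ≤
      28 * b ^ 2 * μ ^ 2 * (1 - b ^ 2) * 1 := by
    apply mul_le_mul _ (by linarith) (by linarith) (by positivity)
    gcongr
    linarith
  have h2 : (μ ^ 2 * (1 - b ^ 2)) ^ 2 ≤
      ((1 - τ) * (1 - b ^ 2) + b ^ 2 * (1 - μ ^ 2) + μ ^ 2 * (1 - b ^ 2)) ^ 2 := by
    apply pow_le_pow_left₀ (by positivity)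
    have c1 : 0 ≤ (1 - τ) * (1 - b ^ 2) := mul_nonneg (by linarith) hs.le
    have c2 : 0 ≤ b ^ 2 * (1 - μ ^ 2) := mul_nonneg hbp.le (by linarith)
    linarith
  refine lt_of_le_of_lt h1 (lt_of_lt_of_le ?_ h2)
  have h3 : 28 * b ^ 2 < μ ^ 2 * (1 - b ^ 2) := by nlinarith
  have h4 : 0 < μ ^ 2 * (1 - b ^ 2) := by positivity
  nlinarith [mul_pos hmp hs]

theorem good_smallmu {b μ : ℝ} (hb0 : 0 < b) (hb : b < 1) (hμ0 : 0 < μ) (hμ : μ ≤ 0.1) :
    Good b μ := by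
  intro τ hτ0 hτ1 H
  have hm2 : μ ^ 2 ≤ 0.01 := by nlinarith
  have hmp : 0 < μ ^ 2 := by positivity
  have hbp : 0 < b ^ 2 := by positivity
  have hb2 : b ^ 2 < 1 := by nlinarith
  have hs : 0 < 1 - b ^ 2 := by linarith
  have c1 : 0 ≤ (1 - τ) * (1 - b ^ 2) := mul_nonneg (by linarith) hs.le
  have c2 : 0 ≤ b ^ 2 * (1 - μ ^ 2) := mul_nonneg hbp.le (by linarith)
  have c3 : 0 ≤ μ ^ 2 * (1 - b ^ 2) := by positivity
  have hτp : 0 < τ := hmp.trans hτ0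
  have hl : (28 - 23 * b) * b ^ 2 * μ ^ 2 * (1 - b ^ 2) * (τ - μ ^ 2) ≤ 28 * b ^ 2 * μ ^ 2 * τ := by
    have d1 : (28 - 23 * b) * b ^ 2 * μ ^ 2 * (1 - b ^ 2) ≤ 28 * b ^ 2 * μ ^ 2 * 1 := by
      apply mul_le_mul _ (by linarith) hs.le (by positivity)
      gcongr
      linarith
    rw [mul_one] at d1
    apply mul_le_mul d1 (by linarith) (by linarith) (by positivity)
  refine lt_of_le_of_lt hl ?_
  rcases le_total (6 * μ) b with h | h
  · have h2 : (b ^ 2 * (1 - μ ^ 2)) ^ 2 ≤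
        ((1 - τ) * (1 - b ^ 2) + b ^ 2 * (1 - μ ^ 2) + μ ^ 2 * (1 - b ^ 2)) ^ 2 := by
      apply pow_le_pow_left₀ c2
      linarith
    refine lt_of_lt_of_le ?_ h2
    have h3 : 36 * μ ^ 2 ≤ b ^ 2 := by nlinarith
    have h4 : 0.98 ≤ (1 - μ ^ 2) ^ 2 := by nlinarith
    have h5 : 28 * b ^ 2 * μ ^ 2 * τ ≤ 28 * b ^ 2 * μ ^ 2 := by
      have : 0 < 28 * b ^ 2 * μ ^ 2 := by positivity
      nlinarith
    have h6 : 28 * b ^ 2 * μ ^ 2 < b ^ 2 * (36 * μ ^ 2) * 0.98 := by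
      have : 0 < b ^ 2 * μ ^ 2 := by positivity
      nlinarith
    have h7 : b ^ 2 * (36 * μ ^ 2) * 0.98 ≤ b ^ 2 * b ^ 2 * (1 - μ ^ 2) ^ 2 := by
      apply mul_le_mul _ h4 (by norm_num) (by positivity)
      gcongr
    calc 28 * b ^ 2 * μ ^ 2 * τ ≤ 28 * b ^ 2 * μ ^ 2 := h5
      _ < b ^ 2 * (36 * μ ^ 2) * 0.98 := h6
      _ ≤ b ^ 2 * b ^ 2 * (1 - μ ^ 2) ^ 2 := h7
      _ = (b ^ 2 * (1 - μ ^ 2)) ^ 2 := by ring
  · have hb6 : b ≤ 0.6 := by linarith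
    have hs2 : 0.64 ≤ 1 - b ^ 2 := by nlinarith
    have hbm : b ^ 2 ≤ 36 * μ ^ 2 := by nlinarith
    have h2 : ((1 - τ) * (1 - b ^ 2)) ^ 2 ≤
        ((1 - τ) * (1 - b ^ 2) + b ^ 2 * (1 - μ ^ 2) + μ ^ 2 * (1 - b ^ 2)) ^ 2 := by
      apply pow_le_pow_left₀ c1
      linarith
    refine lt_of_lt_of_le ?_ h2
    rcases le_total τ (1 / 2) with ht | ht
    · have h3 : 0.32 ≤ (1 - τ) * (1 - b ^ 2) := by nlinarith
      have h4 : 0.1024 ≤ ((1 - τ) * (1 - b ^ 2)) ^ 2 := by nlinarith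
      have h5 : b ^ 2 * μ ^ 2 ≤ 0.0036 := by
        have : b ^ 2 * μ ^ 2 ≤ (36 * μ ^ 2) * μ ^ 2 := by gcongr
        nlinarith
      have h6 : 28 * b ^ 2 * μ ^ 2 * τ ≤ 28 * 0.0036 * (1 / 2) := by
        have : 28 * b ^ 2 * μ ^ 2 * τ = 28 * (b ^ 2 * μ ^ 2) * τ := by ring
        rw [this]
        gcongr
      nlinarith
    · set σ := 1 - τ with hσ
      have hσ0 : 0 ≤ σ := by linarith
      have hσ1 : σ ≤ 1 / 2 := by linarith
      have hτσ : τ = 1 - σ := by linarith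
      have h3 : (2 * b + μ) * (1 - b ^ 2) * (1 - σ) ^ 2 ≤ μ * (1 + σ) := by
        have : μ * (2 - τ) * (1 - μ ^ 2) ≤ μ * (2 - τ) * 1 := by
          apply mul_le_mul_of_nonneg_left _ (by nlinarith)
          linarith
        rw [hτσ] at H this
        nlinarith
      have h4 : 1 + σ ≤ (1 + 12 * σ) * (1 - σ) ^ 2 := by
        have : 0 ≤ σ * (9 - 23 * σ + 12 * σ ^ 2) := by
          apply mul_nonneg hσ0
          nlinarith
        nlinarith
      have h5 : (2 * b + μ) * (1 - b ^ 2) ≤ μ * (1 + 12 * σ) := by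
        have h6 : 0 < (1 - σ) ^ 2 := by
          have : 0 < 1 - σ := by linarith
          positivity
        have h7 : (2 * b + μ) * (1 - b ^ 2) * (1 - σ) ^ 2 ≤ μ * (1 + 12 * σ) * (1 - σ) ^ 2 := by
          calc _ ≤ μ * (1 + σ) := h3
            _ ≤ μ * ((1 + 12 * σ) * (1 - σ) ^ 2) := by gcongr
            _ = _ := by ring
        exact le_of_mul_le_mul_right h7 h6
      have h8 : 1.22 * b ≤ 12 * μ * σ := by
        have h9 : b * (2 * (1 - b ^ 2) - μ * b) ≤ 12 * μ * σ := by nlinarith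
        have h10 : 1.22 ≤ 2 * (1 - b ^ 2) - μ * b := by nlinarith
        nlinarith
      have h11 : (1.22 * b * 0.64) ≤ 12 * μ * (σ * (1 - b ^ 2)) := by
        have : 1.22 * b * 0.64 ≤ (12 * μ * σ) * (1 - b ^ 2) := by
          apply mul_le_mul h8 hs2 (by norm_num) (by positivity)
        linarith
      have h12 : (1.22 * b * 0.64) ^ 2 ≤ (12 * μ * (σ * (1 - b ^ 2))) ^ 2 :=
        pow_le_pow_left₀ (by positivity) h11 2
      have h13 : 28 * b ^ 2 * μ ^ 2 * (1 - σ) ≤ 28 * b ^ 2 * μ ^ 2 := by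
        have : 0 < 28 * b ^ 2 * μ ^ 2 := by positivity
        nlinarith
      rw [hτσ]
      have hc : 144 * μ ^ 2 * (28 * b ^ 2 * μ ^ 2) < 144 * μ ^ 2 * ((1 - (1 - σ)) * (1 - b ^ 2)) ^ 2 := by
        have e1 : 144 * μ ^ 2 * ((1 - (1 - σ)) * (1 - b ^ 2)) ^ 2 =
            (12 * μ * (σ * (1 - b ^ 2))) ^ 2 := by ring
        rw [e1]
        refine lt_of_lt_of_le ?_ h12
        have e2 : 144 * μ ^ 2 * (28 * b ^ 2 * μ ^ 2) = 4032 * b ^ 2 * (μ ^ 2 * μ ^ 2) := by ring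
        have e3 : μ ^ 2 * μ ^ 2 ≤ 0.0001 := by nlinarith
        rw [e2]
        have e4 : 4032 * b ^ 2 * (μ ^ 2 * μ ^ 2) ≤ 4032 * b ^ 2 * 0.0001 := by gcongr
        nlinarith
      have hd : 28 * b ^ 2 * μ ^ 2 < ((1 - (1 - σ)) * (1 - b ^ 2)) ^ 2 :=
        lt_of_mul_lt_mul_left hc (by positivity)
      linarith

theorem good_largeb {b μ : ℝ} (hb : 0.998 ≤ b) (hb1 : b < 1) (hμ0 : 0 < μ) (hμ : μ ≤ 0.99) :
    Good b μ := by
  intro τ hτ0 hτ1 _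
  have hm2 : μ ^ 2 ≤ 0.9801 := by nlinarith
  have hmp : 0 < μ ^ 2 := by positivity
  have hb2 : 0.996 ≤ b ^ 2 := by nlinarith
  have hb3 : b ^ 2 < 1 := by nlinarith
  have hs : 0 < 1 - b ^ 2 := by linarith
  have c1 : 0 ≤ (1 - τ) * (1 - b ^ 2) := mul_nonneg (by linarith) hs.le
  set A := b ^ 2 * (1 - μ ^ 2) with hA
  set B := μ ^ 2 * (1 - b ^ 2) with hB
  have hBp : 0 < B := by positivity
  have hAB : 3.1 * B ≤ A := by
    rw [hA, hB]
    nlinarith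
  have hl : (28 - 23 * b) * b ^ 2 * μ ^ 2 * (1 - b ^ 2) * (τ - μ ^ 2) ≤ 5.05 * (A * B) := by
    have d1 : (28 - 23 * b) * b ^ 2 * μ ^ 2 * (1 - b ^ 2) ≤ 5.05 * b ^ 2 * μ ^ 2 * (1 - b ^ 2) := by
      gcongr
      linarith
    calc _ ≤ 5.05 * b ^ 2 * μ ^ 2 * (1 - b ^ 2) * (1 - μ ^ 2) := by
          apply mul_le_mul d1 (by linarith) (by linarith) (by positivity)
      _ = 5.05 * (A * B) := by rw [hA, hB]; ring
  refine lt_of_le_of_lt hl ?_
  have h2 : (A + B) ^ 2 ≤ ((1 - τ) * (1 - b ^ 2) + A + B) ^ 2 := by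
    apply pow_le_pow_left₀ (by linarith)
    linarith
  refine lt_of_lt_of_le ?_ h2
  nlinarith [mul_pos hBp hBp, mul_nonneg hBp.le (sub_nonneg.mpr hAB)]

theorem good_largemu {b μ : ℝ} (hb0 : 0 < b) (hb1 : b < 1) (hμ : 0.99 ≤ μ) (hμ1 : μ < 1) :
    Good b μ := by
  intro τ hτ0 hτ1 H
  have hμ0 : 0 < μ := by linarith
  have hm2 : 0.9801 ≤ μ ^ 2 := by nlinarith
  have hm3 : μ ^ 2 < 1 := by nlinarith
  have hb3 : b ^ 2 < 1 := by nlinarith
  have hbp : 0 < b ^ 2 := by positivity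
  set s := 1 - b ^ 2 with hs
  set D := 1 - μ ^ 2 with hD
  have hs0 : 0 < s := by linarith
  have hD0 : 0 < D := by linarith
  have hD1 : D ≤ 0.0199 := by linarith
  have hτ2 : 0.9604 ≤ τ ^ 2 := by nlinarith
  have h1 : (2 * b + μ) * s * 0.9604 ≤ μ * 1.02 * D := by
    have e1 : (2 * b + μ) * s * 0.9604 ≤ (2 * b + μ) * s * τ ^ 2 := by gcongr
    have e2 : μ * (2 - τ) * D ≤ μ * 1.02 * D := by
      gcongr
      linarith
    linarith
  have h2 : s ≤ 0.0212 := by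
    have : μ * s * 0.9604 ≤ μ * 1.02 * D := by nlinarith [mul_pos hb0 hs0]
    have : s * 0.9604 ≤ 1.02 * D := by
      have h3 : μ * (s * 0.9604) ≤ μ * (1.02 * D) := by linarith
      exact le_of_mul_le_mul_left h3 hμ0
    linarith
  have h3 : 0.989 ≤ b := by nlinarith
  have h4 : s ≤ 0.3567 * D := by
    have e1 : (2.978 * μ) * s * 0.9604 ≤ μ * 1.02 * D := by
      have : (2.978 * μ) * s * 0.9604 ≤ (2 * b + μ) * s * 0.9604 := by
        gcongr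
        nlinarith
      linarith
    have e2 : μ * (2.978 * s * 0.9604) ≤ μ * (1.02 * D) := by linarith
    have e3 := le_of_mul_le_mul_left e2 hμ0
    linarith
  have h5 : 0.9964 ≤ b := by nlinarith
  have h6 : s ≤ 0.35492 * D := by
    have e1 : (2.9928 * μ) * s * 0.9604 ≤ μ * 1.02 * D := by
      have : (2.9928 * μ) * s * 0.9604 ≤ (2 * b + μ) * s * 0.9604 := by
        gcongr
        nlinarith
      linarith
    have e2 : μ * (2.9928 * s * 0.9604) ≤ μ * (1.02 * D) := by linarith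
    have e3 := le_of_mul_le_mul_left e2 hμ0
    linarith
  have hb2 : 0.9928 ≤ b ^ 2 := by nlinarith
  have c1 : 0 ≤ (1 - τ) * s := mul_nonneg (by linarith) hs0.le
  set A := b ^ 2 * D with hA
  set B := μ ^ 2 * s with hB
  have hBp : 0 < B := by positivity
  have hAB : 2.797 * B ≤ A := by
    have e1 : B ≤ s := by rw [hB]; nlinarith
    have e2 : 0.9928 * D ≤ A := by rw [hA]; nlinarith
    nlinarith
  have hl : (28 - 23 * b) * b ^ 2 * μ ^ 2 * s * (τ - μ ^ 2) ≤ 5.0828 * (A * B) := by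
    have d1 : (28 - 23 * b) * b ^ 2 * μ ^ 2 * s ≤ 5.0828 * b ^ 2 * μ ^ 2 * s := by
      gcongr
      linarith
    calc _ ≤ 5.0828 * b ^ 2 * μ ^ 2 * s * D := by
          apply mul_le_mul d1 (by linarith) (by linarith) (by positivity)
      _ = 5.0828 * (A * B) := by rw [hA, hB]; ring
  refine lt_of_le_of_lt hl ?_
  have h2 : (A + B) ^ 2 ≤ ((1 - τ) * s + A + B) ^ 2 := by
    apply pow_le_pow_left₀ (by nlinarith)
    linarith
  refine lt_of_lt_of_le ?_ h2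
  have f1 : 0 < (A - 2.7144 * B) * (A - 0.3684 * B) := by
    apply mul_pos <;> linarith
  nlinarith [mul_pos hBp hBp, mul_pos hBp (show 0 < A by linarith)]

theorem good_all {b μ : ℝ} (hb0 : 0 < b) (hb1 : b < 1) (hμ0 : 0 < μ) (hμ1 : μ < 1) :
    Good b μ := by
  rcases le_total μ 0.1 with h1 | h1
  · exact good_smallmu hb0 hb1 hμ0 h1
  rcases le_total 0.99 μ with h2 | h2
  · exact good_largemu hb0 hb1 h2 hμ1
  rcases le_total b 0.01 with h3 | h3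
  · exact good_smallb hb0 h3 h1 hμ1
  rcases le_total 0.998 b with h4 | h4
  · exact good_largeb h4 hb1 hμ0 h2
  exact good_mid h3 h4 h1 h2

end Pool.Agent.Helper968.Schild
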