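import Mathlib

/-!
General facts on the radius of convexity and the ratio `d*/d`.
-/

namespace Pool.Agent.Helper968.Schild

open Metric Set Filter Topology

/-- radius of convexity -/
noncomputable def rc (f : ℂ → ℂ) : ℝ :=
  sSup {r : ℝ | 0 < r ∧ r ≤ 1 ∧ Convex ℝ (f '' Metric.ball (0:ℂ) r)}

/-- the ratio `d*/d` -/
noncomputable def rho (f : ℂ → ℂ) : ℝ :=
  sInf ((fun w : ℂ => ‖w‖) '' frontier (f '' Metric.ball (0:ℂ) (rc f)))
      / Metric.infDist (0:ℂ) (f '' Metric.ball (0:ℂ) 1)ᶜ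

theorem isOpen_image {f : ℂ → ℂ} (hf : DifferentiableOn ℂ f (ball (0:ℂ) 1))
    (hinj : InjOn f (ball (0:ℂ) 1)) {s : Set ℂ} (hs : s ⊆ ball 0 1) (hso : IsOpen s) :
    IsOpen (f '' s) := by
  have ha : AnalyticOnNhd ℂ f (ball (0:ℂ) 1) := hf.analyticOnNhd isOpen_ball
  rcases ha.is_constant_or_isOpen (convex_ball (0:ℂ) 1).isPreconnected with h | h
  · exfalso
    obtain ⟨w, hw⟩ := h
    have h0 : (0:ℂ) ∈ ball (0:ℂ) 1 := by simp
    have h1 : (1/2:ℂ) ∈ ball (0:ℂ) 1 := by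
      rw [mem_ball_zero_iff]; norm_num
    have := hinj h0 h1 ((hw 0 h0).trans (hw _ h1).symm)
    norm_num at this
  · exact h s hs hso

theorem ball_subset_image {f : ℂ → ℂ} (hf : DifferentiableOn ℂ f (ball (0:ℂ) 1))
    (hinj : InjOn f (ball (0:ℂ) 1)) (h0 : f 0 = 0) {r m : ℝ} (hr0 : 0 < r) (hr1 : r < 1)
    (hm : ∀ z : ℂ, ‖z‖ = r → m ≤ ‖f z‖) : ball (0:ℂ) m ⊆ f '' ball (0:ℂ) r := by
  rcases le_or_gt m 0 with hm0 | hm0
  · rw [ball_eq_empty.mpr hm0]; exact empty_subset _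
  have hsub : ball (0:ℂ) r ⊆ ball 0 1 := ball_subset_ball hr1.le
  have hU : IsOpen (f '' ball (0:ℂ) r) := isOpen_image hf hinj hsub isOpen_ball
  have hK : IsCompact (f '' closedBall (0:ℂ) r) := by
    apply (isCompact_closedBall (0:ℂ) r).image_of_continuousOn
    exact hf.continuousOn.mono (closedBall_subset_ball hr1)
  have hV : IsOpen (f '' closedBall (0:ℂ) r)ᶜ := hK.isClosed.isOpen_compl
  have hpre : IsPreconnected (ball (0:ℂ) m) := (convex_ball (0:ℂ) m).isPreconnected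
  have hcov : ball (0:ℂ) m ⊆ (f '' ball (0:ℂ) r) ∪ (f '' closedBall (0:ℂ) r)ᶜ := by
    intro w hw
    by_cases h : w ∈ f '' closedBall (0:ℂ) r
    · left
      obtain ⟨z, hz, rfl⟩ := h
      rw [mem_closedBall_zero_iff] at hz
      rcases hz.lt_or_eq with hlt | heq
      · exact ⟨z, mem_ball_zero_iff.mpr hlt, rfl⟩
      · exfalso
        have := hm z heq
        rw [mem_ball_zero_iff] at hw
        linarith
    · exact Or.inr h
  intro w hw
  by_contra hcon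
  have hw2 : w ∈ (f '' closedBall (0:ℂ) r)ᶜ := by
    rcases hcov hw with h | h
    · exact absurd h hcon
    · exact h
  obtain ⟨x, -, hx1, hx2⟩ := hpre _ _ hU hV hcov
    ⟨0, mem_ball_self hm0, 0, mem_ball_self hr0, h0⟩ ⟨w, hw, hw2⟩
  exact hx2 (image_mono ball_subset_closedBall hx1)

theorem rc_le_one (f : ℂ → ℂ) : rc f ≤ 1 := by
  unfold rc
  rcases (({r : ℝ | 0 < r ∧ r ≤ 1 ∧ Convex ℝ (f '' Metric.ball (0:ℂ) r)}) : Set ℝ).eq_empty_or_nonempty
    with h | h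
  · rw [h, Real.sSup_empty]; norm_num
  · exact csSup_le h fun r hr => hr.2.1

theorem le_rc {f : ℂ → ℂ} {r : ℝ} (h0 : 0 < r) (h1 : r ≤ 1)
    (hc : Convex ℝ (f '' Metric.ball (0:ℂ) r)) : r ≤ rc f :=
  le_csSup ⟨1, fun _ hr => hr.2.1⟩ ⟨h0, h1, hc⟩

/-- lower bound for the ratio -/
theorem le_rho {f : ℂ → ℂ} (hf : DifferentiableOn ℂ f (ball (0:ℂ) 1))
    (hinj : InjOn f (ball (0:ℂ) 1)) (h0 : f 0 = 0) {r m d : ℝ} (hr0 : 0 < r) (hr1 : r < 1)
    (hconv : Convex ℝ (f '' ball (0:ℂ) r)) (hm0 : 0 < m) (hm : ∀ z : ℂ, ‖z‖ = r → m ≤ ‖f z‖)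
    {w : ℂ} (hw : w ∉ f '' ball (0:ℂ) 1) (hwd : ‖w‖ ≤ d) : m / d ≤ rho f := by
  have hr : r ≤ rc f := le_rc hr0 hr1.le hconv
  have hsub := ball_subset_image hf hinj h0 hr0 hr1 hm
  have hsub1 : ball (0:ℂ) m ⊆ f '' ball (0:ℂ) (rc f) :=
    hsub.trans (image_mono (ball_subset_ball hr))
  have hopen : IsOpen (f '' ball (0:ℂ) (rc f)) :=
    isOpen_image hf hinj (ball_subset_ball (rc_le_one f)) isOpen_ball
  have hne : (frontier (f '' ball (0:ℂ) (rc f))).Nonempty := by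
    rw [nonempty_iff_ne_empty, ne_eq, frontier_eq_empty_iff]
    rintro (h | h)
    · have : (0:ℂ) ∈ f '' ball (0:ℂ) (rc f) := hsub1 (mem_ball_self hm0)
      rw [h] at this
      exact this
    · apply hw
      have : w ∈ f '' ball (0:ℂ) (rc f) := by rw [h]; trivial
      exact image_mono (ball_subset_ball (rc_le_one f)) this
  have h1 : m ≤ sInf ((fun w : ℂ => ‖w‖) '' frontier (f '' ball (0:ℂ) (rc f))) := by
    apply le_csInf (hne.image _)
    rintro _ ⟨v, hv, rfl⟩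
    by_contra hcon
    push Not at hcon
    have hv1 : v ∈ f '' ball (0:ℂ) (rc f) := hsub1 (mem_ball_zero_iff.mpr hcon)
    rw [hopen.frontier_eq] at hv
    exact hv.2 hv1
  have hwc : w ∈ (f '' ball (0:ℂ) 1)ᶜ := hw
  have h2 : infDist (0:ℂ) (f '' ball (0:ℂ) 1)ᶜ ≤ d := by
    refine (infDist_le_dist_of_mem hwc).trans ?_
    rw [dist_zero_left]
    exact hwd
  have h3 : m ≤ infDist (0:ℂ) (f '' ball (0:ℂ) 1)ᶜ := by
    rw [le_infDist ⟨w, hwc⟩]
    intro y hy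
    rw [dist_zero_left]
    by_contra hcon
    push Not at hcon
    apply hy
    exact image_mono (ball_subset_ball hr1.le) (hsub (mem_ball_zero_iff.mpr hcon))
  unfold rho
  apply div_le_div₀ (hm0.le.trans h1) h1 (hm0.trans_le h3) h2

/-- upper bound for the ratio -/
theorem rho_le {f : ℂ → ℂ} (hf : DifferentiableOn ℂ f (ball (0:ℂ) 1))
    (hinj : InjOn f (ball (0:ℂ) 1)) {rb M d : ℝ} (hrb1 : rb < 1)
    (hconv : ∀ r : ℝ, 0 < r → r ≤ 1 → Convex ℝ (f '' ball (0:ℂ) r) → r ≤ rb) (hM0 : 0 ≤ M)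
    (hM : ∀ x : ℝ, 0 < x → x ≤ rb → ‖f (-(x:ℂ))‖ ≤ M) (hd0 : 0 < d)
    (hd : ball (0:ℂ) d ⊆ f '' ball (0:ℂ) 1) : rho f ≤ M / d := by
  have hMd : 0 ≤ M / d := by positivity
  have hnn : ∀ x ∈ ((fun w : ℂ => ‖w‖) '' frontier (f '' ball (0:ℂ) (rc f))), 0 ≤ x := by
    rintro _ ⟨v, -, rfl⟩
    exact norm_nonneg v
  by_cases hS : ({r : ℝ | 0 < r ∧ r ≤ 1 ∧ Convex ℝ (f '' Metric.ball (0:ℂ) r)} : Set ℝ).Nonempty
  swap
  · rw [not_nonempty_iff_eq_empty] at hS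
    unfold rho
    have : rc f = 0 := by unfold rc; rw [hS, Real.sSup_empty]
    rw [this, ball_zero, image_empty, frontier_empty, image_empty, Real.sInf_empty, zero_div]
    exact hMd
  have hr0 : 0 < rc f := by
    obtain ⟨r, hr⟩ := hS
    exact hr.1.trans_le (le_rc hr.1 hr.2.1 hr.2.2)
  have hrb : rc f ≤ rb := csSup_le hS fun r hr => hconv r hr.1 hr.2.1 hr.2.2
  have hr1 : rc f < 1 := hrb.trans_lt hrb1
  have hopen : IsOpen (f '' ball (0:ℂ) (rc f)) :=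
    isOpen_image hf hinj (ball_subset_ball (rc_le_one f)) isOpen_ball
  have hz : (-(rc f : ℂ)) ∈ ball (0:ℂ) 1 := by
    rw [mem_ball_zero_iff, norm_neg, Complex.norm_real, Real.norm_of_nonneg hr0.le]
    exact hr1
  have hfr : f (-(rc f : ℂ)) ∈ frontier (f '' ball (0:ℂ) (rc f)) := by
    rw [hopen.frontier_eq]
    constructor
    · have hcont : ContinuousWithinAt f (ball (0:ℂ) (rc f)) (-(rc f : ℂ)) :=
        ((hf.differentiableAt (isOpen_ball.mem_nhds hz)).continuousAt).continuousWithinAt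
      apply hcont.mem_closure_image
      rw [closure_ball (0:ℂ) hr0.ne', mem_closedBall_zero_iff, norm_neg, Complex.norm_real,
        Real.norm_of_nonneg hr0.le]
    · rintro ⟨z, hz1, hz2⟩
      have h1 := hinj (ball_subset_ball hr1.le hz1) hz hz2
      rw [h1, mem_ball_zero_iff, norm_neg, Complex.norm_real, Real.norm_of_nonneg hr0.le] at hz1
      exact lt_irrefl _ hz1
  have h1 : sInf ((fun w : ℂ => ‖w‖) '' frontier (f '' ball (0:ℂ) (rc f))) ≤ M :=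
    (csInf_le ⟨0, fun x hx => hnn x hx⟩ ⟨_, hfr, rfl⟩).trans (hM _ hr0 hrb)
  have h2 : 0 ≤ sInf ((fun w : ℂ => ‖w‖) '' frontier (f '' ball (0:ℂ) (rc f))) :=
    Real.sInf_nonneg hnn
  unfold rho
  rcases ((f '' ball (0:ℂ) 1)ᶜ).eq_empty_or_nonempty with he | hne
  · rw [he, infDist_empty, div_zero]
    exact hMd
  · have h3 : d ≤ infDist (0:ℂ) (f '' ball (0:ℂ) 1)ᶜ := by
      rw [le_infDist hne]
      intro y hy
      rw [dist_zero_left]
      by_contra hcon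
      push Not at hcon
      exact hy (hd (mem_ball_zero_iff.mpr hcon))
    exact div_le_div₀ hM0 h1 hd0 h3

theorem rho_nonneg (f : ℂ → ℂ) : 0 ≤ rho f := by
  unfold rho
  apply div_nonneg
  · apply Real.sInf_nonneg
    rintro _ ⟨v, -, rfl⟩
    exact norm_nonneg v
  · exact infDist_nonneg

end Pool.Agent.Helper968.Schild
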