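import Mathlib
import Pool.Agent.Helper968.Schild.General

/-!
Nonconvexity criterion through the Schwarz lemma.
-/

namespace Pool.Agent.Helper968.Schild

open Metric Set Filter Topology

/-- If `f` is univalent, real on the reals and increasing there and `f (Δ_r)` is convex then
`Re f (ρ e^{it}) ≤ f ρ` for `ρ < r`. -/
theorem re_le_of_convex {f : ℂ → ℂ} (hf : DifferentiableOn ℂ f (ball (0:ℂ) 1))
    (hinj : InjOn f (ball (0:ℂ) 1)) (h0 : f 0 = 0) (hd : ∀ z ∈ ball (0:ℂ) 1, deriv f z ≠ 0)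
    (hconj : ∀ z ∈ ball (0:ℂ) 1, f ((starRingEnd ℂ) z) = (starRingEnd ℂ) (f z))
    (hmono : ∀ x y : ℝ, -1 < x → x ≤ y → y < 1 → (f x).re ≤ (f y).re)
    {r ρ : ℝ} (hρ0 : 0 < ρ) (hρr : ρ < r) (hr1 : r ≤ 1) (hconv : Convex ℝ (f '' ball (0:ℂ) r))
    (t : ℝ) : (f (ρ * Complex.exp (t * Complex.I))).re ≤ (f ρ).re := by
  have hsub : ball (0:ℂ) r ⊆ ball (0:ℂ) 1 := ball_subset_ball hr1
  have hinjr : InjOn f (ball (0:ℂ) r) := hinj.mono hsub
  have hr0 : 0 < r := hρ0.trans hρr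
  set inv := Function.invFunOn f (ball (0:ℂ) r) with hinv
  have hinv1 : ∀ w ∈ f '' ball (0:ℂ) r, inv w ∈ ball (0:ℂ) r := fun w hw =>
    Function.invFunOn_mem hw
  have hinv2 : ∀ w ∈ f '' ball (0:ℂ) r, f (inv w) = w := fun w hw =>
    Function.invFunOn_eq hw
  have hinv3 : ∀ z ∈ ball (0:ℂ) r, inv (f z) = z := by
    intro z hz
    exact hinjr (hinv1 _ ⟨z, hz, rfl⟩) hz (hinv2 _ ⟨z, hz, rfl⟩)
  have hUo : IsOpen (f '' ball (0:ℂ) r) := isOpen_image hf hinj hsub isOpen_ball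
  have hcont : ∀ w ∈ f '' ball (0:ℂ) r, ContinuousAt inv w := by
    intro w hw
    rw [ContinuousAt, _root_.tendsto_nhds]
    intro s hs hws
    have h1 : IsOpen (f '' (s ∩ ball (0:ℂ) r)) :=
      isOpen_image hf hinj (inter_subset_right.trans hsub) (hs.inter isOpen_ball)
    have h2 : w ∈ f '' (s ∩ ball (0:ℂ) r) := ⟨inv w, ⟨hws, hinv1 w hw⟩, hinv2 w hw⟩
    filter_upwards [h1.mem_nhds h2] with v hv
    obtain ⟨z, hz, rfl⟩ := hv
    rw [mem_preimage, hinv3 z hz.2]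
    exact hz.1
  have hdiff : ∀ w ∈ f '' ball (0:ℂ) r, DifferentiableAt ℂ inv w := by
    intro w hw
    have hz := hsub (hinv1 w hw)
    have h1 : HasDerivAt f (deriv f (inv w)) (inv w) :=
      (hf.differentiableAt (isOpen_ball.mem_nhds hz)).hasDerivAt
    have h2 := HasDerivAt.of_local_left_inverse (hcont w hw) h1 (hd _ hz) (by
      filter_upwards [hUo.mem_nhds hw] with v hv
      exact hinv2 v hv)
    exact h2.differentiableAt
  -- rotation
  set c : ℂ := Complex.exp (t * Complex.I) with hc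
  have hcn : ‖c‖ = 1 := Complex.norm_exp_ofReal_mul_I t
  set c' : ℂ := (starRingEnd ℂ) c with hc'
  have hcn' : ‖c'‖ = 1 := by rw [hc', Complex.norm_conj, hcn]
  have hrot : ∀ e : ℂ, ‖e‖ = 1 → ∀ z ∈ ball (0:ℂ) r, e * z ∈ ball (0:ℂ) r := by
    intro e he z hz
    rw [mem_ball_zero_iff] at hz ⊢
    rw [norm_mul, he, one_mul]
    exact hz
  set g : ℂ → ℂ := fun z => (1/2 : ℝ) • f (c * z) + (1/2 : ℝ) • f (c' * z) with hg
  have hgm : ∀ z ∈ ball (0:ℂ) r, g z ∈ f '' ball (0:ℂ) r := by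
    intro z hz
    exact hconv ⟨_, hrot c hcn z hz, rfl⟩ ⟨_, hrot c' hcn' z hz, rfl⟩ (by norm_num) (by norm_num)
      (by norm_num)
  have hgd : ∀ z ∈ ball (0:ℂ) r, DifferentiableAt ℂ g z := by
    intro z hz
    have key : ∀ e : ℂ, ‖e‖ = 1 → DifferentiableAt ℂ (fun z => f (e * z)) z := by
      intro e he
      have h1 : DifferentiableAt ℂ f (e * z) :=
        hf.differentiableAt (isOpen_ball.mem_nhds (hsub (hrot e he z hz)))
      exact DifferentiableAt.comp (g := f) z h1 (by fun_prop)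
    exact ((key c hcn).const_smul (1/2 : ℝ)).add ((key c' hcn').const_smul (1/2 : ℝ))
  set ω : ℂ → ℂ := fun z => inv (g z) with hω
  have hωd : DifferentiableOn ℂ ω (ball (0:ℂ) r) := by
    intro z hz
    exact (DifferentiableAt.comp (g := inv) z (hdiff _ (hgm z hz)) (hgd z hz)).differentiableWithinAt
  have hωm : MapsTo ω (ball (0:ℂ) r) (ball (0:ℂ) r) := fun z hz => hinv1 _ (hgm z hz)
  have hω0 : ω 0 = 0 := by
    have h1 : g 0 = f 0 := by
      rw [hg]
      simp [h0]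
    rw [hω]
    simp only
    rw [h1]
    exact hinv3 0 (by simpa using hr0)
  have hρn : ‖(ρ:ℂ)‖ = ρ := by rw [Complex.norm_real, Real.norm_of_nonneg hρ0.le]
  have hρb : (ρ:ℂ) ∈ ball (0:ℂ) r := by rw [mem_ball_zero_iff, hρn]; exact hρr
  have hschw : ‖ω ρ‖ ≤ ‖(ρ:ℂ)‖ := by
    exact Complex.norm_le_norm_of_mapsTo_ball hωd (fun z hz => ball_subset_closedBall (hωm hz)) hω0
      (by rw [hρn]; exact hρr)
  rw [hρn] at hschw
  have hωb : ω ρ ∈ ball (0:ℂ) r := hωm hρb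
  have hfω : f (ω ρ) = g ρ := hinv2 _ (hgm _ hρb)
  have hzz : c' * ρ = (starRingEnd ℂ) (c * ρ) := by
    rw [map_mul, Complex.conj_ofReal]
  have hgρ : g ρ = ((f (c * ρ)).re : ℂ) := by
    rw [hg]
    simp only
    rw [hzz, hconj _ (hsub (hrot c hcn _ hρb))]
    apply Complex.ext
    · simp; ring
    · simp
  have hωconj : (starRingEnd ℂ) (ω ρ) = ω ρ := by
    apply hinjr
    · rw [mem_ball_zero_iff, Complex.norm_conj]
      exact mem_ball_zero_iff.mp hωb
    · exact hωb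
    · rw [hconj _ (hsub hωb), hfω, hgρ, Complex.conj_ofReal]
  obtain ⟨y, hy⟩ := Complex.conj_eq_iff_real.mp hωconj
  have h1 : (f (c * ρ)).re = (f y).re := by
    rw [← hy, hfω, hgρ, Complex.ofReal_re]
  have hyρ : |y| ≤ ρ := by
    rw [hy, Complex.norm_real] at hschw
    exact hschw
  rw [abs_le] at hyρ
  have h2 := hmono y ρ (by linarith) hyρ.2 (by linarith)
  rw [mul_comm, h1]
  exact h2

/-- `u'' (0) > 0` and `u' (0) = 0` exclude a global maximum at `0`. -/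
theorem exists_gt_of_deriv2 {u : ℝ → ℝ} (h1 : deriv u 0 = 0) (h2 : 0 < deriv (deriv u) 0)
    (hc : ContinuousAt u 0) : ∃ t, u 0 < u t := by
  by_contra hcon
  push Not at hcon
  have hmin := isLocalMin_of_deriv_deriv_pos h2 h1 hc
  have heq : u =ᶠ[𝓝 0] fun _ => u 0 := by
    filter_upwards [hmin] with t ht
    exact le_antisymm (hcon t) ht
  have h3 : deriv u =ᶠ[𝓝 0] deriv (fun _ : ℝ => u 0) := heq.deriv
  have h4 := h3.deriv_eq
  simp at h4
  linarith

end Pool.Agent.Helper968.Schild
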