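import Mathlib
import Pool.Agent.Helper968.Schild.General
import Pool.Agent.Helper968.Schild.Starlike
import Pool.Agent.Helper968.Schild.Inverse

/-!
The starlike functions `z ∏ (1 - 2 x_j z + z²)^{-m_j}`.
-/

namespace Pool.Agent.Helper968.Schild

open Metric Set Filter Topology

/-- the quadratic factor -/
noncomputable def TT (x : ℝ) (z : ℂ) : ℂ := 1 - 2 * x * z + z ^ 2

theorem nsq_lt {z : ℂ} (hz : ‖z‖ < 1) : z.re ^ 2 + z.im ^ 2 < 1 := by
  have h1 := Complex.sq_norm z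
  rw [Complex.normSq_apply] at h1
  have h2 : ‖z‖ ^ 2 < 1 := by
    have := norm_nonneg z
    nlinarith
  nlinarith

theorem TT_re (x : ℝ) (z : ℂ) : (TT x z).re = 1 - 2 * x * z.re + z.re ^ 2 - z.im ^ 2 := by
  unfold TT
  simp [sq, Complex.mul_re, Complex.mul_im]
  ring

theorem TT_im (x : ℝ) (z : ℂ) : (TT x z).im = 2 * z.im * (z.re - x) := by
  unfold TT
  simp [sq, Complex.mul_re, Complex.mul_im]
  ring

theorem TT_slit {x : ℝ} (h1 : -1 ≤ x) (h2 : x ≤ 1) {z : ℂ} (hz : ‖z‖ < 1) :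
    TT x z ∈ Complex.slitPlane := by
  have hn := nsq_lt hz
  rw [Complex.mem_slitPlane_iff]
  by_contra hcon
  push Not at hcon
  obtain ⟨h3, h4⟩ := hcon
  rw [TT_re] at h3
  rw [TT_im] at h4
  have h5 : z.im = 0 ∨ z.re - x = 0 := by
    rcases mul_eq_zero.mp h4 with h | h
    · left; linarith
    · right; exact h
  rcases h5 with h | h
  · rw [h] at h3 hn
    have h6 : (z.re - x) ^ 2 + (1 - x ^ 2) ≤ 0 := by nlinarith
    have h7 : 0 ≤ 1 - x ^ 2 := by nlinarith
    have h8 : (z.re - x) ^ 2 = 0 := by nlinarith [sq_nonneg (z.re - x)]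
    have h9 : z.re - x = 0 := by simpa using h8
    have h10 : x ^ 2 = 1 := by nlinarith
    have h11 : z.re = x := by linarith
    rw [h11] at hn
    nlinarith
  · have h9 : z.re = x := by linarith
    rw [h9] at h3 hn
    nlinarith

theorem TT_ne {x : ℝ} (h1 : -1 ≤ x) (h2 : x ≤ 1) {z : ℂ} (hz : ‖z‖ < 1) : TT x z ≠ 0 :=
  Complex.slitPlane_ne_zero (TT_slit h1 h2 hz)

theorem TT_re_pos {x : ℝ} (h1 : -1 ≤ x) (h2 : x ≤ 1) {z : ℂ} (hz : ‖z‖ < 1) :
    0 < ((1 - z ^ 2) / TT x z).re := by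
  have hn := nsq_lt hz
  have hT := TT_ne h1 h2 hz
  have hns : 0 < Complex.normSq (TT x z) := Complex.normSq_pos.mpr hT
  have e : ((1 - z ^ 2) / TT x z).re = ((1 - (z.re ^ 2 + z.im ^ 2)) *
      (1 + (z.re ^ 2 + z.im ^ 2) - 2 * x * z.re)) / Complex.normSq (TT x z) := by
    rw [Complex.div_re, TT_re, TT_im]
    have e1 : (1 - z ^ 2).re = 1 - z.re ^ 2 + z.im ^ 2 := by
      simp [sq, Complex.mul_re]; ring
    have e2 : (1 - z ^ 2).im = -(2 * z.re * z.im) := by
      simp [sq, Complex.mul_im]; ring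
    rw [e1, e2]
    field_simp
    ring
  rw [e]
  apply div_pos _ hns
  apply mul_pos (by linarith)
  nlinarith [sq_nonneg (z.re - x), sq_nonneg (z.re + x), sq_nonneg (z.re - 1), sq_nonneg (z.re + 1),
    sq_nonneg z.im]

theorem TT_conj (x : ℝ) (z : ℂ) : TT x ((starRingEnd ℂ) z) = (starRingEnd ℂ) (TT x z) := by
  unfold TT
  rw [map_add, map_sub, map_mul, map_mul, map_pow, map_one, Complex.conj_ofReal, map_ofNat]

theorem hasDerivAt_TT (x : ℝ) (z : ℂ) : HasDerivAt (TT x) (2 * z - 2 * x) z := by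
  unfold TT
  have h1 : HasDerivAt (fun z : ℂ => 1 - 2 * (x:ℂ) * z) (-(2 * x)) z := by
    have := ((hasDerivAt_id z).const_mul (2 * (x:ℂ))).const_sub 1
    simpa using this
  have h2 : HasDerivAt (fun z : ℂ => z ^ 2) (2 * z) z := by
    have := hasDerivAt_pow 2 z
    simpa using this
  have h3 := h1.add h2
  have e : -(2 * (x:ℂ)) + 2 * z = 2 * z - 2 * x := by ring
  rw [e] at h3
  exact h3

section fam

variable {ι : Type*} [Fintype ι]

/-- the exponent -/
noncomputable def eh (x : ι → ℝ) (m : ι → ℝ) (z : ℂ) : ℂ :=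
  -∑ j, (m j : ℂ) * Complex.log (TT (x j) z)

/-- `z f'/f` -/
noncomputable def eP (x : ι → ℝ) (m : ι → ℝ) (z : ℂ) : ℂ :=
  ∑ j, (m j : ℂ) * ((1 - z ^ 2) / TT (x j) z)

/-- derivative of `z f'/f` -/
noncomputable def eP' (x : ι → ℝ) (m : ι → ℝ) (z : ℂ) : ℂ :=
  ∑ j, (m j : ℂ) * ((2 * (x j) * (1 + z ^ 2) - 4 * z) / TT (x j) z ^ 2)

/-- the function -/
noncomputable def ef (x : ι → ℝ) (m : ι → ℝ) (z : ℂ) : ℂ := z * Complex.exp (eh x m z)

/-- hypotheses on the parameters -/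
structure Par (x m : ι → ℝ) : Prop where
  h1 : ∀ j, -1 ≤ x j
  h2 : ∀ j, x j ≤ 1
  m0 : ∀ j, 0 < m j
  ms : ∑ j, m j = 1

variable {x m : ι → ℝ}

theorem Par.hasDerivAt_eh (h : Par x m) {z : ℂ} (hz : ‖z‖ < 1) :
    HasDerivAt (eh x m) (-∑ j, (m j : ℂ) * ((2 * z - 2 * x j) / TT (x j) z)) z := by
  unfold eh
  apply HasDerivAt.neg
  apply HasDerivAt.fun_sum
  intro j _
  exact ((hasDerivAt_TT (x j) z).clog (TT_slit (h.h1 j) (h.h2 j) hz)).const_mul _

theorem Par.diff_eh (h : Par x m) : DifferentiableOn ℂ (eh x m) (ball (0:ℂ) 1) :=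
  fun _ hz => (h.hasDerivAt_eh (mem_ball_zero_iff.mp hz)).differentiableAt.differentiableWithinAt

theorem Par.zeh (h : Par x m) {z : ℂ} (hz : ‖z‖ < 1) :
    1 + z * deriv (eh x m) z = eP x m z := by
  rw [(h.hasDerivAt_eh hz).deriv]
  unfold eP
  have hms : (∑ j, (m j : ℂ)) = 1 := by
    have := congrArg (fun t : ℝ => (t:ℂ)) h.ms
    push_cast at this
    exact this
  conv_lhs => rw [← hms]
  rw [mul_neg, Finset.mul_sum, ← sub_eq_add_neg, ← Finset.sum_sub_distrib]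
  apply Finset.sum_congr rfl
  intro j _
  have hT := TT_ne (h.h1 j) (h.h2 j) hz
  field_simp
  unfold TT
  ring

theorem Par.eP_re (h : Par x m) {z : ℂ} (hz : ‖z‖ < 1) : 0 < (eP x m z).re := by
  unfold eP
  rw [Complex.re_sum]
  apply Finset.sum_pos
  · intro j _
    rw [Complex.re_ofReal_mul]
    exact mul_pos (h.m0 j) (TT_re_pos (h.h1 j) (h.h2 j) hz)
  · by_contra hcon
    rw [Finset.not_nonempty_iff_eq_empty] at hcon
    have := h.ms
    rw [hcon] at this
    simp at this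

theorem Par.eP_ne (h : Par x m) {z : ℂ} (hz : ‖z‖ < 1) : eP x m z ≠ 0 := by
  intro h0
  have := h.eP_re hz
  rw [h0] at this
  simp at this

theorem Par.starlike (h : Par x m) : InjOn (ef x m) (ball (0:ℂ) 1) ∧
    StarConvex ℝ (0:ℂ) (ef x m '' ball (0:ℂ) 1) := by
  apply starlike_of_pos h.diff_eh
  intro z hz
  have hz' := mem_ball_zero_iff.mp hz
  rw [h.zeh hz']
  exact h.eP_re hz'

theorem Par.hasDerivAt_ef (h : Par x m) {z : ℂ} (hz : ‖z‖ < 1) :
    HasDerivAt (ef x m) (Complex.exp (eh x m z) * eP x m z) z := by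
  have := starlike_aux_hasDeriv h.diff_eh z (mem_ball_zero_iff.mpr hz)
  rw [h.zeh hz] at this
  exact this

theorem Par.diff_ef (h : Par x m) : DifferentiableOn ℂ (ef x m) (ball (0:ℂ) 1) :=
  fun _ hz => (h.hasDerivAt_ef (mem_ball_zero_iff.mp hz)).differentiableAt.differentiableWithinAt

theorem ef_zero (x m : ι → ℝ) : ef x m 0 = 0 := by
  unfold ef; rw [zero_mul]

theorem eh_zero (x m : ι → ℝ) : eh x m 0 = 0 := by
  unfold eh TT
  simp

theorem Par.eP_zero (h : Par x m) : eP x m 0 = 1 := by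
  have h1 := h.zeh (z := 0) (by simp)
  rw [← h1, zero_mul, add_zero]

theorem Par.deriv_ef_zero (h : Par x m) : deriv (ef x m) 0 = 1 := by
  rw [(h.hasDerivAt_ef (z := 0) (by simp)).deriv, eh_zero, h.eP_zero, Complex.exp_zero, mul_one]

theorem Par.deriv_ef_ne (h : Par x m) {z : ℂ} (hz : ‖z‖ < 1) : deriv (ef x m) z ≠ 0 := by
  rw [(h.hasDerivAt_ef hz).deriv]
  exact mul_ne_zero (Complex.exp_ne_zero _) (h.eP_ne hz)

theorem Par.eh_conj (h : Par x m) {z : ℂ} (hz : ‖z‖ < 1) :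
    eh x m ((starRingEnd ℂ) z) = (starRingEnd ℂ) (eh x m z) := by
  unfold eh
  rw [map_neg, map_sum]
  congr 1
  apply Finset.sum_congr rfl
  intro j _
  rw [map_mul, Complex.conj_ofReal, TT_conj, Complex.log_conj]
  exact Complex.slitPlane_arg_ne_pi (TT_slit (h.h1 j) (h.h2 j) hz)

theorem Par.ef_conj (h : Par x m) {z : ℂ} (hz : ‖z‖ < 1) :
    ef x m ((starRingEnd ℂ) z) = (starRingEnd ℂ) (ef x m z) := by
  unfold ef
  rw [map_mul, h.eh_conj hz, ← Complex.exp_conj]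

/-- `eh` is real on the reals -/
theorem Par.eh_real (h : Par x m) {y : ℝ} (hy : ‖(y:ℂ)‖ < 1) :
    ((eh x m y).re : ℂ) = eh x m y := by
  have h1 := h.eh_conj hy
  rw [Complex.conj_ofReal] at h1
  exact Complex.conj_eq_iff_re.mp h1.symm

/-- the real value of `z f'/f` -/
noncomputable def rP (x : ι → ℝ) (m : ι → ℝ) (y : ℝ) : ℝ :=
  ∑ j, m j * ((1 - y ^ 2) / (1 - 2 * x j * y + y ^ 2))

/-- the real value of the derivative of `z f'/f` -/
noncomputable def rP' (x : ι → ℝ) (m : ι → ℝ) (y : ℝ) : ℝ :=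
  ∑ j, m j * ((2 * x j * (1 + y ^ 2) - 4 * y) / (1 - 2 * x j * y + y ^ 2) ^ 2)

theorem eP_real (x m : ι → ℝ) (y : ℝ) : eP x m (y:ℂ) = (rP x m y : ℂ) := by
  unfold eP rP TT
  push_cast
  rfl

theorem eP'_real (x m : ι → ℝ) (y : ℝ) : eP' x m (y:ℂ) = (rP' x m y : ℂ) := by
  unfold eP' rP' TT
  push_cast
  rfl

theorem Par.hasDerivAt_eP (h : Par x m) {z : ℂ} (hz : ‖z‖ < 1) :
    HasDerivAt (eP x m) (eP' x m z) z := by
  unfold eP eP'
  apply HasDerivAt.fun_sum
  intro j _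
  have hT := TT_ne (h.h1 j) (h.h2 j) hz
  have h1 : HasDerivAt (fun z : ℂ => 1 - z ^ 2) (-(2 * z)) z := by
    have := (hasDerivAt_pow 2 z).const_sub 1
    simpa using this
  have h2 := (h1.div (hasDerivAt_TT (x j) z) hT).const_mul (m j : ℂ)
  have e : (-(2 * z) * TT (x j) z - (1 - z ^ 2) * (2 * z - 2 * x j)) / TT (x j) z ^ 2
      = (2 * (x j) * (1 + z ^ 2) - 4 * z) / TT (x j) z ^ 2 := by
    congr 1
    unfold TT
    ring
  rw [e] at h2
  exact h2

theorem Par.re_deriv_real (h : Par x m) {y : ℝ} (hy : ‖(y:ℂ)‖ < 1) :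
    deriv (ef x m) y = ((Real.exp (eh x m y).re * rP x m y : ℝ) : ℂ) := by
  rw [(h.hasDerivAt_ef hy).deriv, ← h.eh_real hy, eP_real]
  push_cast
  rw [Complex.ofReal_re]

theorem Par.rP_pos (h : Par x m) {y : ℝ} (hy : ‖(y:ℂ)‖ < 1) : 0 < rP x m y := by
  have := h.eP_re hy
  rw [eP_real, Complex.ofReal_re] at this
  exact this

theorem norm_real_lt {y : ℝ} (h1 : -1 < y) (h2 : y < 1) : ‖(y:ℂ)‖ < 1 := by
  rw [Complex.norm_real, Real.norm_eq_abs, abs_lt]
  exact ⟨h1, h2⟩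

theorem Par.mono (h : Par x m) (y1 y2 : ℝ) (h1 : -1 < y1) (h12 : y1 ≤ y2) (h2 : y2 < 1) :
    (ef x m y1).re ≤ (ef x m y2).re := by
  have hder : ∀ y ∈ Icc y1 y2, HasDerivAt (fun y : ℝ => (ef x m y).re)
      (Real.exp (eh x m y).re * rP x m y) y := by
    intro y hy
    have hy' : ‖(y:ℂ)‖ < 1 := norm_real_lt (by linarith [hy.1]) (by linarith [hy.2])
    have h3 : HasDerivAt (ef x m) (deriv (ef x m) y) (y:ℂ) :=
      (h.hasDerivAt_ef hy').differentiableAt.hasDerivAt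
    have h4 := h3.real_of_complex
    rw [h.re_deriv_real hy', Complex.ofReal_re] at h4
    exact h4
  have hm : MonotoneOn (fun y : ℝ => (ef x m y).re) (Icc y1 y2) := by
    apply monotoneOn_of_deriv_nonneg (convex_Icc y1 y2)
    · intro y hy
      exact (hder y hy).continuousAt.continuousWithinAt
    · intro y hy
      exact (hder y (interior_subset hy)).differentiableAt.differentiableWithinAt
    · intro y hy
      have hy2 := interior_subset hy
      rw [(hder y hy2).deriv]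
      have hy' : ‖(y:ℂ)‖ < 1 := norm_real_lt (by linarith [hy2.1]) (by linarith [hy2.2])
      exact mul_nonneg (Real.exp_pos _).le (h.rP_pos hy').le
  exact hm ⟨le_refl _, h12⟩ ⟨h12, le_refl _⟩ h12

/-- nonconvexity of the images of discs larger than `ρ` -/
theorem Par.not_convex (h : Par x m) {ρ : ℝ} (hρ0 : 0 < ρ) (hρ1 : ρ < 1)
    (hneg : rP x m ρ ^ 2 + ρ * rP' x m ρ < 0) {r : ℝ} (hr0 : ρ < r) (hr1 : r ≤ 1)
    (hconv : Convex ℝ (ef x m '' ball (0:ℂ) r)) : False := by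
  have hle := re_le_of_convex h.diff_ef h.starlike.1 (ef_zero x m)
    (fun z hz => h.deriv_ef_ne (mem_ball_zero_iff.mp hz))
    (fun z hz => h.ef_conj (mem_ball_zero_iff.mp hz)) h.mono hρ0 hr0 hr1 hconv
  set u : ℝ → ℝ := fun t => (ef x m (ρ * Complex.exp (t * Complex.I))).re with hu
  have hnorm : ∀ t : ℝ, ‖(ρ:ℂ) * Complex.exp (t * Complex.I)‖ < 1 := by
    intro t
    rw [norm_mul, Complex.norm_exp_ofReal_mul_I, Complex.norm_real, Real.norm_of_nonneg hρ0.le,
      mul_one]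
    exact hρ1
  have hrot : ∀ t : ℝ, HasDerivAt (fun t : ℝ => (ρ : ℂ) * Complex.exp ((t:ℂ) * Complex.I))
      ((ρ : ℂ) * Complex.exp ((t:ℂ) * Complex.I) * Complex.I) t := by
    intro t
    have h3 : HasDerivAt (fun t : ℝ => (t:ℂ) * Complex.I) (1 * Complex.I) t :=
      (Complex.ofRealCLM.hasDerivAt (x := t)).mul_const Complex.I
    have h4 := h3.cexp.const_mul (ρ:ℂ)
    have e : (ρ : ℂ) * Complex.exp ((t:ℂ) * Complex.I) * Complex.I
        = (ρ:ℂ) * (Complex.exp (t * Complex.I) * (1 * Complex.I)) := by ring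
    rw [e]
    exact h4
  -- first derivative
  have hd1 : ∀ t : ℝ, HasDerivAt u
      (-(ef x m (ρ * Complex.exp (t * Complex.I)) * eP x m (ρ * Complex.exp (t * Complex.I))).im)
      t := by
    intro t
    have h5 : HasDerivAt (fun t : ℝ => ef x m (ρ * Complex.exp (t * Complex.I)))
        (Complex.exp (eh x m (ρ * Complex.exp (t * Complex.I))) *
          eP x m (ρ * Complex.exp (t * Complex.I)) *
          ((ρ : ℂ) * Complex.exp ((t:ℂ) * Complex.I) * Complex.I)) t :=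
      HasDerivAt.comp (h₂ := ef x m) t (h.hasDerivAt_ef (hnorm t)) (hrot t)
    have h6 := Complex.reCLM.hasFDerivAt.comp_hasDerivAt t h5
    have h7 : Complex.reCLM (Complex.exp (eh x m (ρ * Complex.exp (t * Complex.I))) *
          eP x m (ρ * Complex.exp (t * Complex.I)) *
          ((ρ : ℂ) * Complex.exp ((t:ℂ) * Complex.I) * Complex.I)) =
        -(ef x m (ρ * Complex.exp (t * Complex.I)) *
          eP x m (ρ * Complex.exp (t * Complex.I))).im := by
      have e : Complex.exp (eh x m (ρ * Complex.exp (t * Complex.I))) *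
          eP x m (ρ * Complex.exp (t * Complex.I)) *
          ((ρ : ℂ) * Complex.exp ((t:ℂ) * Complex.I) * Complex.I)
          = (ef x m (ρ * Complex.exp (t * Complex.I)) *
          eP x m (ρ * Complex.exp (t * Complex.I))) * Complex.I := by
        unfold ef; ring
      rw [e, Complex.reCLM_apply, Complex.mul_I_re]
    rw [h7] at h6
    exact h6
  have hdu : deriv u = fun t : ℝ =>
      -(ef x m (ρ * Complex.exp (t * Complex.I)) * eP x m (ρ * Complex.exp (t * Complex.I))).im :=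
    funext fun t => (hd1 t).deriv
  have e0 : (ρ:ℂ) * Complex.exp (((0:ℝ):ℂ) * Complex.I) = ρ := by simp
  have hρn : ‖(ρ:ℂ)‖ < 1 := norm_real_lt (by linarith) hρ1
  have hefr : ef x m ρ = ((ρ * Real.exp (eh x m ρ).re : ℝ) : ℂ) := by
    unfold ef
    rw [← h.eh_real hρn]
    push_cast
    rw [Complex.ofReal_re]
  -- second derivative
  have hd2 : HasDerivAt (deriv u)
      (-(ρ * Real.exp (eh x m ρ).re * (rP x m ρ ^ 2 + ρ * rP' x m ρ))) 0 := by
    rw [hdu]
    have h8 : HasDerivAt (fun z => ef x m z * eP x m z)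
        (Complex.exp (eh x m ρ) * eP x m ρ * eP x m ρ + ef x m ρ * eP' x m ρ) (ρ:ℂ) :=
      (h.hasDerivAt_ef hρn).mul (h.hasDerivAt_eP hρn)
    have h9 : HasDerivAt (fun z => ef x m z * eP x m z)
        (Complex.exp (eh x m ρ) * eP x m ρ * eP x m ρ + ef x m ρ * eP' x m ρ)
        ((ρ:ℂ) * Complex.exp (((0:ℝ):ℂ) * Complex.I)) := by rw [e0]; exact h8
    have h10 : HasDerivAt (fun t : ℝ => ef x m (ρ * Complex.exp (t * Complex.I)) *
        eP x m (ρ * Complex.exp (t * Complex.I)))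
        ((Complex.exp (eh x m ρ) * eP x m ρ * eP x m ρ + ef x m ρ * eP' x m ρ) *
        ((ρ : ℂ) * Complex.exp (((0:ℝ):ℂ) * Complex.I) * Complex.I)) 0 :=
      HasDerivAt.comp (h₂ := fun z => ef x m z * eP x m z) 0 h9 (hrot 0)
    have h11 := (Complex.imCLM.hasFDerivAt.comp_hasDerivAt 0 h10).neg
    have h12 : Complex.imCLM ((Complex.exp (eh x m ρ) * eP x m ρ * eP x m ρ +
        ef x m ρ * eP' x m ρ) *
        ((ρ : ℂ) * Complex.exp (((0:ℝ):ℂ) * Complex.I) * Complex.I)) =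
        ρ * Real.exp (eh x m ρ).re * (rP x m ρ ^ 2 + ρ * rP' x m ρ) := by
      have hE : Complex.exp (eh x m ρ) = ((Real.exp (eh x m ρ).re : ℝ) : ℂ) := by
        rw [Complex.ofReal_exp, h.eh_real hρn]
      rw [e0, hefr, hE, eP_real, eP'_real]
      have e : (((Real.exp (eh x m ρ).re : ℝ) : ℂ) * (rP x m ρ : ℂ) * (rP x m ρ : ℂ) +
          ((ρ * Real.exp (eh x m ρ).re : ℝ) : ℂ) * (rP' x m ρ : ℂ)) * ((ρ:ℂ) * Complex.I)
          = ((ρ * Real.exp (eh x m ρ).re * (rP x m ρ ^ 2 + ρ * rP' x m ρ) : ℝ) : ℂ) * Complex.I := by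
        push_cast
        ring
      rw [e, Complex.imCLM_apply, Complex.mul_I_im, Complex.ofReal_re]
    rw [h12] at h11
    exact h11
  have hpos : 0 < deriv (deriv u) 0 := by
    rw [hd2.deriv]
    have := Real.exp_pos (eh x m ρ).re
    have h13 : 0 < ρ * Real.exp (eh x m ρ).re := mul_pos hρ0 this
    nlinarith
  have hzero : deriv u 0 = 0 := by
    rw [hdu]
    simp only
    rw [e0, hefr, eP_real, ← Complex.ofReal_mul, Complex.ofReal_im, neg_zero]
  obtain ⟨t, ht⟩ := exists_gt_of_deriv2 hzero hpos (hd1 0).continuousAt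
  have h14 := hle t
  rw [hu] at ht
  simp only at ht
  rw [e0] at ht
  linarith

end fam

end Pool.Agent.Helper968.Schild
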