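import Mathlib
import Pool.Agent.Helper968.Schild.Explicit

/-!
Upper bound for the ratio of `z ∏ (1 - 2 x_j z + z²)^{-n_j/N}`.
-/

namespace Pool.Agent.Helper968.Schild

open Metric Set Filter Topology

variable {ι : Type*} [Fintype ι]

theorem TT_circle (x : ℝ) {z : ℂ} (hz : ‖z‖ = 1) : ‖TT x z‖ = 2 * |z.re - x| := by
  have h1 : z * (starRingEnd ℂ) z = 1 := by
    rw [Complex.mul_conj, Complex.normSq_eq_norm_sq, hz]
    norm_num
  have h2 : z + (starRingEnd ℂ) z = ((2 * z.re : ℝ) : ℂ) := Complex.add_conj z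
  have h3 : TT x z = z * ((2 * (z.re - x) : ℝ) : ℂ) := by
    have h4 : ((2 * (z.re - x) : ℝ) : ℂ) = z + (starRingEnd ℂ) z - 2 * x := by
      rw [h2]; push_cast; ring
    rw [h4]
    unfold TT
    linear_combination -h1
  rw [h3, norm_mul, hz, one_mul, Complex.norm_real, Real.norm_eq_abs, abs_mul]
  norm_num

/-- tangent bound for the product on an interval free of the `x_j` -/
theorem prod_tangent (x : ι → ℝ) (n : ι → ℕ) {ξ c : ℝ} (hξ : ∀ j, ξ ≠ x j)
    (hs : ∀ j, 0 ≤ (c - x j) * (ξ - x j)) :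
    ∏ j, (2 * |c - x j|) ^ n j ≤
      (∏ j, (2 * |ξ - x j|) ^ n j) * Real.exp ((c - ξ) * ∑ j, n j / (ξ - x j)) := by
  rw [Finset.mul_sum, Real.exp_sum, ← Finset.prod_mul_distrib]
  apply Finset.prod_le_prod
  · intro j _; positivity
  · intro j _
    have h1 : ξ - x j ≠ 0 := sub_ne_zero.mpr (hξ j)
    have h2 : 0 < |ξ - x j| := abs_pos.mpr h1
    have e : (c - ξ) * (n j / (ξ - x j)) = n j * ((c - x j) / (ξ - x j) - 1) := by
      field_simp
      ring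
    rw [e, Real.exp_nat_mul, ← mul_pow]
    apply pow_le_pow_left₀ (by positivity)
    have h3 : |c - x j| = |ξ - x j| * ((c - x j) / (ξ - x j)) := by
      have h4 : 0 ≤ (c - x j) / (ξ - x j) := by
        have : (c - x j) / (ξ - x j) = ((c - x j) * (ξ - x j)) / (ξ - x j) ^ 2 := by
          field_simp
        rw [this]
        exact div_nonneg (hs j) (sq_nonneg _)
      rw [← abs_of_nonneg h4, abs_div]
      field_simp
    have h5 := Real.add_one_le_exp ((c - x j) / (ξ - x j) - 1)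
    rw [h3, mul_assoc]
    apply mul_le_mul_of_nonneg_left _ (by norm_num)
    apply mul_le_mul_of_nonneg_left _ (abs_nonneg _)
    linarith

theorem prod_interval (x : ι → ℝ) (n : ι → ℕ) {ξ lo hi δ B : ℝ} (hξ : ∀ j, ξ ≠ x j)
    (hlo : ∀ j, 0 ≤ (lo - x j) * (ξ - x j)) (hhi : ∀ j, 0 ≤ (hi - x j) * (ξ - x j))
    (h1 : (lo - ξ) * ∑ j, n j / (ξ - x j) ≤ δ) (h2 : (hi - ξ) * ∑ j, n j / (ξ - x j) ≤ δ)
    (hB : 0 ≤ B) (h3 : ∏ j, (2 * |ξ - x j|) ^ n j ≤ B * (1 - δ)) {c : ℝ}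
    (hc : c ∈ Icc lo hi) :
    ∏ j, (2 * |c - x j|) ^ n j ≤ B := by
  have hs : ∀ j, 0 ≤ (c - x j) * (ξ - x j) := by
    intro j
    rcases le_total 0 (ξ - x j) with h | h
    · have := hlo j
      nlinarith [hc.1]
    · have := hhi j
      nlinarith [hc.2]
  have h4 := prod_tangent x n hξ hs
  have h5 : (c - ξ) * ∑ j, n j / (ξ - x j) ≤ δ := by
    rcases le_total 0 (∑ j, (n j : ℝ) / (ξ - x j)) with h | h
    · nlinarith [hc.2]
    · nlinarith [hc.1]
  have h6 : Real.exp ((c - ξ) * ∑ j, n j / (ξ - x j)) ≤ Real.exp δ := Real.exp_le_exp.mpr h5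
  have h7 : (1 - δ) * Real.exp δ ≤ 1 := by
    have h8 := Real.add_one_le_exp (-δ)
    have h9 : Real.exp (-δ) * Real.exp δ = 1 := by rw [← Real.exp_add]; simp
    have h10 := Real.exp_pos δ
    nlinarith
  have hP : 0 ≤ ∏ j, (2 * |ξ - x j|) ^ n j := Finset.prod_nonneg fun j _ => by positivity
  calc ∏ j, (2 * |c - x j|) ^ n j
      ≤ (∏ j, (2 * |ξ - x j|) ^ n j) * Real.exp ((c - ξ) * ∑ j, n j / (ξ - x j)) := h4
    _ ≤ (∏ j, (2 * |ξ - x j|) ^ n j) * Real.exp δ := mul_le_mul_of_nonneg_left h6 hP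
    _ ≤ (B * (1 - δ)) * Real.exp δ := mul_le_mul_of_nonneg_right h3 (Real.exp_pos _).le
    _ = B * ((1 - δ) * Real.exp δ) := by ring
    _ ≤ B * 1 := mul_le_mul_of_nonneg_left h7 hB
    _ = B := mul_one B

/-- maximum modulus -/
theorem prod_disc (x : ι → ℝ) (n : ι → ℕ) {B : ℝ}
    (hB : ∀ c ∈ Icc (-1:ℝ) 1, ∏ j, (2 * |c - x j|) ^ n j ≤ B) {z : ℂ} (hz : ‖z‖ < 1) :
    ∏ j, ‖TT (x j) z‖ ^ n j ≤ B := by
  have hd : Differentiable ℂ (fun z => ∏ j, TT (x j) z ^ n j) := by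
    apply Differentiable.fun_finsetProd
    intro j _
    have : Differentiable ℂ (TT (x j)) := fun z => (hasDerivAt_TT (x j) z).differentiableAt
    exact this.pow _
  have h1 := Complex.norm_le_of_forall_mem_frontier_norm_le (U := ball (0:ℂ) 1)
    (f := fun z => ∏ j, TT (x j) z ^ n j) (C := B) isBounded_ball hd.diffContOnCl
    (by
      intro w hw
      rw [frontier_ball (0:ℂ) one_ne_zero, mem_sphere_zero_iff_norm] at hw
      simp only [norm_prod, norm_pow]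
      have h2 : ∀ j, ‖TT (x j) w‖ = 2 * |w.re - x j| := fun j => TT_circle (x j) hw
      simp_rw [h2]
      apply hB
      have h3 := Complex.abs_re_le_norm w
      rw [hw, abs_le] at h3
      exact h3) (z := z) (subset_closure (mem_ball_zero_iff.mpr hz))
  simp only [norm_prod, norm_pow] at h1
  exact h1

variable {x m : ι → ℝ}

theorem Par.norm_ef (_h : Par x m) (z : ℂ) :
    ‖ef x m z‖ = ‖z‖ * Real.exp (-∑ j, m j * Real.log ‖TT (x j) z‖) := by
  unfold ef eh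
  rw [norm_mul, Complex.norm_exp, Complex.neg_re, Complex.re_sum]
  have : ∀ j, ((m j : ℂ) * Complex.log (TT (x j) z)).re = m j * Real.log ‖TT (x j) z‖ := by
    intro j
    rw [Complex.re_ofReal_mul, Complex.log_re]
  simp_rw [this]

theorem TT_neg_norm {x y : ℝ} (h1 : -1 ≤ x) (_h2 : x ≤ 1) (hy0 : 0 < y) (hy1 : y < 1) :
    ‖TT x (-(y:ℂ))‖ = 1 + 2 * x * y + y ^ 2 ∧ 0 < 1 + 2 * x * y + y ^ 2 := by
  have hpos : 0 < 1 + 2 * x * y + y ^ 2 := by
    have h3 : 0 < (1 - y) ^ 2 := by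
      have : 0 < 1 - y := by linarith
      positivity
    nlinarith
  refine ⟨?_, hpos⟩
  have : TT x (-(y:ℂ)) = ((1 + 2 * x * y + y ^ 2 : ℝ) : ℂ) := by
    unfold TT; push_cast; ring
  rw [this, Complex.norm_real, Real.norm_of_nonneg hpos.le]

/-- growth on the negative axis -/
theorem Par.norm_neg_le (h : Par x m) {y ρ : ℝ} (hy0 : 0 < y) (hyρ : y ≤ ρ) (hρ1 : ρ < 1) :
    ‖ef x m (-(y:ℂ))‖ ≤
      ρ * Real.exp (-∑ j, m j * Real.log (1 + 2 * x j * ρ + ρ ^ 2)) := by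
  have hρ0 : 0 < ρ := hy0.trans_le hyρ
  have key : ∀ t : ℝ, 0 < t → t * Real.exp (-∑ j, m j * Real.log (1 + 2 * x j * t + t ^ 2)) =
      Real.exp (∑ j, m j * (Real.log t - Real.log (1 + 2 * x j * t + t ^ 2))) := by
    intro t ht
    have e : ∑ j, m j * (Real.log t - Real.log (1 + 2 * x j * t + t ^ 2)) =
        Real.log t + (-∑ j, m j * Real.log (1 + 2 * x j * t + t ^ 2)) := by
      simp_rw [mul_sub]
      rw [Finset.sum_sub_distrib, ← Finset.sum_mul, h.ms, one_mul]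
      ring
    rw [e, Real.exp_add, Real.exp_log ht]
  have e1 : ‖ef x m (-(y:ℂ))‖ =
      y * Real.exp (-∑ j, m j * Real.log (1 + 2 * x j * y + y ^ 2)) := by
    rw [h.norm_ef, norm_neg, Complex.norm_real, Real.norm_of_nonneg hy0.le]
    congr 3
    apply Finset.sum_congr rfl
    intro j _
    rw [(TT_neg_norm (h.h1 j) (h.h2 j) hy0 (by linarith)).1]
  rw [e1, key y hy0, key ρ hρ0]
  apply Real.exp_le_exp.mpr
  apply Finset.sum_le_sum
  intro j _
  apply mul_le_mul_of_nonneg_left _ (h.m0 j).le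
  have hT1 := (TT_neg_norm (h.h1 j) (h.h2 j) hy0 (by linarith)).2
  have hT2 := (TT_neg_norm (h.h1 j) (h.h2 j) hρ0 hρ1).2
  rw [← Real.log_div hy0.ne' hT1.ne', ← Real.log_div hρ0.ne' hT2.ne']
  apply Real.log_le_log (by positivity)
  rw [div_le_div_iff₀ hT1 hT2]
  have h3 : 0 ≤ (ρ - y) * (1 - y * ρ) := by
    apply mul_nonneg (by linarith)
    nlinarith
  nlinarith

/-- the disc covered by the image -/
theorem Par.ball_subset (h : Par x m) {D : ℝ} (hD : 0 < D)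
    (hle : ∀ z : ℂ, ‖z‖ < 1 → ∑ j, m j * Real.log ‖TT (x j) z‖ ≤ Real.log D) :
    ball (0:ℂ) (1 / D) ⊆ ef x m '' ball (0:ℂ) 1 := by
  intro w hw
  rw [mem_ball_zero_iff, lt_div_iff₀ hD] at hw
  obtain ⟨r, hr1, hr2⟩ := exists_between hw
  have hr0 : 0 < r := lt_of_le_of_lt (by positivity) hr1
  have h1 := ball_subset_image h.diff_ef h.starlike.1 (ef_zero x m) hr0 hr2 (m := r / D) (by
    intro z hz
    rw [h.norm_ef, hz, div_eq_mul_inv]
    apply mul_le_mul_of_nonneg_left _ hr0.le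
    rw [Real.exp_neg]
    apply inv_anti₀ (Real.exp_pos _)
    calc Real.exp (∑ j, m j * Real.log ‖TT (x j) z‖) ≤ Real.exp (Real.log D) :=
          Real.exp_le_exp.mpr (hle z (by rw [hz]; exact hr2))
      _ = D := Real.exp_log hD)
  have h2 : w ∈ ball (0:ℂ) (r / D) := by
    rw [mem_ball_zero_iff, lt_div_iff₀ hD]
    exact hr1
  exact image_mono (ball_subset_ball hr2.le) (h1 h2)

/-- The upper bound for the ratio with integer exponents. -/
theorem ratio_upper (x : ι → ℝ) (n : ι → ℕ) {N : ℕ} (hN : 0 < N) (hsum : ∑ j, n j = N)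
    (hn : ∀ j, 0 < n j) (h1 : ∀ j, -1 ≤ x j) (h2 : ∀ j, x j ≤ 1) {D ρ κ : ℝ} (hD : 0 < D)
    (hmax : ∀ c ∈ Icc (-1:ℝ) 1, ∏ j, (2 * |c - x j|) ^ n j ≤ D ^ N)
    (hρ0 : 0 < ρ) (hρ1 : ρ < 1)
    (hneg : rP x (fun j => (n j : ℝ) / N) ρ ^ 2 + ρ * rP' x (fun j => (n j : ℝ) / N) ρ < 0)
    (hκ : 0 < κ) (hfin : (D * ρ / κ) ^ N ≤ ∏ j, (1 + 2 * x j * ρ + ρ ^ 2) ^ n j) :
    Par x (fun j => (n j : ℝ) / N) ∧ rho (ef x (fun j => (n j : ℝ) / N)) ≤ κ := by
  have hNr : (0:ℝ) < N := by exact_mod_cast hN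
  have hpar : Par x (fun j => (n j : ℝ) / N) := by
    refine ⟨h1, h2, ?_, ?_⟩
    · intro j
      have : (0:ℝ) < n j := by exact_mod_cast hn j
      positivity
    · rw [← Finset.sum_div, ← Nat.cast_sum, hsum, div_self hNr.ne']
  refine ⟨hpar, ?_⟩
  have hlog : ∀ T : ι → ℝ, (∀ j, 0 < T j) →
      ∑ j, ((n j : ℝ) / N) * Real.log (T j) = Real.log (∏ j, T j ^ n j) / N := by
    intro T hT
    rw [Real.log_prod (fun j _ => (pow_pos (hT j) _).ne'), Finset.sum_div]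
    apply Finset.sum_congr rfl
    intro j _
    rw [Real.log_pow]
    ring
  have hle : ∀ z : ℂ, ‖z‖ < 1 →
      ∑ j, ((n j : ℝ) / N) * Real.log ‖TT (x j) z‖ ≤ Real.log D := by
    intro z hz
    have hT : ∀ j, 0 < ‖TT (x j) z‖ := fun j => norm_pos_iff.mpr (TT_ne (h1 j) (h2 j) hz)
    rw [hlog _ hT, div_le_iff₀ hNr, mul_comm, ← Real.log_pow]
    apply Real.log_le_log
    · exact Finset.prod_pos fun j _ => pow_pos (hT j) _
    · exact prod_disc x n hmax hz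
  have hball := hpar.ball_subset hD hle
  have hup := rho_le hpar.diff_ef hpar.starlike.1 hρ1
    (fun r _ hr1 hconv => by
      by_contra hcon
      push Not at hcon
      exact hpar.not_convex hρ0 hρ1 hneg hcon hr1 hconv)
    (M := ρ * Real.exp (-∑ j, ((n j : ℝ) / N) * Real.log (1 + 2 * x j * ρ + ρ ^ 2)))
    (by positivity) (fun y hy0 hyρ => hpar.norm_neg_le hy0 hyρ hρ1)
    (one_div_pos.mpr hD) hball
  refine hup.trans ?_
  have hT : ∀ j, 0 < 1 + 2 * x j * ρ + ρ ^ 2 := fun j => (TT_neg_norm (h1 j) (h2 j) hρ0 hρ1).2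
  have hc : 0 < D * ρ / κ := by positivity
  have h5 : Real.log (D * ρ / κ) ≤ ∑ j, ((n j : ℝ) / N) * Real.log (1 + 2 * x j * ρ + ρ ^ 2) := by
    rw [hlog _ hT, le_div_iff₀ hNr, mul_comm, ← Real.log_pow]
    exact Real.log_le_log (by positivity) hfin
  have h6 : D * ρ / κ ≤ Real.exp (∑ j, ((n j : ℝ) / N) * Real.log (1 + 2 * x j * ρ + ρ ^ 2)) := by
    rw [← Real.log_le_iff_le_exp hc]
    exact h5
  rw [Real.exp_neg]
  have h7 := Real.exp_pos (∑ j, ((n j : ℝ) / N) * Real.log (1 + 2 * x j * ρ + ρ ^ 2))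
  generalize Real.exp (∑ j, ((n j : ℝ) / N) * Real.log (1 + 2 * x j * ρ + ρ ^ 2)) = E at h6 h7 ⊢
  have h8 : D * ρ ≤ E * κ := by rwa [div_le_iff₀ hκ] at h6
  have e : ρ * E⁻¹ / (1 / D) = D * ρ / E := by
    field_simp
  rw [e, div_le_iff₀ h7]
  linarith

end Pool.Agent.Helper968.Schild
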