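import Mathlib
import Pool.Agent.Helper968.Schild.Edges

/-!
Positivity of `Re (p + (q/2)(1 - 1/p²))`.
-/

namespace Pool.Agent.Helper968.Schild

theorem key_alg {b μ ξ η : ℝ} (hb0 : 0 < b) (hb1 : b < 1) (hμ0 : 0 < μ) (hμ1 : μ < 1)
    (hξ : 0 < ξ) (hη : 0 ≤ η) (hA : (1 - μ ^ 2) * (ξ + η) = 1 - b ^ 2)
    (H : (μ ^ 2 * ξ + η + b ^ 2) ^ 2 ≤ (28 - 23 * b) * b ^ 2 * μ ^ 2 * ξ) :
    μ * (ξ + (2 - μ ^ 2) * η) < (2 * b + μ) * (ξ + μ ^ 2 * η) ^ 2 := by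
  have hD : 0 < 1 - μ ^ 2 := by nlinarith
  set A := ξ + η with hAdef
  have hA0 : 0 < A := by linarith
  set D := 1 - μ ^ 2 with hDdef
  have hμD : μ ^ 2 = 1 - D := by rw [hDdef]; ring
  set P := ξ + μ ^ 2 * η with hP
  have e1 : P / A - μ ^ 2 = D * ξ / A := by
    rw [hP, hDdef, hAdef]
    field_simp
    ring
  have e2 : 1 - P / A = D * η / A := by
    rw [hP, hDdef, hAdef]
    field_simp
    ring
  have h1 : μ ^ 2 < P / A := by
    have : 0 < D * ξ / A := by positivity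
    linarith
  have h2 : P / A ≤ 1 := by
    have : 0 ≤ D * η / A := by positivity
    linarith
  have h3 : ¬ ((2 * b + μ) * (1 - b ^ 2) * (P / A) ^ 2 ≤ μ * (2 - P / A) * (1 - μ ^ 2)) := by
    intro hcon
    have h4 := good_all hb0 hb1 hμ0 hμ1 (P / A) h1 h2 hcon
    rw [e1, e2, ← hA] at h4
    have e3 : (28 - 23 * b) * b ^ 2 * μ ^ 2 * ((1 - μ ^ 2) * A) * (D * ξ / A) =
        D ^ 2 * ((28 - 23 * b) * b ^ 2 * μ ^ 2 * ξ) := by
      rw [← hDdef]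
      field_simp
    have e4 : (D * η / A * ((1 - μ ^ 2) * A) + b ^ 2 * (1 - μ ^ 2) +
        μ ^ 2 * ((1 - μ ^ 2) * A)) ^ 2 = D ^ 2 * (μ ^ 2 * ξ + η + b ^ 2) ^ 2 := by
      rw [← hDdef]
      have : D * η / A * (D * A) = D ^ 2 * η := by field_simp
      rw [this, hμD, hAdef]
      ring
    rw [e3, e4] at h4
    have hD2 : 0 < D ^ 2 := by positivity
    have := lt_of_mul_lt_mul_left h4 hD2.le
    linarith
  push Not at h3
  rw [← hA, ← hDdef] at h3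
  have e5 : μ * (2 - P / A) * D = (D / A) * (μ * (ξ + (2 - μ ^ 2) * η)) := by
    have : 2 * A - P = ξ + (2 - μ ^ 2) * η := by rw [hAdef, hP]; ring
    rw [← this]
    field_simp
  have e6 : (2 * b + μ) * (D * A) * (P / A) ^ 2 = (D / A) * ((2 * b + μ) * P ^ 2) := by
    field_simp
  rw [e5, e6] at h3
  exact lt_of_mul_lt_mul_left h3 (by positivity)

theorem reF_formula (p q : ℂ) (hp : p ≠ 0) :
    (p + q / 2 * (1 - 1 / p ^ 2)).re * (2 * (p.re ^ 2 + p.im ^ 2) ^ 2) =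
      (2 * p.re + q.re) * (p.re ^ 2 + p.im ^ 2) ^ 2 - q.re * (p.re ^ 2 - p.im ^ 2)
        - 2 * p.re * p.im * q.im := by
  have hn : p.re ^ 2 + p.im ^ 2 ≠ 0 := by
    intro h
    apply hp
    apply Complex.ext
    · simp; nlinarith [sq_nonneg p.re, sq_nonneg p.im]
    · simp; nlinarith [sq_nonneg p.re, sq_nonneg p.im]
  have e1 : 1 / p ^ 2 = (starRingEnd ℂ p) ^ 2 / ((p.re ^ 2 + p.im ^ 2 : ℝ) : ℂ) ^ 2 := by
    have h1 : p * starRingEnd ℂ p = ((p.re ^ 2 + p.im ^ 2 : ℝ) : ℂ) := by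
      rw [Complex.mul_conj, Complex.normSq_apply]
      norm_num [sq]
    have hc : starRingEnd ℂ p ≠ 0 := by simpa using hp
    rw [← h1, mul_pow]
    field_simp
  have e2 : (p + q / 2 * (1 - 1 / p ^ 2)).re = p.re + q.re / 2 -
      (q.re * (p.re ^ 2 - p.im ^ 2) + 2 * p.re * p.im * q.im) / (2 * (p.re ^ 2 + p.im ^ 2) ^ 2) := by
    rw [e1]
    have e3 : q / 2 * (1 - (starRingEnd ℂ p) ^ 2 / ((p.re ^ 2 + p.im ^ 2 : ℝ) : ℂ) ^ 2) =
        (1 / 2 : ℝ) * q - ((1 / (2 * (p.re ^ 2 + p.im ^ 2) ^ 2) : ℝ) : ℂ) *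
          (q * (starRingEnd ℂ p) ^ 2) := by
      have : ((p.re ^ 2 + p.im ^ 2 : ℝ) : ℂ) ≠ 0 := by exact_mod_cast hn
      push_cast at this ⊢
      field_simp
    rw [e3, Complex.add_re, Complex.sub_re, Complex.re_ofReal_mul, Complex.re_ofReal_mul]
    have e4 : (q * (starRingEnd ℂ p) ^ 2).re = q.re * (p.re ^ 2 - p.im ^ 2) +
        2 * p.re * p.im * q.im := by
      simp [sq, Complex.mul_re, Complex.mul_im]
      ring
    rw [e4]
    ring
  rw [e2]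
  field_simp
  ring

theorem reF_pos_mid {b : ℝ} (hb0 : 0 < b) (hb1 : b < 1) {p q : ℂ} (hp : 0 < p.re) (hq : 0 < q.re)
    (hpq : p ^ 2 = (1 - b ^ 2 : ℝ) + (b ^ 2 : ℝ) * q ^ 2)
    (H : (q.re ^ 2 + q.im ^ 2 + 1) ^ 2 ≤ (28 - 23 * b) * q.re ^ 2) :
    0 < (p + q / 2 * (1 - 1 / p ^ 2)).re := by
  have hp0 : p ≠ 0 := by
    intro h
    rw [h] at hp
    simp at hp
  have hre : p.re ^ 2 - p.im ^ 2 = (1 - b ^ 2) + b ^ 2 * (q.re ^ 2 - q.im ^ 2) := by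
    have := congrArg Complex.re hpq
    simp [sq, Complex.mul_re, Complex.mul_im] at this
    nlinarith
  have him : p.re * p.im = b ^ 2 * (q.re * q.im) := by
    have := congrArg Complex.im hpq
    simp [sq, Complex.mul_re, Complex.mul_im] at this
    nlinarith
  set x := p.re with hx
  set y := p.im with hy
  set X := q.re with hX
  set Y := q.im with hY
  set μ := b * X / x with hμ
  have hμ0 : 0 < μ := by positivity
  have hbX : b * X = μ * x := by rw [hμ]; field_simp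
  have hyY : y = b * μ * Y := by
    have : x * y = x * (b * μ * Y) := by
      rw [him]
      calc b ^ 2 * (X * Y) = b * (b * X) * Y := by ring
        _ = b * (μ * x) * Y := by rw [hbX]
        _ = _ := by ring
    exact mul_left_cancel₀ hp.ne' this
  have hA : (1 - μ ^ 2) * (x ^ 2 + b ^ 2 * Y ^ 2) = 1 - b ^ 2 := by
    have h1 : b ^ 2 * X ^ 2 = μ ^ 2 * x ^ 2 := by
      rw [← mul_pow, hbX, mul_pow]
    rw [hyY] at hre
    nlinarith
  have hs : 0 < 1 - b ^ 2 := by nlinarith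
  have hξη : 0 < x ^ 2 + b ^ 2 * Y ^ 2 := by positivity
  have hμ1 : μ < 1 := by
    by_contra hcon
    push Not at hcon
    have : (1 - μ ^ 2) * (x ^ 2 + b ^ 2 * Y ^ 2) ≤ 0 :=
      mul_nonpos_of_nonpos_of_nonneg (by nlinarith) hξη.le
    linarith
  have hkey := key_alg hb0 hb1 hμ0 hμ1 (ξ := x ^ 2) (η := b ^ 2 * Y ^ 2) (by positivity)
    (by positivity) hA (by
      have h1 : b ^ 2 * X ^ 2 = μ ^ 2 * x ^ 2 := by
        rw [← mul_pow, hbX, mul_pow]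
      have h2 : (μ ^ 2 * x ^ 2 + b ^ 2 * Y ^ 2 + b ^ 2) ^ 2 = b ^ 4 * (X ^ 2 + Y ^ 2 + 1) ^ 2 := by
        rw [← h1]; ring
      have h3 : (28 - 23 * b) * b ^ 2 * μ ^ 2 * x ^ 2 = b ^ 4 * ((28 - 23 * b) * X ^ 2) := by
        calc _ = (28 - 23 * b) * b ^ 2 * (μ ^ 2 * x ^ 2) := by ring
          _ = (28 - 23 * b) * b ^ 2 * (b ^ 2 * X ^ 2) := by rw [h1]
          _ = _ := by ring
      rw [h2, h3]
      gcongr)
  have hf := reF_formula p q hp0
  rw [← hx, ← hy, ← hX, ← hY] at hf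
  have hP : 0 < x ^ 2 + y ^ 2 := by positivity
  have hP2 : x ^ 2 + y ^ 2 = x ^ 2 + μ ^ 2 * (b ^ 2 * Y ^ 2) := by rw [hyY]; ring
  have e1 : (2 * x + X) * (x ^ 2 + y ^ 2) ^ 2 - X * (x ^ 2 - y ^ 2) - 2 * x * y * Y =
      (x / b) * ((2 * b + μ) * (x ^ 2 + μ ^ 2 * (b ^ 2 * Y ^ 2)) ^ 2 -
        μ * (x ^ 2 + (2 - μ ^ 2) * (b ^ 2 * Y ^ 2))) := by
    have hXe : X = μ * x / b := by
      rw [eq_div_iff hb0.ne']
      linarith
    rw [hP2, hXe]
    have : x ^ 2 - y ^ 2 = x ^ 2 - μ ^ 2 * (b ^ 2 * Y ^ 2) := by rw [hyY]; ring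
    rw [this, hyY]
    field_simp
    ring
  rw [e1] at hf
  have h5 : 0 < (x / b) * ((2 * b + μ) * (x ^ 2 + μ ^ 2 * (b ^ 2 * Y ^ 2)) ^ 2 -
        μ * (x ^ 2 + (2 - μ ^ 2) * (b ^ 2 * Y ^ 2))) :=
    mul_pos (by positivity) (by linarith)
  rw [← hf] at h5
  exact pos_of_mul_pos_left h5 (by positivity)

theorem reF_pos {b : ℝ} (hb0 : 0 ≤ b) (hb1 : b ≤ 1) {p q : ℂ} (hp : 0 < p.re) (hq : 0 < q.re)
    (hpq : p ^ 2 = (1 - b ^ 2 : ℝ) + (b ^ 2 : ℝ) * q ^ 2)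
    (H : (q.re ^ 2 + q.im ^ 2 + 1) ^ 2 ≤ (28 - 23 * b) * q.re ^ 2) :
    0 < (p + q / 2 * (1 - 1 / p ^ 2)).re := by
  rcases hb0.eq_or_lt with h | h
  · rw [← h] at hpq
    have h1 : p ^ 2 = 1 := by rw [hpq]; norm_num
    have h2 : p = 1 := by
      rcases sq_eq_sq_iff_eq_or_eq_neg.mp (h1.trans (one_pow 2).symm) with h3 | h3
      · exact h3
      · rw [h3] at hp; norm_num at hp
    rw [h2]; norm_num
  rcases hb1.eq_or_lt with h' | h'
  · rw [h'] at hpq H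
    have h1 : p ^ 2 = q ^ 2 := by rw [hpq]; norm_num
    have h2 : p = q := by
      rcases sq_eq_sq_iff_eq_or_eq_neg.mp h1 with h3 | h3
      · exact h3
      · rw [h3] at hp; simp at hp; linarith
    subst h2
    have hp0 : p ≠ 0 := by
      intro h
      rw [h] at hp
      simp at hp
    have hf := reF_formula p p hp0
    have h3 : 1 / 3 < p.re ^ 2 + p.im ^ 2 := by
      by_contra hcon
      push Not at hcon
      have : (p.re ^ 2 + p.im ^ 2 + 1) ^ 2 ≤ 5 * (p.re ^ 2 + p.im ^ 2) := by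
        nlinarith [sq_nonneg p.im]
      nlinarith [sq_nonneg p.im, sq_nonneg p.re]
    have h4 : 0 < (2 * p.re + p.re) * (p.re ^ 2 + p.im ^ 2) ^ 2 - p.re * (p.re ^ 2 - p.im ^ 2)
        - 2 * p.re * p.im * p.im := by
      have e : (2 * p.re + p.re) * (p.re ^ 2 + p.im ^ 2) ^ 2 - p.re * (p.re ^ 2 - p.im ^ 2)
        - 2 * p.re * p.im * p.im = p.re * (p.re ^ 2 + p.im ^ 2) *
          (3 * (p.re ^ 2 + p.im ^ 2) - 1) := by ring
      rw [e]
      apply mul_pos (mul_pos hp (by linarith)) (by linarith)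
    rw [← hf] at h4
    exact pos_of_mul_pos_left h4 (by positivity)
  · exact reF_pos_mid h h' hp hq hpq H

end Pool.Agent.Helper968.Schild
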