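import Mathlib
import Pool.Agent.Helper968.Schild.General
import Pool.Agent.Helper968.Schild.Key
import Pool.Agent.Helper968.Schild.Convexity
import Pool.Agent.Helper968.Schild.Starlike

/-!
The functions `g_a`: analytic structure.
-/

namespace Pool.Agent.Helper968.Schild

open Metric Set Filter Topology

/-- `1 + 2 a z + z²`, `a = 2b² - 1` -/
noncomputable def W (b : ℝ) (z : ℂ) : ℂ := 1 + 2 * (2 * (b:ℂ) ^ 2 - 1) * z + z ^ 2

/-- the root -/
noncomputable def R (b : ℝ) (z : ℂ) : ℂ := (W b z) ^ (1/2 : ℂ)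

/-- `(1+z)/(1-z)` -/
noncomputable def qq (z : ℂ) : ℂ := (1 + z) / (1 - z)

/-- `z g'/g` -/
noncomputable def pp (b : ℝ) (z : ℂ) : ℂ := R b z / (1 - z)

theorem normsq_lt {z : ℂ} (hz : ‖z‖ < 1) : z.re ^ 2 + z.im ^ 2 < 1 := by
  have h1 := Complex.sq_norm z
  rw [Complex.normSq_apply] at h1
  have h2 : ‖z‖ ^ 2 < 1 := by
    have := norm_nonneg z
    nlinarith
  nlinarith

theorem W_slit {b : ℝ} (hb0 : 0 ≤ b) (hb1 : b ≤ 1) {z : ℂ} (hz : ‖z‖ < 1) :
    W b z ∈ Complex.slitPlane := by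
  have hn := normsq_lt hz
  set a : ℝ := 2 * b ^ 2 - 1 with ha
  have hb2 : b ^ 2 ≤ 1 := by nlinarith
  have ha1 : a ≤ 1 := by rw [ha]; linarith
  have ha2 : -1 ≤ a := by rw [ha]; nlinarith [sq_nonneg b]
  have hWa : W b z = 1 + 2 * ((a : ℝ) : ℂ) * z + z ^ 2 := by
    unfold W
    rw [ha]
    push_cast
    ring
  have hre : (W b z).re = 1 + 2 * a * z.re + z.re ^ 2 - z.im ^ 2 := by
    rw [hWa]
    simp [sq, Complex.mul_re, Complex.mul_im]
    ring
  have him : (W b z).im = 2 * z.im * (a + z.re) := by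
    rw [hWa]
    simp [sq, Complex.mul_re, Complex.mul_im]
    ring
  rw [Complex.mem_slitPlane_iff]
  by_contra hcon
  push Not at hcon
  obtain ⟨h1, h2⟩ := hcon
  rw [hre] at h1
  rw [him] at h2
  have h3 : z.im = 0 ∨ a + z.re = 0 := by
    rcases mul_eq_zero.mp h2 with h | h
    · left; linarith
    · right; exact h
  rcases h3 with h | h
  · rw [h] at h1 hn
    have h4 : (z.re + a) ^ 2 + (1 - a ^ 2) ≤ 0 := by nlinarith
    have h5 : 0 ≤ 1 - a ^ 2 := by nlinarith
    have h6 : (z.re + a) ^ 2 = 0 := by nlinarith [sq_nonneg (z.re + a)]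
    have h7 : z.re + a = 0 := by simpa using h6
    have h8 : a ^ 2 = 1 := by nlinarith
    have h9 : z.re = -a := by linarith
    rw [h9] at hn
    nlinarith
  · have h9 : z.re = -a := by linarith
    rw [h9] at h1 hn
    nlinarith

theorem one_sub_ne {z : ℂ} (hz : ‖z‖ < 1) : (1 - z) ≠ 0 := by
  intro h
  have : z = 1 := by linear_combination -h
  rw [this] at hz
  norm_num at hz

theorem R_sq (b : ℝ) (z : ℂ) : R b z ^ 2 = W b z := by
  unfold R
  rw [one_div]
  exact Complex.cpow_ofNat_inv_pow _ 2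

theorem pp_sq (b : ℝ) {z : ℂ} (hz : ‖z‖ < 1) :
    pp b z ^ 2 = (1 - b ^ 2 : ℝ) + (b ^ 2 : ℝ) * qq z ^ 2 := by
  have h := one_sub_ne hz
  unfold pp qq
  rw [div_pow, R_sq, W]
  push_cast
  field_simp
  ring

theorem qq_re {z : ℂ} (hz : ‖z‖ < 1) : 0 < (qq z).re := by
  have hn := normsq_lt hz
  have h := one_sub_ne hz
  have hns : 0 < Complex.normSq (1 - z) := Complex.normSq_pos.mpr h
  have : (qq z).re = (1 - z.re ^ 2 - z.im ^ 2) / Complex.normSq (1 - z) := by
    unfold qq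
    rw [Complex.div_re]
    simp only [Complex.add_re, Complex.one_re, Complex.sub_re, Complex.add_im, Complex.one_im,
      Complex.sub_im]
    field_simp
    ring
  rw [this]
  apply div_pos _ hns
  linarith

theorem qq_im {z : ℂ} (hz : ‖z‖ < 1) : (qq z).im = 2 * z.im / Complex.normSq (1 - z) := by
  have h := one_sub_ne hz
  have hns : 0 < Complex.normSq (1 - z) := Complex.normSq_pos.mpr h
  unfold qq
  rw [Complex.div_im]
  simp only [Complex.add_re, Complex.one_re, Complex.sub_re, Complex.add_im, Complex.one_im,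
      Complex.sub_im]
  field_simp
  ring

theorem pp_re_ne {b : ℝ} (hb0 : 0 ≤ b) (hb1 : b ≤ 1) {z : ℂ} (hz : ‖z‖ < 1) :
    (pp b z).re ≠ 0 := by
  intro h
  have h1 := pp_sq b hz
  have hq := qq_re hz
  have hre := congrArg Complex.re h1
  have him := congrArg Complex.im h1
  simp [sq, Complex.mul_re, Complex.mul_im] at hre him
  rw [h] at hre him
  have hb2 : b ^ 2 ≤ 1 := by nlinarith
  rcases hb0.eq_or_lt with hb | hb
  · rw [← hb] at hre
    nlinarith [sq_nonneg (pp b z).im]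
  · have h3 : (qq z).im = 0 := by
      have : b * b * ((qq z).re * (qq z).im) = 0 := by linarith
      have hbb : 0 < b * b := by positivity
      rcases mul_eq_zero.mp this with h4 | h4
      · exact absurd h4 hbb.ne'
      · rcases mul_eq_zero.mp h4 with h5 | h5
        · exact absurd h5 hq.ne'
        · exact h5
    rw [h3] at hre
    have : 0 < b * b * ((qq z).re * (qq z).re) := by positivity
    nlinarith [sq_nonneg (pp b z).im]

theorem W_diff (b : ℝ) : Differentiable ℂ (W b) := by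
  unfold W
  fun_prop

theorem R_diff {b : ℝ} (hb0 : 0 ≤ b) (hb1 : b ≤ 1) {z : ℂ} (hz : ‖z‖ < 1) :
    DifferentiableAt ℂ (R b) z := by
  unfold R
  exact ((W_diff b) z).cpow_const (W_slit hb0 hb1 hz)

theorem pp_diff {b : ℝ} (hb0 : 0 ≤ b) (hb1 : b ≤ 1) {z : ℂ} (hz : ‖z‖ < 1) :
    DifferentiableAt ℂ (pp b) z := by
  unfold pp
  exact (R_diff hb0 hb1 hz).div (by fun_prop) (one_sub_ne hz)

theorem pp_zero (b : ℝ) : pp b 0 = 1 := by
  unfold pp R W
  norm_num

theorem pp_re {b : ℝ} (hb0 : 0 ≤ b) (hb1 : b ≤ 1) {z : ℂ} (hz : ‖z‖ < 1) :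
    0 < (pp b z).re := by
  by_contra hcon
  push Not at hcon
  have hlt := lt_of_le_of_ne hcon (pp_re_ne hb0 hb1 hz)
  have hpre : IsPreconnected (ball (0:ℂ) 1) := (convex_ball (0:ℂ) 1).isPreconnected
  have hcont : ContinuousOn (fun z => (pp b z).re) (ball (0:ℂ) 1) := by
    intro w hw
    have := (pp_diff hb0 hb1 (mem_ball_zero_iff.mp hw)).continuousAt
    exact (Complex.continuous_re.continuousAt.comp this).continuousWithinAt
  have h0 : (0:ℂ) ∈ ball (0:ℂ) 1 := by simp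
  have h1 : z ∈ ball (0:ℂ) 1 := mem_ball_zero_iff.mpr hz
  have := hpre.intermediate_value h1 h0 hcont
  have h2 : (0:ℝ) ∈ Icc ((pp b z).re) ((pp b 0).re) := by
    constructor
    · exact hlt.le
    · rw [pp_zero]; norm_num
  obtain ⟨w, hw, hw2⟩ := this h2
  exact pp_re_ne hb0 hb1 (mem_ball_zero_iff.mp hw) hw2

theorem hasDerivAt_qq {z : ℂ} (hz : ‖z‖ < 1) : HasDerivAt qq (2 / (1 - z) ^ 2) z := by
  have h := one_sub_ne hz
  have h1 : HasDerivAt (fun z : ℂ => 1 + z) 1 z := (hasDerivAt_id z).const_add 1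
  have h2 : HasDerivAt (fun z : ℂ => 1 - z) (-1) z := (hasDerivAt_id z).const_sub 1
  have h3 := h1.div h2 h
  have e : (1 * (1 - z) - (1 + z) * -1) / (1 - z) ^ 2 = 2 / (1 - z) ^ 2 := by
    congr 1; ring
  rw [e] at h3
  exact h3

theorem pp_deriv {b : ℝ} (hb0 : 0 ≤ b) (hb1 : b ≤ 1) {z : ℂ} (hz : ‖z‖ < 1) :
    pp b z * deriv (pp b) z = (b:ℂ) ^ 2 * qq z * (2 / (1 - z) ^ 2) := by
  have h1 : HasDerivAt (fun w => pp b w ^ 2) (2 * pp b z * deriv (pp b) z) z := by
    have := (pp_diff hb0 hb1 hz).hasDerivAt.fun_pow 2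
    simpa using this
  have h2 : HasDerivAt (fun w => ((1 - b ^ 2 : ℝ) : ℂ) + ((b ^ 2 : ℝ) : ℂ) * qq w ^ 2)
      (((b ^ 2 : ℝ) : ℂ) * (2 * qq z * (2 / (1 - z) ^ 2))) z := by
    have := (((hasDerivAt_qq hz).fun_pow 2).const_mul ((b ^ 2 : ℝ) : ℂ)).const_add
      ((1 - b ^ 2 : ℝ) : ℂ)
    simpa using this
  have h3 : (fun w => pp b w ^ 2) =ᶠ[𝓝 z]
      (fun w => ((1 - b ^ 2 : ℝ) : ℂ) + ((b ^ 2 : ℝ) : ℂ) * qq w ^ 2) := by
    filter_upwards [isOpen_ball.mem_nhds (mem_ball_zero_iff.mpr hz)] with w hw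
    exact pp_sq b (mem_ball_zero_iff.mp hw)
  have h4 := (h3.hasDerivAt_iff.mp h1).unique h2
  push_cast at h4
  linear_combination h4 / 2

theorem hasDerivAt_of_exp_eq {L E : ℂ → ℂ} {z E' : ℂ} (hc : ContinuousAt L z)
    (hE : HasDerivAt E E' z) (h : ∀ᶠ w in 𝓝 z, Complex.exp (L w) = E w) :
    HasDerivAt L (E' / E z) z := by
  have hz : Complex.exp (L z) = E z := h.self_of_nhds
  have hE0 : E z ≠ 0 := by rw [← hz]; exact Complex.exp_ne_zero _
  have h1 : ∀ᶠ w in 𝓝 z, ‖L w - L z‖ < 1 := by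
    have : Tendsto (fun w => ‖L w - L z‖) (𝓝 z) (𝓝 0) := by
      have h2 : Tendsto (fun w => L w - L z) (𝓝 z) (𝓝 (L z - L z)) := hc.tendsto.sub_const _
      rw [sub_self] at h2
      simpa using h2.norm
    exact this.eventually (gt_mem_nhds one_pos)
  have h2 : L =ᶠ[𝓝 z] fun w => L z + Complex.log (E w / E z) := by
    filter_upwards [h, h1] with w hw hw1
    rw [← hw, ← hz, ← Complex.exp_sub]
    have h3 : |(L w - L z).im| < 1 := (Complex.abs_im_le_norm _).trans_lt hw1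
    rw [abs_lt] at h3
    have hpi := Real.pi_gt_three
    rw [Complex.log_exp (by linarith) (by linarith)]
    ring
  have h3 : HasDerivAt (fun w => L z + Complex.log (E w / E z)) (E' / E z) z := by
    have h4 := (hE.div_const (E z)).clog (by rw [div_self hE0]; exact Complex.one_mem_slitPlane)
    rw [div_self hE0, div_one] at h4
    exact h4.const_add _
  exact h2.hasDerivAt_iff.mpr h3

end Pool.Agent.Helper968.Schild
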