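import Mathlib

/-!
Lower bound for the ratio: kernel checked interval subdivision in `b`.
-/

namespace Pool.Agent.Helper968.Schild

/-- right end point (in 1/1000), bound for `q` and for `T` (in 1/100000) -/
def ivl : List (ℕ × ℕ × ℕ) := [
  (158, 21167, 21424),
  (266, 22456, 23251),
  (345, 23565, 25013),
  (406, 24543, 26698),
  (455, 25425, 28314),
  (496, 26241, 29887),
  (531, 27004, 31422),
  (561, 27714, 32904),
  (588, 28404, 34391),
  (612, 29063, 35854),
  (634, 29710, 37327),
  (654, 30337, 38791),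
  (672, 30937, 40221),
  (689, 31539, 41684),
  (705, 32139, 43168),
  (721, 32775, 44768),
  (736, 33407, 46383),
  (750, 34033, 48003),
  (764, 34695, 49739),
  (778, 35399, 51604),
  (791, 36093, 53460),
  (804, 36830, 55444),
  (817, 37616, 57568),
  (830, 38456, 59842),
  (843, 39357, 62274),
  (856, 40326, 64872),
  (869, 41374, 67644),
  (882, 42512, 70593),
  (895, 43754, 73714),
  (907, 45009, 76740),
  (919, 46385, 79885),
  (931, 47905, 83122),
  (942, 49451, 86132),
  (952, 51006, 88860),
  (961, 52553, 91271),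
  (969, 54069, 93342),
  (976, 55524, 95070),
  (982, 56885, 96468),
  (987, 58111, 97560),
  (991, 59163, 98377),
  (994, 59998, 98954),
  (997, 60876, 99496),
  (999, 61489, 99836)]

/-- the check on one interval -/
def okI (N1 N2 Q T : ℕ) : Bool :=
  Nat.ble N1 N2 && Nat.ble N2 999 && Nat.ble Q 100000 && Nat.blt T 100000 && Nat.blt 0 Q &&
  Nat.ble ((10000000000 + Q * Q) ^ 2 * 1000) ((28000 - 23 * N2) * (Q * Q) * 10000000000) &&
  Nat.ble (Q * Q * 10000000000000000)
    (T * T * (10000000000000000 - N2 * N2 * (10000000000 - Q * Q))) &&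
  Nat.ble ((605 * 10000000000 * (1000 * (100000 + T)) ^ 2) ^ 1000 *
      (100000000 + N2 * T) ^ (1000 - N1))
    (((10000000000 - Q * Q) * (100000000 + N1 * T) ^ 2 * 1000) ^ 1000 *
      (100000000 - N2 * T) ^ (1000 - N1))

/-- all intervals -/
def okAll : ℕ → List (ℕ × ℕ × ℕ) → Bool
  | N, [] => Nat.ble 999 N
  | N, (N2, Q, T) :: l => okI N N2 Q T && okAll N2 l

set_option maxRecDepth 100000 in
theorem okAll_true : okAll 0 ivl = true := by decide +kernel

end Pool.Agent.Helper968.Schild
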