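import Mathlib
import Pool.Agent.Helper968.Schild.Ivl

/-!
Lower bound `0.605` for the ratio of the functions `g_a`.
-/

namespace Pool.Agent.Helper968.Schild

/-- the ratio `|g(-r)|/d` in terms of `b`, `q = (1-r)/(1+r)` and `T = q/p` -/
noncomputable def RR (b q T : ℝ) : ℝ :=
  (1 - q ^ 2) * ((1 + b * T) / (1 + T)) ^ 2 * ((1 - b * T) / (1 + b * T)) ^ (1 - b)

theorem q_le {b b2 q Q : ℝ} (hb : b ≤ b2) (hq0 : 0 < q) (hq1 : q < 1)
    (hq : (1 + q ^ 2) ^ 2 = (28 - 23 * b) * q ^ 2) (hQ0 : 0 < Q) (hQ1 : Q ≤ 1)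
    (hQ : (1 + Q ^ 2) ^ 2 ≤ (28 - 23 * b2) * Q ^ 2) : q ≤ Q := by
  by_contra hcon
  push Not at hcon
  have h1 : (1 + Q ^ 2) ^ 2 * q ^ 2 ≤ (1 + q ^ 2) ^ 2 * Q ^ 2 := by
    rw [hq]
    have : (1 + Q ^ 2) ^ 2 ≤ (28 - 23 * b) * Q ^ 2 := by nlinarith [sq_nonneg Q]
    nlinarith [sq_nonneg q]
  have h2 : (1 + Q ^ 2) * q ≤ (1 + q ^ 2) * Q := by
    have h3 : ((1 + Q ^ 2) * q) ^ 2 ≤ ((1 + q ^ 2) * Q) ^ 2 := by nlinarith
    exact le_of_sq_le_sq h3 (by positivity) 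
  have h4 : (q - Q) * (1 - q * Q) ≤ 0 := by nlinarith
  have h5 : 0 < (q - Q) * (1 - q * Q) := by
    apply mul_pos (by linarith)
    nlinarith
  linarith

theorem T_le {b b2 q T Q T' : ℝ} (hb0 : 0 ≤ b) (hb : b ≤ b2) (hb2 : b2 < 1) (hq0 : 0 < q)
    (hqQ : q ≤ Q) (hQ1 : Q ≤ 1) (hT : T ^ 2 * (1 - b ^ 2 * (1 - q ^ 2)) = q ^ 2)
    (hT'0 : 0 ≤ T') (hT' : Q ^ 2 ≤ T' ^ 2 * (1 - b2 ^ 2 * (1 - Q ^ 2))) : T ≤ T' := by
  have hQ0 : 0 < Q := hq0.trans_le hqQ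
  have hq2 : q ^ 2 ≤ Q ^ 2 := by gcongr
  have hQ2 : Q ^ 2 ≤ 1 := by nlinarith
  have hb22 : b ^ 2 ≤ b2 ^ 2 := by gcongr
  have hb21 : b2 ^ 2 < 1 := by nlinarith
  have e1 : 0 < 1 - b ^ 2 * (1 - q ^ 2) := by nlinarith [sq_nonneg b, sq_nonneg q]
  have e2 : 0 < 1 - b ^ 2 * (1 - Q ^ 2) := by nlinarith [sq_nonneg b]
  have e3 : 0 < 1 - b2 ^ 2 * (1 - Q ^ 2) := by nlinarith [sq_nonneg b2]
  have h1 : T ^ 2 ≤ T' ^ 2 := by
    have h2 : T ^ 2 = q ^ 2 / (1 - b ^ 2 * (1 - q ^ 2)) := by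
      rw [eq_div_iff e1.ne']; exact hT
    have h3 : q ^ 2 / (1 - b ^ 2 * (1 - q ^ 2)) ≤ Q ^ 2 / (1 - b ^ 2 * (1 - Q ^ 2)) := by
      rw [div_le_div_iff₀ e1 e2]
      nlinarith
    have h4 : Q ^ 2 / (1 - b ^ 2 * (1 - Q ^ 2)) ≤ Q ^ 2 / (1 - b2 ^ 2 * (1 - Q ^ 2)) := by
      apply div_le_div_of_nonneg_left (sq_nonneg _) e3
      nlinarith
    have h5 : Q ^ 2 / (1 - b2 ^ 2 * (1 - Q ^ 2)) ≤ T' ^ 2 := by
      rw [div_le_iff₀ e3]; exact hT'
    linarith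
  exact le_of_sq_le_sq h1 hT'0

theorem RR_ge {b b1 b2 q T Q T' : ℝ} (hb10 : 0 ≤ b1) (hb1 : b1 ≤ b) (hb2 : b ≤ b2)
    (hb21 : b2 < 1) (hq0 : 0 < q) (hqQ : q ≤ Q) (hQ1 : Q ≤ 1) (hT0 : 0 < T) (hTT : T ≤ T')
    (hT' : T' < 1) :
    (1 - Q ^ 2) * ((1 + b1 * T') / (1 + T')) ^ 2 * ((1 - b2 * T') / (1 + b2 * T')) ^ (1 - b1) ≤
      RR b q T := by
  have hb0 : 0 ≤ b := hb10.trans hb1
  have hQ0 : 0 < Q := hq0.trans_le hqQ
  have hT'0 : 0 < T' := hT0.trans_le hTT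
  have hb20 : 0 ≤ b2 := hb0.trans hb2
  have g0 : 0 < 1 - b2 * T' := by nlinarith
  have g1 : b * T ≤ b2 * T' := by gcongr
  have h1 : 1 - Q ^ 2 ≤ 1 - q ^ 2 := by
    have : q ^ 2 ≤ Q ^ 2 := by gcongr
    linarith
  have h2 : (1 + b1 * T') / (1 + T') ≤ (1 + b * T) / (1 + T) := by
    rw [div_le_div_iff₀ (by linarith) (by linarith)]
    nlinarith [mul_nonneg (sub_nonneg.mpr hTT) (sub_nonneg.mpr hb1),
      mul_nonneg (sub_nonneg.mpr hTT) (show 0 ≤ 1 - b1 by linarith),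
      mul_nonneg hT0.le (sub_nonneg.mpr hb1), mul_nonneg (mul_nonneg hT0.le hT'0.le) (sub_nonneg.mpr hb1)]
  have h3 : (1 - b2 * T') / (1 + b2 * T') ≤ (1 - b * T) / (1 + b * T) := by
    have : 0 ≤ b * T := by positivity
    rw [div_le_div_iff₀ (by nlinarith) (by linarith)]
    nlinarith
  have hβ0 : 0 < (1 - b2 * T') / (1 + b2 * T') := by
    have : 0 ≤ b2 * T' := by positivity
    apply div_pos g0 (by linarith)
  have hβ1 : (1 - b2 * T') / (1 + b2 * T') ≤ 1 := by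
    have : 0 ≤ b2 * T' := by positivity
    rw [div_le_one (by linarith)]
    linarith
  have h4 : ((1 - b2 * T') / (1 + b2 * T')) ^ (1 - b1) ≤ ((1 - b * T) / (1 + b * T)) ^ (1 - b) :=
    (Real.rpow_le_rpow_of_exponent_ge hβ0 hβ1 (by linarith)).trans
      (Real.rpow_le_rpow hβ0.le h3 (by linarith))
  have h5 : ((1 + b1 * T') / (1 + T')) ^ 2 ≤ ((1 + b * T) / (1 + T)) ^ 2 :=
    pow_le_pow_left₀ (by positivity) h2 2
  have hQ2 : Q ^ 2 ≤ 1 := by nlinarith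
  unfold RR
  apply mul_le_mul _ h4 (Real.rpow_nonneg hβ0.le _) _
  · apply mul_le_mul h1 h5 (sq_nonneg _) (by linarith)
  · apply mul_nonneg (by linarith) (sq_nonneg _)

theorem pow_bound {f β : ℝ} (hf : 0 ≤ f) (hβ : 0 ≤ β) {N1 : ℕ} (hN : N1 ≤ 1000)
    (h : (0.605 : ℝ) ^ 1000 ≤ f ^ 1000 * β ^ (1000 - N1)) :
    0.605 ≤ f * β ^ (1 - (N1 : ℝ) / 1000) := by
  have e : (β ^ (1 - (N1 : ℝ) / 1000)) ^ 1000 = β ^ (1000 - N1) := by
    rw [← Real.rpow_natCast, ← Real.rpow_mul hβ, ← Real.rpow_natCast]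
    congr 1
    rw [Nat.cast_sub hN]
    push_cast
    ring
  have h1 : (0.605 : ℝ) ^ 1000 ≤ (f * β ^ (1 - (N1 : ℝ) / 1000)) ^ 1000 := by
    rw [mul_pow, e]; exact h
  exact le_of_pow_le_pow_left₀ (by norm_num) (mul_nonneg hf (Real.rpow_nonneg hβ _)) h1

theorem okI_sound {N1 N2 Q T' : ℕ} (h : okI N1 N2 Q T' = true) {b q T : ℝ}
    (hb1 : (N1 : ℝ) / 1000 ≤ b) (hb2 : b ≤ (N2 : ℝ) / 1000) (hq0 : 0 < q) (hq1 : q < 1)
    (hq : (1 + q ^ 2) ^ 2 = (28 - 23 * b) * q ^ 2) (hT0 : 0 < T)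
    (hT : T ^ 2 * (1 - b ^ 2 * (1 - q ^ 2)) = q ^ 2) : 0.605 ≤ RR b q T := by
  simp only [okI, Bool.and_eq_true, Nat.ble_eq, Nat.blt_eq] at h
  obtain ⟨⟨⟨⟨⟨⟨⟨h1, h2⟩, h3⟩, h4⟩, h5⟩, h6⟩, h7⟩, h8⟩ := h
  have hb0 : 0 ≤ b := le_trans (by positivity) hb1
  have r2 : (N2 : ℝ) ≤ 999 := by exact_mod_cast h2
  have r3 : (Q : ℝ) ≤ 100000 := by exact_mod_cast h3
  have r4 : (T' : ℝ) < 100000 := by exact_mod_cast h4
  have r5 : (0 : ℝ) < Q := by exact_mod_cast h5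
  have qq : Q * Q ≤ 10000000000 := (Nat.mul_le_mul h3 h3).trans (by norm_num)
  have nn' : N2 * N2 * (10000000000 - Q * Q) ≤ 10000000000000000 := by
    calc N2 * N2 * (10000000000 - Q * Q) ≤ 999 * 999 * 10000000000 := by
          apply Nat.mul_le_mul (Nat.mul_le_mul h2 h2) (Nat.sub_le _ _)
      _ ≤ _ := by norm_num
  have hqQ : q ≤ (Q : ℝ) / 100000 := by
    refine q_le hb2 hq0 hq1 hq (by positivity) (by rw [div_le_one (by norm_num)]; exact r3) ?_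
    have h6' : (((10000000000 + Q * Q) ^ 2 * 1000 : ℕ) : ℝ) ≤
        (((28000 - 23 * N2) * (Q * Q) * 10000000000 : ℕ) : ℝ) := by exact_mod_cast h6
    push_cast [Nat.cast_sub (show 23 * N2 ≤ 28000 by omega)] at h6'
    have e1 : (1 + ((Q : ℝ) / 100000) ^ 2) ^ 2 =
        ((10000000000 + (Q : ℝ) * Q) ^ 2 * 1000) / (10000000000 ^ 2 * 1000) := by ring
    have e2 : (28 - 23 * ((N2 : ℝ) / 1000)) * ((Q : ℝ) / 100000) ^ 2 =
        ((28000 - 23 * (N2 : ℝ)) * (Q * Q) * 10000000000) / (10000000000 ^ 2 * 1000) := by ring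
    rw [e1, e2]
    gcongr
  have hTT : T ≤ (T' : ℝ) / 100000 := by
    refine T_le hb0 hb2 (by rw [div_lt_one (by norm_num)]; linarith) hq0 hqQ
      (by rw [div_le_one (by norm_num)]; exact r3) hT (by positivity) ?_
    have h7' : ((Q * Q * 10000000000000000 : ℕ) : ℝ) ≤
        ((T' * T' * (10000000000000000 - N2 * N2 * (10000000000 - Q * Q)) : ℕ) : ℝ) := by
      exact_mod_cast h7
    push_cast [Nat.cast_sub nn', Nat.cast_sub qq] at h7'
    have e1 : ((Q : ℝ) / 100000) ^ 2 =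
        ((Q : ℝ) * Q * 10000000000000000) / (10000000000 * 10000000000000000) := by ring
    have e2 : ((T' : ℝ) / 100000) ^ 2 *
        (1 - ((N2 : ℝ) / 1000) ^ 2 * (1 - ((Q : ℝ) / 100000) ^ 2)) =
        ((T' : ℝ) * T' * (10000000000000000 - N2 * N2 * (10000000000 - Q * Q))) /
          (10000000000 * 10000000000000000) := by ring
    rw [e2, e1]
    gcongr
  have hT'1 : (T' : ℝ) / 100000 < 1 := by rw [div_lt_one (by norm_num)]; exact r4
  have hN21 : (N2 : ℝ) / 1000 < 1 := by rw [div_lt_one (by norm_num)]; linarith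
  refine le_trans ?_ (RR_ge (b1 := (N1 : ℝ) / 1000) (b2 := (N2 : ℝ) / 1000)
    (Q := (Q : ℝ) / 100000) (T' := (T' : ℝ) / 100000) (by positivity) hb1 hb2 hN21 hq0 hqQ
    (by rw [div_le_one (by norm_num)]; exact r3) hT0 hTT hT'1)
  have hNT : N2 * T' ≤ 100000000 := (Nat.mul_le_mul h2 h4.le).trans (by norm_num)
  have hNTr : (N2 : ℝ) * T' ≤ 100000000 := by exact_mod_cast hNT
  have hQr : (Q : ℝ) * Q ≤ 10000000000 := by exact_mod_cast qq
  apply pow_bound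
  · apply mul_nonneg _ (sq_nonneg _)
    have : ((Q : ℝ) / 100000) ^ 2 = ((Q : ℝ) * Q) / 10000000000 := by ring
    rw [this, sub_nonneg, div_le_one (by norm_num)]
    exact hQr
  · apply div_nonneg
    · have : (N2 : ℝ) / 1000 * ((T' : ℝ) / 100000) = ((N2 : ℝ) * T') / 100000000 := by ring
      rw [this, sub_nonneg, div_le_one (by norm_num)]
      exact hNTr
    · positivity
  · omega
  · have h8' : (((605 * 10000000000 * (1000 * (100000 + T')) ^ 2) ^ 1000 *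
        (100000000 + N2 * T') ^ (1000 - N1) : ℕ) : ℝ) ≤
        ((((10000000000 - Q * Q) * (100000000 + N1 * T') ^ 2 * 1000) ^ 1000 *
        (100000000 - N2 * T') ^ (1000 - N1) : ℕ) : ℝ) := Nat.cast_le.mpr h8
    push_cast [Nat.cast_sub qq, Nat.cast_sub hNT] at h8'
    have f1 : (1 - ((Q : ℝ) / 100000) ^ 2) *
        ((1 + (N1 : ℝ) / 1000 * ((T' : ℝ) / 100000)) / (1 + (T' : ℝ) / 100000)) ^ 2 =
        ((10000000000 - (Q : ℝ) * Q) * (100000000 + N1 * T') ^ 2 * 1000) /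
          (1000 * 10000000000 * (1000 * (100000 + (T' : ℝ))) ^ 2) := by
      have : (100000 : ℝ) + T' ≠ 0 := by positivity
      field_simp
      ring
    have f2 : (1 - (N2 : ℝ) / 1000 * ((T' : ℝ) / 100000)) /
        (1 + (N2 : ℝ) / 1000 * ((T' : ℝ) / 100000)) =
        (100000000 - (N2 : ℝ) * T') / (100000000 + (N2 : ℝ) * T') := by
      have : (100000000 : ℝ) + N2 * T' ≠ 0 := by positivity
      have e1 : 1 - (N2 : ℝ) / 1000 * ((T' : ℝ) / 100000) =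
          (100000000 - (N2 : ℝ) * T') / 100000000 := by ring
      have e2 : 1 + (N2 : ℝ) / 1000 * ((T' : ℝ) / 100000) =
          (100000000 + (N2 : ℝ) * T') / 100000000 := by ring
      rw [e1, e2, div_div_div_cancel_right₀ (by norm_num)]
    rw [f1, f2, div_pow, div_pow, div_mul_div_comm, le_div_iff₀ (by positivity)]
    calc (0.605 : ℝ) ^ 1000 * ((1000 * 10000000000 * (1000 * (100000 + (T' : ℝ))) ^ 2) ^ 1000 *
          (100000000 + (N2 : ℝ) * T') ^ (1000 - N1))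
        = (6050000000000 * (1000 * (100000 + (T' : ℝ))) ^ 2) ^ 1000 *
          (100000000 + (N2 : ℝ) * T') ^ (1000 - N1) := by
          rw [← mul_assoc, ← mul_pow]
          congr 2
          ring
      _ ≤ _ := h8'

theorem okAll_sound : ∀ (l : List (ℕ × ℕ × ℕ)) (N : ℕ), okAll N l = true → ∀ {b q T : ℝ},
    (N : ℝ) / 1000 ≤ b → b ≤ 0.999 → 0 < q → q < 1 →
    (1 + q ^ 2) ^ 2 = (28 - 23 * b) * q ^ 2 → 0 < T →
    T ^ 2 * (1 - b ^ 2 * (1 - q ^ 2)) = q ^ 2 → b < 0.999 → 0.605 ≤ RR b q T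
  | [], N, h, b, q, T, hb1, hb2, hq0, hq1, hq, hT0, hT, hb3 => by
    simp only [okAll, Nat.ble_eq] at h
    have : (999 : ℝ) ≤ N := by exact_mod_cast h
    linarith
  | (N2, Q, T') :: l, N, h, b, q, T, hb1, hb2, hq0, hq1, hq, hT0, hT, hb3 => by
    simp only [okAll, Bool.and_eq_true] at h
    rcases le_total b ((N2 : ℝ) / 1000) with h1 | h1
    · exact okI_sound h.1 hb1 h1 hq0 hq1 hq hT0 hT
    · exact okAll_sound l N2 h.2 h1 hb2 hq0 hq1 hq hT0 hT hb3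

theorem RR_last {b q T : ℝ} (hb : 0.999 ≤ b) (hb1 : b < 1) (hq0 : 0 < q) (hq1 : q < 1)
    (hq : (1 + q ^ 2) ^ 2 = (28 - 23 * b) * q ^ 2) (hT0 : 0 < T)
    (hT : T ^ 2 * (1 - b ^ 2 * (1 - q ^ 2)) = q ^ 2) : 0.605 ≤ RR b q T := by
  have hqQ : q ≤ 0.61804 := q_le hb1.le hq0 hq1 hq (by norm_num) (by norm_num) (by norm_num)
  have hq2 : q ^ 2 ≤ 0.38198 := by nlinarith
  have hb2 : b ^ 2 < 1 := by nlinarith
  have hT1 : T < 1 := by
    by_contra hcon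
    push Not at hcon
    have h1 : 1 ≤ T ^ 2 := by nlinarith
    have h2 : q ^ 2 < 1 - b ^ 2 * (1 - q ^ 2) := by nlinarith
    nlinarith
  have h1 : 0.9995 ≤ (1 + b * T) / (1 + T) := by
    rw [le_div_iff₀ (by linarith)]
    nlinarith
  have h2 : 0.999 ≤ ((1 + b * T) / (1 + T)) ^ 2 := by nlinarith
  set x := 1 - b with hx
  have hx0 : 0 < x := by linarith
  have hx1 : x ≤ 0.001 := by linarith
  have h3 : x / 2 ≤ (1 - b * T) / (1 + b * T) := by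
    have : 0 < b * T := by apply mul_pos (by linarith) hT0
    have : b * T ≤ b := by nlinarith
    rw [le_div_iff₀ (by linarith)]
    nlinarith
  have h4 : 0.992 ≤ (x / 2) ^ x := by
    rw [Real.rpow_def_of_pos (by positivity)]
    have h5 : Real.log (x / 2) = -(Real.log 2000 + Real.log (0.001 / x)) := by
      rw [← Real.log_mul (by norm_num) (by positivity), ← Real.log_inv]
      congr 1
      field_simp
      norm_num
    have h6 : Real.log (0.001 / x) ≤ 0.001 / x - 1 := Real.log_le_sub_one_of_pos (by positivity)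
    have h7 : Real.log 2000 ≤ 7.7 := by
      have : Real.log 2000 ≤ Real.log (2 ^ 11) := Real.log_le_log (by norm_num) (by norm_num)
      rw [Real.log_pow] at this
      have h8 := Real.log_two_lt_d9
      push_cast at this
      linarith
    have h9 : -0.0077 ≤ Real.log (x / 2) * x := by
      rw [h5]
      have h10 : (Real.log 2000 + Real.log (0.001 / x)) * x ≤ (7.7 + (0.001 / x - 1)) * x := by
        apply mul_le_mul_of_nonneg_right _ hx0.le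
        linarith
      have h11 : (7.7 + (0.001 / x - 1)) * x = 6.7 * x + 0.001 := by
        field_simp
        ring
      linarith
    have h12 := Real.add_one_le_exp (Real.log (x / 2) * x)
    linarith
  have h5 : 0.992 ≤ ((1 - b * T) / (1 + b * T)) ^ x :=
    h4.trans (Real.rpow_le_rpow (by positivity) h3 hx0.le)
  unfold RR
  have h6 : 0.617 ≤ (1 - q ^ 2) * ((1 + b * T) / (1 + T)) ^ 2 := by nlinarith
  nlinarith

/-- the lower bound for all `b < 1` -/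
theorem RR_all {b q T : ℝ} (hb : 0 ≤ b) (hb1 : b < 1) (hq0 : 0 < q) (hq1 : q < 1)
    (hq : (1 + q ^ 2) ^ 2 = (28 - 23 * b) * q ^ 2) (hT0 : 0 < T)
    (hT : T ^ 2 * (1 - b ^ 2 * (1 - q ^ 2)) = q ^ 2) : 0.605 ≤ RR b q T := by
  rcases lt_or_ge b 0.999 with h | h
  · exact okAll_sound ivl 0 okAll_true (by simpa using hb) h.le hq0 hq1 hq hT0 hT h
  · exact RR_last h hb1 hq0 hq1 hq hT0 hT

end Pool.Agent.Helper968.Schild
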