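import Mathlib
import Pool.Agent.Helper968.Schild.Family
import Pool.Agent.Helper968.Schild.Ratio

/-!
The functions `g_a`: derivative of the exponent, starlikeness, convexity of the image of a disc.
-/

namespace Pool.Agent.Helper968.Schild

open Metric Set Filter Topology

/-- the data of a Suffridge function -/
structure Fam (b : ℝ) (L M : ℂ → ℂ) : Prop where
  hb0 : 0 ≤ b
  hb1 : b ≤ 1
  hLc : ContinuousOn L (ball (0:ℂ) 1)
  hMc : ContinuousOn M (ball (0:ℂ) 1)
  hL0 : L 0 = 0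
  hM0 : M 0 = 0
  hL : ∀ z ∈ ball (0:ℂ) 1, Complex.exp (L z) =
          ((1 + 2 * (2 * (b:ℂ) ^ 2 - 1) * z + z ^ 2) ^ (1/2 : ℂ) / (1 - z)
            + (b:ℂ) * ((1 + z) / (1 - z))) / (1 + (b:ℂ))
  hM : ∀ z ∈ ball (0:ℂ) 1, Complex.exp (M z) =
          2 / ((1 + 2 * (2 * (b:ℂ) ^ 2 - 1) * z + z ^ 2) ^ (1/2 : ℂ) + 1 + z)

variable {b : ℝ} {L M : ℂ → ℂ}

theorem Fam.expL (h : Fam b L M) {z : ℂ} (hz : ‖z‖ < 1) :
    Complex.exp (L z) = (pp b z + b * qq z) / (1 + b) := by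
  rw [h.hL z (mem_ball_zero_iff.mpr hz)]
  rfl

theorem Fam.expM (h : Fam b L M) {z : ℂ} (hz : ‖z‖ < 1) :
    Complex.exp (M z) = 2 / ((1 - z) * (pp b z + qq z)) := by
  rw [h.hM z (mem_ball_zero_iff.mpr hz)]
  have := one_sub_ne hz
  congr 1
  unfold pp qq R W
  field_simp
  ring

theorem sum_ne (hb0 : 0 ≤ b) (hb1 : b ≤ 1) {z : ℂ} (hz : ‖z‖ < 1) {c : ℝ} (hc : 0 ≤ c) :
    pp b z + c * qq z ≠ 0 := by
  intro h
  have h1 := congrArg Complex.re h
  have h2 := pp_re hb0 hb1 hz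
  have h3 := qq_re hz
  simp at h1
  nlinarith [mul_nonneg hc h3.le]

theorem Fam.derivL (h : Fam b L M) {z : ℂ} (hz : ‖z‖ < 1) :
    HasDerivAt L ((deriv (pp b) z + b * (2 / (1 - z) ^ 2)) / (pp b z + b * qq z)) z := by
  have hzb := mem_ball_zero_iff.mpr hz
  have hE : HasDerivAt (fun w => (pp b w + b * qq w) / (1 + b))
      ((deriv (pp b) z + b * (2 / (1 - z) ^ 2)) / (1 + b)) z :=
    (((pp_diff h.hb0 h.hb1 hz).hasDerivAt).add ((hasDerivAt_qq hz).const_mul (b:ℂ))).div_const _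
  have h1 := hasDerivAt_of_exp_eq (h.hLc.continuousAt (isOpen_ball.mem_nhds hzb)) hE (by
    filter_upwards [isOpen_ball.mem_nhds hzb] with w hw
    exact h.expL (mem_ball_zero_iff.mp hw))
  have h2 := sum_ne h.hb0 h.hb1 hz h.hb0
  have h3 : (1 + (b:ℂ)) ≠ 0 := by
    have : (1 + (b:ℂ)) = ((1 + b : ℝ) : ℂ) := by push_cast; ring
    rw [this]
    have hb := h.hb0
    exact Complex.ofReal_ne_zero.mpr (by linarith)
  convert h1 using 1
  field_simp

theorem Fam.derivM (h : Fam b L M) {z : ℂ} (hz : ‖z‖ < 1) :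
    HasDerivAt M (1 / (1 - z) - (deriv (pp b) z + 2 / (1 - z) ^ 2) / (pp b z + qq z)) z := by
  have hzb := mem_ball_zero_iff.mpr hz
  have hs : pp b z + qq z ≠ 0 := by
    have := sum_ne h.hb0 h.hb1 hz zero_le_one
    simpa using this
  have h1z := one_sub_ne hz
  have hD : HasDerivAt (fun w => (1 - w) * (pp b w + qq w))
      ((-1) * (pp b z + qq z) + (1 - z) * (deriv (pp b) z + 2 / (1 - z) ^ 2)) z := by
    have h2 : HasDerivAt (fun z : ℂ => 1 - z) (-1) z := (hasDerivAt_id z).const_sub 1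
    exact h2.mul (((pp_diff h.hb0 h.hb1 hz).hasDerivAt).add (hasDerivAt_qq hz))
  have hne : (1 - z) * (pp b z + qq z) ≠ 0 := mul_ne_zero h1z hs
  have hE := (hasDerivAt_const z (2:ℂ)).div hD hne
  have h1 := hasDerivAt_of_exp_eq (h.hMc.continuousAt (isOpen_ball.mem_nhds hzb)) hE (by
    filter_upwards [isOpen_ball.mem_nhds hzb] with w hw
    exact h.expM (mem_ball_zero_iff.mp hw))
  convert h1 using 1
  simp only [Pi.div_apply]
  field_simp
  ring

/-- the exponent -/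
noncomputable def hh (b : ℝ) (L M : ℂ → ℂ) (z : ℂ) : ℂ := 2 * (b:ℂ) * L z + 2 * M z

theorem Fam.hasDerivAt_hh (h : Fam b L M) {z : ℂ} (hz : ‖z‖ < 1) :
    HasDerivAt (hh b L M)
      (2 * (b:ℂ) * ((deriv (pp b) z + b * (2 / (1 - z) ^ 2)) / (pp b z + b * qq z)) +
        2 * (1 / (1 - z) - (deriv (pp b) z + 2 / (1 - z) ^ 2) / (pp b z + qq z))) z := by
  exact ((h.derivL hz).const_mul _).add ((h.derivM hz).const_mul _)

theorem Fam.zhh (h : Fam b L M) {z : ℂ} (hz : ‖z‖ < 1) :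
    1 + z * deriv (hh b L M) z = pp b z := by
  rw [(h.hasDerivAt_hh hz).deriv]
  have hs : pp b z + qq z ≠ 0 := by
    have := sum_ne h.hb0 h.hb1 hz zero_le_one
    simpa using this
  have hs2 := sum_ne h.hb0 h.hb1 hz h.hb0
  have h1z := one_sub_ne hz
  have hp := pp_sq b hz
  push_cast at hp
  have hd := pp_deriv h.hb0 h.hb1 hz
  set P := pp b z with hP
  set Q := qq z with hQ
  set P' := deriv (pp b) z with hP'
  have hB : 2 * (z * (2 / (1 - z) ^ 2)) = Q ^ 2 - 1 := by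
    rw [hQ]; unfold qq; field_simp; ring
  have hA : P * (z * P') = (b:ℂ) ^ 2 * Q * (z * (2 / (1 - z) ^ 2)) := by
    linear_combination z * hd
  have hQ1 : 1 + 2 * z / (1 - z) = Q := by
    rw [hQ]; unfold qq; field_simp; ring
  have e1 : 1 + z * (2 * (b:ℂ) * ((P' + b * (2 / (1 - z) ^ 2)) / (P + b * Q)) +
        2 * (1 / (1 - z) - (P' + 2 / (1 - z) ^ 2) / (P + Q)))
      = Q + 2 * b * ((z * P') + b * (z * (2 / (1 - z) ^ 2))) / (P + b * Q)
        - 2 * ((z * P') + (z * (2 / (1 - z) ^ 2))) / (P + Q) := by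
    rw [← hQ1]
    ring
  rw [e1]
  generalize z * (2 / (1 - z) ^ 2) = B at hB hA ⊢
  generalize z * P' = A at hA ⊢
  rw [eq_comm, ← sub_eq_zero]
  have e2 : P - (Q + 2 * b * (A + b * B) / (P + b * Q) - 2 * (A + B) / (P + Q))
      = (P * (P + b * Q) * (P + Q) - (Q * (P + b * Q) * (P + Q) + 2 * b * (A + b * B) * (P + Q)
        - 2 * (A + B) * (P + b * Q))) / ((P + b * Q) * (P + Q)) := by
    have hs2' : P + Q * (b:ℂ) ≠ 0 := by rw [mul_comm Q]; exact hs2
    field_simp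
  rw [e2, div_eq_zero_iff]
  left
  linear_combination (-(P + b * Q)) * (-hp + ((b:ℂ) ^ 2 - 1) * hB) - 2 * ((b:ℂ) - 1) * hA

theorem Fam.diff_hh (h : Fam b L M) : DifferentiableOn ℂ (hh b L M) (ball (0:ℂ) 1) :=
  fun _ hz => (h.hasDerivAt_hh (mem_ball_zero_iff.mp hz)).differentiableAt.differentiableWithinAt

/-- the function -/
noncomputable def gg (b : ℝ) (L M : ℂ → ℂ) (z : ℂ) : ℂ := z * Complex.exp (hh b L M z)

theorem Fam.starlike (h : Fam b L M) : InjOn (gg b L M) (ball (0:ℂ) 1) ∧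
    StarConvex ℝ (0:ℂ) (gg b L M '' ball (0:ℂ) 1) := by
  apply starlike_of_pos h.diff_hh
  intro z hz
  have hz' := mem_ball_zero_iff.mp hz
  rw [h.zhh hz']
  exact pp_re h.hb0 h.hb1 hz'

theorem Fam.hasDerivAt_gg (h : Fam b L M) {z : ℂ} (hz : ‖z‖ < 1) :
    HasDerivAt (gg b L M) (Complex.exp (hh b L M z) * pp b z) z := by
  have := starlike_aux_hasDeriv h.diff_hh z (mem_ball_zero_iff.mpr hz)
  rw [h.zhh hz] at this
  exact this

theorem Fam.diff_gg (h : Fam b L M) : DifferentiableOn ℂ (gg b L M) (ball (0:ℂ) 1) :=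
  fun _ hz => (h.hasDerivAt_gg (mem_ball_zero_iff.mp hz)).differentiableAt.differentiableWithinAt

/-- log of the derivative -/
noncomputable def HH (b : ℝ) (L M : ℂ → ℂ) (z : ℂ) : ℂ := hh b L M z + Complex.log (pp b z)

theorem pp_ne (hb0 : 0 ≤ b) (hb1 : b ≤ 1) {z : ℂ} (hz : ‖z‖ < 1) : pp b z ≠ 0 := by
  intro h
  have := pp_re hb0 hb1 hz
  rw [h] at this
  simp at this

theorem Fam.hasDerivAt_HH (h : Fam b L M) {z : ℂ} (hz : ‖z‖ < 1) :
    HasDerivAt (HH b L M) (deriv (hh b L M) z + deriv (pp b) z / pp b z) z := by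
  have h1 : pp b z ∈ Complex.slitPlane := Or.inl (pp_re h.hb0 h.hb1 hz)
  have h2 := ((pp_diff h.hb0 h.hb1 hz).hasDerivAt).clog h1
  have h3 : HasDerivAt (hh b L M) (deriv (hh b L M) z) z :=
    (h.hasDerivAt_hh hz).differentiableAt.hasDerivAt
  exact h3.add h2

theorem Fam.convex (h : Fam b L M) {r : ℝ} (hr0 : 0 < r) (hr1 : r < 1)
    (hr : 4 * (1 + r ^ 2) ^ 2 ≤ (28 - 23 * b) * (1 - r ^ 2) ^ 2) :
    Convex ℝ (gg b L M '' ball (0:ℂ) r) := by
  apply convex_image_ball (H := HH b L M) hr0 hr1 h.diff_gg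
  · intro z hz
    exact (h.hasDerivAt_HH (mem_ball_zero_iff.mp hz)).differentiableAt.differentiableWithinAt
  · intro z hz
    have hz' := mem_ball_zero_iff.mp hz
    rw [(h.hasDerivAt_gg hz').deriv, HH, Complex.exp_add, Complex.exp_log (pp_ne h.hb0 h.hb1 hz')]
  · intro z hzr
    have hz' : ‖z‖ < 1 := by rw [hzr]; exact hr1
    rw [(h.hasDerivAt_HH hz').deriv]
    have hp0 := pp_ne h.hb0 h.hb1 hz'
    have h1z := one_sub_ne hz'
    have hB : 2 * (z * (2 / (1 - z) ^ 2)) = qq z ^ 2 - 1 := by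
      unfold qq; field_simp; ring
    have e : 1 + z * (deriv (hh b L M) z + deriv (pp b) z / pp b z)
        = pp b z + qq z / 2 * (1 - 1 / pp b z ^ 2) := by
      have h1 := h.zhh hz'
      have hp := pp_sq b hz'
      push_cast at hp
      have hd := pp_deriv h.hb0 h.hb1 hz'
      have h2 : z * (deriv (pp b) z / pp b z) = qq z / 2 * (1 - 1 / pp b z ^ 2) := by
        field_simp
        linear_combination 2 * z * hd + (b:ℂ) ^ 2 * qq z * hB - qq z * hp
      linear_combination h1 + h2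
    rw [e]
    apply reF_pos h.hb0 h.hb1 (pp_re h.hb0 h.hb1 hz') (qq_re hz') (pp_sq b hz')
    -- the condition
    have hns : 0 < Complex.normSq (1 - z) := Complex.normSq_pos.mpr h1z
    have hn : z.re ^ 2 + z.im ^ 2 = r ^ 2 := by
      have h1 := Complex.sq_norm z
      rw [Complex.normSq_apply, hzr] at h1
      linarith
    have hqre : (qq z).re = (1 - r ^ 2) / Complex.normSq (1 - z) := by
      rw [← hn]
      unfold qq
      rw [Complex.div_re]
      simp only [Complex.add_re, Complex.one_re, Complex.sub_re, Complex.add_im, Complex.one_im,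
        Complex.sub_im]
      field_simp
      ring
    have hqim := qq_im hz'
    have hN : Complex.normSq (1 - z) = (1 - z.re) ^ 2 + z.im ^ 2 := by
      rw [Complex.normSq_apply]
      simp
      ring
    have e2 : (qq z).re ^ 2 + (qq z).im ^ 2 + 1 = 2 * (1 + r ^ 2) / Complex.normSq (1 - z) := by
      rw [hqre, hqim]
      field_simp
      rw [hN, ← hn]
      ring
    rw [e2, hqre, div_pow, div_pow, ← mul_div_assoc]
    apply div_le_div_of_nonneg_right _ (by positivity)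
    nlinarith [hr]

end Pool.Agent.Helper968.Schild
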