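import Mathlib
import Pool.Agent.Helper968.Schild.Family2

/-!
The functions `g_a`: the modulus on the negative axis and the lower bound for the ratio.
-/

namespace Pool.Agent.Helper968.Schild

open Metric Set Filter Topology

variable {b : ℝ} {L M : ℂ → ℂ}

/-- `q` on the negative axis -/
noncomputable def q0 (x : ℝ) : ℝ := (1 - x) / (1 + x)

/-- `p` on the negative axis -/
noncomputable def p0 (b x : ℝ) : ℝ := Real.sqrt (1 - b ^ 2 + b ^ 2 * q0 x ^ 2)

/-- the modulus of `g_a` on the negative axis -/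
noncomputable def GG (b x : ℝ) : ℝ :=
  x * ((p0 b x + b * q0 x) / (1 + b)) ^ (2 * b) * (2 / ((1 + x) * (p0 b x + q0 x))) ^ 2

theorem qq_neg (x : ℝ) : qq (-(x:ℂ)) = (q0 x : ℂ) := by
  unfold qq q0
  push_cast
  ring_nf

theorem norm_neg_real {x : ℝ} (hx0 : 0 ≤ x) : ‖-(x:ℂ)‖ = x := by
  rw [norm_neg, Complex.norm_real, Real.norm_of_nonneg hx0]

theorem q0_pos {x : ℝ} (hx0 : 0 ≤ x) (hx1 : x < 1) : 0 < q0 x := by
  unfold q0
  apply div_pos <;> linarith

theorem q0_lt_one {x : ℝ} (hx0 : 0 < x) : q0 x < 1 := by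
  unfold q0
  rw [div_lt_one (by linarith)]
  linarith

theorem p0_arg_pos (hb0 : 0 ≤ b) (hb1 : b ≤ 1) {x : ℝ} (hx0 : 0 ≤ x) (hx1 : x < 1) :
    0 < 1 - b ^ 2 + b ^ 2 * q0 x ^ 2 := by
  have hq := q0_pos hx0 hx1
  rcases hb0.eq_or_lt with h | h
  · rw [← h]; norm_num
  · have : 0 < b ^ 2 * q0 x ^ 2 := by positivity
    nlinarith

theorem pp_neg (hb0 : 0 ≤ b) (hb1 : b ≤ 1) {x : ℝ} (hx0 : 0 ≤ x) (hx1 : x < 1) :
    pp b (-(x:ℂ)) = (p0 b x : ℂ) := by
  have hz : ‖-(x:ℂ)‖ < 1 := by rw [norm_neg_real hx0]; exact hx1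
  have h1 := pp_sq b hz
  rw [qq_neg] at h1
  have harg := p0_arg_pos hb0 hb1 hx0 hx1
  have h2 : ((p0 b x : ℝ) : ℂ) ^ 2 = (1 - b ^ 2 : ℝ) + (b ^ 2 : ℝ) * (q0 x : ℂ) ^ 2 := by
    have h3 : (p0 b x) ^ 2 = 1 - b ^ 2 + b ^ 2 * q0 x ^ 2 := by
      unfold p0
      exact Real.sq_sqrt harg.le
    have := congrArg (fun t : ℝ => (t : ℂ)) h3
    push_cast at this ⊢
    exact this
  have h3 : pp b (-(x:ℂ)) ^ 2 = ((p0 b x : ℝ) : ℂ) ^ 2 := by rw [h1, h2]
  rcases sq_eq_sq_iff_eq_or_eq_neg.mp h3 with h4 | h4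
  · exact h4
  · exfalso
    have h5 := pp_re hb0 hb1 hz
    rw [h4] at h5
    simp at h5
    have : 0 ≤ p0 b x := Real.sqrt_nonneg _
    linarith

theorem Fam.norm_gg (_h : Fam b L M) (z : ℂ) :
    ‖gg b L M z‖ = ‖z‖ * Real.exp ((hh b L M z).re) := by
  unfold gg
  rw [norm_mul, Complex.norm_exp]

theorem Fam.norm_gg_neg (h : Fam b L M) {x : ℝ} (hx0 : 0 ≤ x) (hx1 : x < 1) :
    ‖gg b L M (-(x:ℂ))‖ = GG b x := by
  have hz : ‖-(x:ℂ)‖ < 1 := by rw [norm_neg_real hx0]; exact hx1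
  rw [h.norm_gg, norm_neg_real hx0]
  have hL := h.expL hz
  have hM := h.expM hz
  rw [pp_neg h.hb0 h.hb1 hx0 hx1, qq_neg] at hL hM
  have hq := q0_pos hx0 hx1
  have hp : 0 ≤ p0 b x := Real.sqrt_nonneg _
  have hb0 := h.hb0
  have hL' : Real.exp (L (-(x:ℂ))).re = (p0 b x + b * q0 x) / (1 + b) := by
    rw [← Complex.norm_exp, hL]
    have : ((p0 b x : ℂ) + b * (q0 x : ℂ)) / (1 + b) = (((p0 b x + b * q0 x) / (1 + b) : ℝ) : ℂ) := by
      push_cast; ring
    rw [this, Complex.norm_real, Real.norm_of_nonneg (by positivity)]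
  have hM' : Real.exp (M (-(x:ℂ))).re = 2 / ((1 + x) * (p0 b x + q0 x)) := by
    rw [← Complex.norm_exp, hM]
    have : (2:ℂ) / ((1 - -(x:ℂ)) * ((p0 b x : ℂ) + (q0 x : ℂ)))
        = ((2 / ((1 + x) * (p0 b x + q0 x)) : ℝ) : ℂ) := by
      push_cast; ring_nf
    rw [this, Complex.norm_real, Real.norm_of_nonneg (by positivity)]
  have hre : (hh b L M (-(x:ℂ))).re = (L (-(x:ℂ))).re * (2 * b) + (M (-(x:ℂ))).re * 2 := by
    unfold hh
    simp [Complex.mul_re]
    ring
  rw [hre, Real.exp_add, Real.exp_mul, hL', Real.exp_mul, hM']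
  unfold GG
  rw [Real.rpow_two]
  ring

theorem pp_im_nonneg (hb0 : 0 ≤ b) (hb1 : b ≤ 1) {z : ℂ} (hz : ‖z‖ < 1) (hi : 0 ≤ z.im) :
    0 ≤ (pp b z).im := by
  have h1 := pp_sq b hz
  have him := congrArg Complex.im h1
  simp [sq, Complex.mul_re, Complex.mul_im] at him
  have hp := pp_re hb0 hb1 hz
  have hq := qq_re hz
  have hqi : 0 ≤ (qq z).im := by
    rw [qq_im hz]
    have : 0 ≤ Complex.normSq (1 - z) := Complex.normSq_nonneg _
    positivity
  by_contra hcon
  push Not at hcon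
  have h2 : (pp b z).re * (pp b z).im < 0 := mul_neg_of_pos_of_neg hp hcon
  have h3 : 0 ≤ b * b * ((qq z).re * (qq z).im) := by positivity
  nlinarith

theorem pp_im_nonpos (hb0 : 0 ≤ b) (hb1 : b ≤ 1) {z : ℂ} (hz : ‖z‖ < 1) (hi : z.im ≤ 0) :
    (pp b z).im ≤ 0 := by
  have h1 := pp_sq b hz
  have him := congrArg Complex.im h1
  simp [sq, Complex.mul_re, Complex.mul_im] at him
  have hp := pp_re hb0 hb1 hz
  have hq := qq_re hz
  have hqi : (qq z).im ≤ 0 := by
    rw [qq_im hz]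
    have : 0 ≤ Complex.normSq (1 - z) := Complex.normSq_nonneg _
    apply div_nonpos_of_nonpos_of_nonneg _ this
    linarith
  by_contra hcon
  push Not at hcon
  have h2 : 0 < (pp b z).re * (pp b z).im := mul_pos hp hcon
  have h3 : b * b * ((qq z).re * (qq z).im) ≤ 0 := by
    have h4 : (qq z).re * (qq z).im ≤ 0 := mul_nonpos_of_nonneg_of_nonpos hq.le hqi
    have h5 : 0 ≤ b * b := by positivity
    nlinarith
  nlinarith

/-- derivative of `Re h` along circles -/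
theorem Fam.hasDerivAt_circle (h : Fam b L M) {r : ℝ} (hr0 : 0 < r) (hr1 : r < 1) (θ : ℝ) :
    HasDerivAt (fun t : ℝ => (hh b L M (r * Complex.exp (t * Complex.I))).re)
      (-(pp b (r * Complex.exp (θ * Complex.I))).im) θ := by
  set z : ℂ := r * Complex.exp (θ * Complex.I) with hz
  have hnz : ‖z‖ < 1 := by
    rw [hz, norm_mul, Complex.norm_exp_ofReal_mul_I, Complex.norm_real, Real.norm_of_nonneg hr0.le,
      mul_one]
    exact hr1
  have h1 : HasDerivAt (hh b L M) (deriv (hh b L M) z) z :=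
    (h.hasDerivAt_hh hnz).differentiableAt.hasDerivAt
  have h2 : HasDerivAt (fun t : ℝ => (r : ℂ) * Complex.exp ((t:ℂ) * Complex.I)) (z * Complex.I) θ := by
    have h3 : HasDerivAt (fun t : ℝ => (t:ℂ) * Complex.I) (1 * Complex.I) θ :=
      (Complex.ofRealCLM.hasDerivAt (x := θ)).mul_const Complex.I
    have h4 := h3.cexp.const_mul (r:ℂ)
    have e : z * Complex.I = (r:ℂ) * (Complex.exp (θ * Complex.I) * (1 * Complex.I)) := by
      rw [hz]; ring
    rw [e]
    exact h4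
  have h5 : HasDerivAt (fun t : ℝ => hh b L M (r * Complex.exp (t * Complex.I)))
      (deriv (hh b L M) z * (z * Complex.I)) θ := by
    exact HasDerivAt.comp (h₂ := hh b L M) θ h1 h2
  have h6 := Complex.reCLM.hasFDerivAt.comp_hasDerivAt θ h5
  have h7 : Complex.reCLM (deriv (hh b L M) z * (z * Complex.I)) = -(pp b z).im := by
    have h8 := h.zhh hnz
    have h9 : deriv (hh b L M) z * (z * Complex.I) = (pp b z - 1) * Complex.I := by
      rw [← h8]; ring
    rw [h9]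
    simp
  rw [h7] at h6
  exact h6

theorem Fam.min_modulus (h : Fam b L M) {r : ℝ} (hr0 : 0 < r) (hr1 : r < 1) {z : ℂ}
    (hz : ‖z‖ = r) : GG b r ≤ ‖gg b L M z‖ := by
  rw [← h.norm_gg_neg hr0.le hr1, h.norm_gg, h.norm_gg, norm_neg_real hr0.le, hz]
  apply mul_le_mul_of_nonneg_left _ hr0.le
  apply Real.exp_le_exp.mpr
  set φ : ℝ → ℝ := fun t : ℝ => (hh b L M (r * Complex.exp (t * Complex.I))).re with hφ
  have hzarg : z = r * Complex.exp (z.arg * Complex.I) := by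
    rw [← hz]
    exact (Complex.norm_mul_exp_arg_mul_I z).symm
  have hcont : Continuous φ := by
    rw [continuous_iff_continuousAt]
    intro t
    exact (h.hasDerivAt_circle hr0 hr1 t).continuousAt
  have hnorm : ∀ t : ℝ, ‖(r:ℂ) * Complex.exp (t * Complex.I)‖ < 1 := by
    intro t
    rw [norm_mul, Complex.norm_exp_ofReal_mul_I, Complex.norm_real, Real.norm_of_nonneg hr0.le,
      mul_one]
    exact hr1
  have him : ∀ t : ℝ, ((r:ℂ) * Complex.exp (t * Complex.I)).im = r * Real.sin t := by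
    intro t
    simp [Complex.mul_im, Complex.exp_ofReal_mul_I_im]
  have hpi : φ Real.pi = (hh b L M (-(r:ℂ))).re := by
    rw [hφ]
    simp [Complex.exp_pi_mul_I]
  have hpi' : φ (-Real.pi) = (hh b L M (-(r:ℂ))).re := by
    rw [hφ]
    have : Complex.exp (((-Real.pi : ℝ) : ℂ) * Complex.I) = -1 := by
      push_cast
      rw [neg_mul, Complex.exp_neg, Complex.exp_pi_mul_I]
      norm_num
    simp only [this]
    simp
  have hzφ : (hh b L M z).re = φ z.arg := by
    rw [hφ]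
    simp only
    rw [← hzarg]
  rw [hzφ]
  rcases le_total 0 z.arg with harg | harg
  · rw [← hpi]
    have hanti : AntitoneOn φ (Icc 0 Real.pi) := by
      apply antitoneOn_of_deriv_nonpos (convex_Icc 0 Real.pi) hcont.continuousOn
      · intro t _
        exact (h.hasDerivAt_circle hr0 hr1 t).differentiableAt.differentiableWithinAt
      · intro t ht
        rw [interior_Icc] at ht
        rw [(h.hasDerivAt_circle hr0 hr1 t).deriv]
        have := pp_im_nonneg h.hb0 h.hb1 (hnorm t) (by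
          rw [him t]
          exact mul_nonneg hr0.le (Real.sin_nonneg_of_nonneg_of_le_pi ht.1.le ht.2.le))
        linarith
    exact hanti ⟨harg, Complex.arg_le_pi z⟩ ⟨Real.pi_pos.le, le_refl _⟩ (Complex.arg_le_pi z)
  · rw [← hpi']
    have hmono : MonotoneOn φ (Icc (-Real.pi) 0) := by
      apply monotoneOn_of_deriv_nonneg (convex_Icc (-Real.pi) 0) hcont.continuousOn
      · intro t _
        exact (h.hasDerivAt_circle hr0 hr1 t).differentiableAt.differentiableWithinAt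
      · intro t ht
        rw [interior_Icc] at ht
        rw [(h.hasDerivAt_circle hr0 hr1 t).deriv]
        have := pp_im_nonpos h.hb0 h.hb1 (hnorm t) (by
          rw [him t]
          exact mul_nonpos_of_nonneg_of_nonpos hr0.le
            (Real.sin_nonpos_of_nonpos_of_neg_pi_le ht.2.le ht.1.le))
        linarith
    exact hmono ⟨le_refl _, by linarith [Real.pi_pos]⟩ ⟨(Complex.neg_pi_lt_arg z).le, harg⟩
      (Complex.neg_pi_lt_arg z).le

/-- an omitted value obtained as a cluster point -/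
theorem exists_omitted {g : ℂ → ℂ} (hg : DifferentiableOn ℂ g (ball (0:ℂ) 1))
    (hinj : InjOn g (ball (0:ℂ) 1)) {d : ℝ} (u : ℕ → ℂ) (hu : ∀ n, ‖u n‖ < 1)
    (hu1 : Tendsto (fun n => ‖u n‖) atTop (𝓝 1))
    (hd : Tendsto (fun n => ‖g (u n)‖) atTop (𝓝 d)) :
    ∃ w, w ∉ g '' ball (0:ℂ) 1 ∧ ‖w‖ ≤ d := by
  obtain ⟨C, hC⟩ := hd.bddAbove_range
  have hC' : ∀ n, g (u n) ∈ closedBall (0:ℂ) C := by
    intro n
    rw [mem_closedBall_zero_iff]
    exact hC ⟨n, rfl⟩
  obtain ⟨w, -, φ, hφ, hw⟩ := tendsto_subseq_of_bounded isBounded_closedBall hC'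
  refine ⟨w, ?_, ?_⟩
  · rintro ⟨z0, hz0, hz0w⟩
    rw [mem_ball_zero_iff] at hz0
    obtain ⟨r, hr1, hr2⟩ := exists_between hz0
    have hopen : IsOpen (g '' ball (0:ℂ) r) :=
      isOpen_image hg hinj (ball_subset_ball hr2.le) isOpen_ball
    have hmem : w ∈ g '' ball (0:ℂ) r := ⟨z0, mem_ball_zero_iff.mpr hr1, hz0w⟩
    have h1 := hw.eventually (hopen.mem_nhds hmem)
    have h2 := (hu1.comp hφ.tendsto_atTop).eventually (lt_mem_nhds hr2)
    obtain ⟨n, hn1, hn2⟩ := (h1.and h2).exists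
    obtain ⟨z1, hz1, hz1w⟩ := hn1
    have h3 := hinj (ball_subset_ball hr2.le hz1) (mem_ball_zero_iff.mpr (hu (φ n))) hz1w
    rw [h3, mem_ball_zero_iff] at hz1
    simp only [Function.comp_apply] at hn2
    linarith
  · have h1 : Tendsto (fun n => ‖g (u (φ n))‖) atTop (𝓝 ‖w‖) := hw.norm
    have h2 : Tendsto (fun n => ‖g (u (φ n))‖) atTop (𝓝 d) := hd.comp hφ.tendsto_atTop
    exact (tendsto_nhds_unique h1 h2).le

end Pool.Agent.Helper968.Schild
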