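import Mathlib
import Pool.Agent.Helper968.Schild.Family3

/-!
The functions `g_a`: the lower bound for the ratio.
-/

namespace Pool.Agent.Helper968.Schild

open Metric Set Filter Topology

variable {b : ℝ} {L M : ℂ → ℂ}

theorem R_zero {z : ℂ} (hz : ‖z‖ < 1) : R 0 z = 1 - z := by
  have h1 := pp_sq 0 hz
  have h2 := pp_re (le_refl (0:ℝ)) zero_le_one hz
  have h3 := one_sub_ne hz
  have h4 : pp 0 z ^ 2 = 1 ^ 2 := by rw [h1]; norm_num
  have h5 : pp 0 z = 1 := by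
    rcases sq_eq_sq_iff_eq_or_eq_neg.mp h4 with h | h
    · exact h
    · exfalso
      rw [h] at h2
      simp at h2
      linarith
  unfold pp at h5
  rw [div_eq_one_iff_eq h3] at h5
  exact h5

theorem q0_one : q0 1 = 0 := by unfold q0; norm_num

theorem GG_one (b : ℝ) : GG b 1 = (Real.sqrt (1 - b ^ 2) / (1 + b)) ^ (2 * b) *
    (1 / Real.sqrt (1 - b ^ 2)) ^ 2 := by
  unfold GG p0
  rw [q0_one]
  norm_num
  left
  have : (2:ℝ) / (2 * Real.sqrt (1 - b ^ 2)) = (Real.sqrt (1 - b ^ 2))⁻¹ := by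
    rw [← div_div]
    norm_num
  rw [this, inv_pow]

theorem continuousAt_GG (hb0 : 0 ≤ b) (hb1 : b < 1) : ContinuousAt (GG b) 1 := by
  have hs : 0 < 1 - b ^ 2 := by nlinarith
  have hq : ContinuousAt q0 1 := by
    unfold q0
    apply ContinuousAt.div <;> first | fun_prop | norm_num
  have hp : ContinuousAt (p0 b) 1 := by
    unfold p0
    apply ContinuousAt.sqrt
    fun_prop
  have hp1 : p0 b 1 = Real.sqrt (1 - b ^ 2) := by
    unfold p0; rw [q0_one]; norm_num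
  have hpos : 0 < Real.sqrt (1 - b ^ 2) := Real.sqrt_pos.mpr hs
  unfold GG
  apply ContinuousAt.mul
  · apply ContinuousAt.mul continuousAt_id
    apply ContinuousAt.rpow_const
    · apply ContinuousAt.div_const
      fun_prop
    · left
      rw [hp1, q0_one]
      have : 0 < (Real.sqrt (1 - b ^ 2) + b * 0) / (1 + b) := by
        rw [mul_zero, add_zero]; positivity
      exact this.ne'
  · apply ContinuousAt.pow
    apply ContinuousAt.div continuousAt_const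
    · fun_prop
    · rw [hp1, q0_one]
      have : 0 < (1 + 1) * (Real.sqrt (1 - b ^ 2) + 0) := by
        rw [add_zero]; positivity
      exact this.ne'

theorem GG_b_one {x : ℝ} (hx0 : 0 ≤ x) (hx1 : x < 1) : GG 1 x = x / (1 + x) ^ 2 := by
  have hq := q0_pos hx0 hx1
  have hp : p0 1 x = q0 x := by
    unfold p0
    norm_num
    exact Real.sqrt_sq hq.le
  unfold GG
  rw [hp, mul_one]
  have : (q0 x + 1 * q0 x) / (1 + 1) = q0 x := by ring
  rw [this, Real.rpow_two]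
  have h1 : 1 + x ≠ 0 := by linarith
  field_simp
  ring

theorem exists_r0 (_hb0 : 0 ≤ b) (hb1 : b ≤ 1) : ∃ r : ℝ, 0 < r ∧ r < 1 ∧
    4 * (1 + r ^ 2) ^ 2 = (28 - 23 * b) * (1 - r ^ 2) ^ 2 := by
  set c := Real.sqrt (28 - 23 * b) / 2 with hc
  have hc2 : 4 * c ^ 2 = 28 - 23 * b := by
    rw [hc, div_pow, Real.sq_sqrt (by linarith)]
    ring
  have hc1 : 1 < c := by
    have : 0 ≤ c := by positivity
    nlinarith
  have h1 : 0 < (c - 1) / (c + 1) := div_pos (by linarith) (by linarith)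
  have h2 : (c - 1) / (c + 1) < 1 := by rw [div_lt_one (by linarith)]; linarith
  have h3 := Real.sq_sqrt h1.le
  refine ⟨Real.sqrt ((c - 1) / (c + 1)), Real.sqrt_pos.mpr h1, ?_, ?_⟩
  · rw [Real.sqrt_lt' one_pos]
    linarith
  · rw [h3, ← hc2]
    have : c + 1 ≠ 0 := by linarith
    field_simp
    ring

theorem q0_eq {r : ℝ} (hr0 : 0 < r)
    (hr : 4 * (1 + r ^ 2) ^ 2 = (28 - 23 * b) * (1 - r ^ 2) ^ 2) :
    (1 + q0 r ^ 2) ^ 2 = (28 - 23 * b) * q0 r ^ 2 := by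
  unfold q0
  have : 1 + r ≠ 0 := by linarith
  field_simp
  linear_combination hr

theorem seq_tendsto : Tendsto (fun n : ℕ => 1 - 1 / ((n:ℝ) + 1)) atTop (𝓝 1) := by
  have := (tendsto_one_div_add_atTop_nhds_zero_nat (𝕜 := ℝ)).const_sub 1
  rwa [sub_zero] at this

theorem seq_nonneg (n : ℕ) : 0 ≤ 1 - 1 / ((n:ℝ) + 1) := by
  have : 1 / ((n:ℝ) + 1) ≤ 1 := by
    rw [div_le_one (by positivity)]
    have : (0:ℝ) ≤ n := Nat.cast_nonneg n
    linarith
  linarith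

theorem seq_lt (n : ℕ) : 1 - 1 / ((n:ℝ) + 1) < 1 := by
  have : 0 < 1 / ((n:ℝ) + 1) := by positivity
  linarith

theorem Fam.exists_w (h : Fam b L M) {d : ℝ}
    (hd : Tendsto (fun n : ℕ => GG b (1 - 1 / ((n:ℝ) + 1))) atTop (𝓝 d)) :
    ∃ w, w ∉ gg b L M '' ball (0:ℂ) 1 ∧ ‖w‖ ≤ d := by
  apply exists_omitted h.diff_gg h.starlike.1 (fun n : ℕ => -(((1 - 1 / ((n:ℝ) + 1) : ℝ)) : ℂ))
  · intro n
    rw [norm_neg_real (seq_nonneg n)]
    exact seq_lt n
  · have : (fun n : ℕ => ‖-(((1 - 1 / ((n:ℝ) + 1) : ℝ)) : ℂ)‖) = fun n : ℕ => 1 - 1 / ((n:ℝ) + 1) := by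
      funext n
      rw [norm_neg_real (seq_nonneg n)]
    rw [this]
    exact seq_tendsto
  · have : (fun n : ℕ => ‖gg b L M (-(((1 - 1 / ((n:ℝ) + 1) : ℝ)) : ℂ))‖) =
        fun n : ℕ => GG b (1 - 1 / ((n:ℝ) + 1)) := by
      funext n
      rw [h.norm_gg_neg (seq_nonneg n) (seq_lt n)]
    rw [this]
    exact hd

theorem GG_pos (hb0 : 0 ≤ b) (hb1 : b ≤ 1) {x : ℝ} (hx0 : 0 < x) (hx1 : x < 1) :
    0 < GG b x := by
  have hq := q0_pos hx0.le hx1
  have hp : 0 < p0 b x := Real.sqrt_pos.mpr (p0_arg_pos hb0 hb1 hx0.le hx1)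
  unfold GG
  positivity

theorem Fam.le_rho (h : Fam b L M) {d r : ℝ} (hr0 : 0 < r) (hr1 : r < 1)
    (hr : 4 * (1 + r ^ 2) ^ 2 = (28 - 23 * b) * (1 - r ^ 2) ^ 2)
    (hd : Tendsto (fun n : ℕ => GG b (1 - 1 / ((n:ℝ) + 1))) atTop (𝓝 d)) :
    GG b r / d ≤ rho (gg b L M) := by
  obtain ⟨w, hw1, hw2⟩ := h.exists_w hd
  have h0 : gg b L M 0 = 0 := by unfold gg; rw [zero_mul]
  exact Schild.le_rho h.diff_gg h.starlike.1 h0 hr0 hr1 (h.convex hr0 hr1 hr.le)
    (GG_pos h.hb0 h.hb1 hr0 hr1) (fun z hz => h.min_modulus hr0 hr1 hz) hw1 hw2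

theorem ratio_eq (hb0 : 0 ≤ b) (hb1 : b < 1) {r : ℝ} (hr0 : 0 < r) (hr1 : r < 1) :
    GG b r / GG b 1 = RR b (q0 r) (q0 r / p0 b r) := by
  have hq := q0_pos hr0.le hr1
  have harg := p0_arg_pos hb0 hb1.le hr0.le hr1
  have hp : 0 < p0 b r := Real.sqrt_pos.mpr harg
  have hp2 : p0 b r ^ 2 = 1 - b ^ 2 + b ^ 2 * q0 r ^ 2 := Real.sq_sqrt harg.le
  have hs : 0 < 1 - b ^ 2 := by nlinarith
  have hss : 0 < Real.sqrt (1 - b ^ 2) := Real.sqrt_pos.mpr hs
  have hss2 : Real.sqrt (1 - b ^ 2) ^ 2 = 1 - b ^ 2 := Real.sq_sqrt hs.le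
  have hq0 : 1 - q0 r ^ 2 = 4 * r / (1 + r) ^ 2 := by
    unfold q0
    have : 1 + r ≠ 0 := by linarith
    field_simp
    ring
  rw [GG_one]
  unfold GG RR
  rw [hq0]
  generalize Real.sqrt (1 - b ^ 2) = S at hss hss2 ⊢
  generalize q0 r = q at hq hp2 ⊢
  generalize p0 b r = P at hp hp2 ⊢
  have h1b : 0 < 1 + b := by linarith
  have hN : 0 < P + b * q := by positivity
  set X := ((P + b * q) / S) ^ 2 with hX
  have hXpos : 0 < X := by positivity
  have e1 : ((P + b * q) / (1 + b)) ^ (2 * b) = X ^ b * (S / (1 + b)) ^ (2 * b) := by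
    have h2 : (P + b * q) / (1 + b) = ((P + b * q) / S) * (S / (1 + b)) := by
      field_simp
    rw [h2, Real.mul_rpow (by positivity) (by positivity), Real.rpow_mul (by positivity) 2 b,
      Real.rpow_two]
  have e2 : (1 - b * (q / P)) / (1 + b * (q / P)) = X⁻¹ := by
    rw [hX]
    have h3 : 1 - b * (q / P) = (P - b * q) / P := by field_simp
    have h4 : 1 + b * (q / P) = (P + b * q) / P := by field_simp
    rw [h3, h4]
    have h5 : P + b * q ≠ 0 := hN.ne'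
    field_simp
    rw [hss2]
    linear_combination hp2
  have e3 : (X⁻¹) ^ (1 - b) = X ^ b / X := by
    rw [Real.inv_rpow hXpos.le, Real.rpow_sub hXpos, Real.rpow_one, inv_div]
  have e4 : (1 + b * (q / P)) / (1 + q / P) = (P + b * q) / (P + q) := by
    have : P + q ≠ 0 := by positivity
    field_simp
  rw [e1, e2, e3, e4, hX]
  have hY : 0 < (S / (1 + b)) ^ (2 * b) := by positivity
  generalize (S / (1 + b)) ^ (2 * b) = Y at hY ⊢
  generalize (((P + b * q) / S) ^ 2) ^ b = Z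
  have h1 : 1 + r ≠ 0 := by linarith
  have h5 : P + b * q ≠ 0 := hN.ne'
  have h6 : P + q ≠ 0 := by positivity
  field_simp
  ring

theorem Fam.ratio (h : Fam b L M) : 0.605 ≤ rho (gg b L M) := by
  obtain ⟨r, hr0, hr1, hr⟩ := exists_r0 h.hb0 h.hb1
  have hq := q0_pos hr0.le hr1
  have hq1 := q0_lt_one hr0
  have hqe := q0_eq hr0 hr
  rcases h.hb1.eq_or_lt with hb | hb
  · subst hb
    have hd : Tendsto (fun n : ℕ => GG 1 (1 - 1 / ((n:ℝ) + 1))) atTop (𝓝 (1 / 4)) := by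
      have h1 : (fun n : ℕ => GG 1 (1 - 1 / ((n:ℝ) + 1))) =
          fun n : ℕ => (1 - 1 / ((n:ℝ) + 1)) / (1 + (1 - 1 / ((n:ℝ) + 1))) ^ 2 := by
        funext n
        exact GG_b_one (seq_nonneg n) (seq_lt n)
      rw [h1]
      have h2 : ContinuousAt (fun x : ℝ => x / (1 + x) ^ 2) 1 := by
        apply ContinuousAt.div <;> first | fun_prop | norm_num
      have h3 := h2.tendsto.comp seq_tendsto
      norm_num at h3
      convert h3 using 1
      funext n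
      simp
    have h1 := h.le_rho hr0 hr1 hr hd
    refine le_trans ?_ h1
    rw [GG_b_one hr0.le hr1]
    have hq0 : 1 - q0 r ^ 2 = r / (1 + r) ^ 2 / (1 / 4) := by
      unfold q0
      have : 1 + r ≠ 0 := by linarith
      field_simp
      ring
    rw [← hq0]
    have ht1 : q0 r ^ 2 < 1 := by nlinarith
    by_contra hcon
    push Not at hcon
    have ht2 : 0.395 < q0 r ^ 2 := by linarith
    nlinarith [mul_pos (sub_pos.mpr ht1) (sub_pos.mpr ht2)]
  · have hd : Tendsto (fun n : ℕ => GG b (1 - 1 / ((n:ℝ) + 1))) atTop (𝓝 (GG b 1)) :=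
      (continuousAt_GG h.hb0 hb).tendsto.comp seq_tendsto
    have h1 := h.le_rho hr0 hr1 hr hd
    refine le_trans ?_ h1
    rw [ratio_eq h.hb0 hb hr0 hr1]
    have harg := p0_arg_pos h.hb0 hb.le hr0.le hr1
    have hp : 0 < p0 b r := Real.sqrt_pos.mpr harg
    have hp2 : p0 b r ^ 2 = 1 - b ^ 2 + b ^ 2 * q0 r ^ 2 := Real.sq_sqrt harg.le
    apply RR_all h.hb0 hb hq hq1 hqe (by positivity)
    rw [div_pow, hp2]
    have h2 := harg.ne'
    rw [div_mul_eq_mul_div, div_eq_iff h2]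
    ring

end Pool.Agent.Helper968.Schild
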