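import Mathlib
import Pool.Agent.Helper968.Schild.Explicit2

/-!
The numerical example.
-/

namespace Pool.Agent.Helper968.Schild

open Metric Set Filter Topology

/-- nodes -/
noncomputable def X8 : Fin 8 → ℝ :=
  ![-998/1000, -980/1000, -945/1000, -891/1000, -817/1000, -719/1000, -587/1000, 435/1000]

/-- multiplicities -/
def N8 : Fin 8 → ℕ := ![1, 1, 1, 1, 1, 1, 1, 25]

theorem X8_ge (j : Fin 8) : -1 ≤ X8 j := by
  fin_cases j <;> simp [X8] <;> norm_num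

theorem X8_le (j : Fin 8) : X8 j ≤ 1 := by
  fin_cases j <;> simp [X8] <;> norm_num

theorem N8_pos (j : Fin 8) : 0 < N8 j := by
  fin_cases j <;> simp [N8]

theorem N8_sum : ∑ j, N8 j = 32 := by
  simp [N8, Fin.sum_univ_succ]

theorem iv1 {c : ℝ} (hc : c ∈ Icc (-1:ℝ) (-998/1000)) :
    ∏ j, (2 * |c - X8 j|) ^ N8 j ≤ (1.47:ℝ) ^ 32 := by
  apply prod_interval X8 N8 (ξ := -1) (δ := 0.07) _ _ _ _ _ _ _ hc
  · intro j; fin_cases j <;> simp [X8] <;> norm_num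
  · intro j; fin_cases j <;> simp [X8] <;> norm_num
  · intro j; fin_cases j <;> simp [X8] <;> norm_num
  · simp [X8, N8, Fin.sum_univ_succ] <;> norm_num
  · simp [X8, N8, Fin.sum_univ_succ] <;> norm_num
  · positivity
  · simp [X8, N8, Fin.prod_univ_succ] <;> norm_num

theorem iv2 {c : ℝ} (hc : c ∈ Icc (-998/1000:ℝ) (-980/1000)) :
    ∏ j, (2 * |c - X8 j|) ^ N8 j ≤ (1.47:ℝ) ^ 32 := by
  apply prod_interval X8 N8 (ξ := -991/1000) (δ := 0.07) _ _ _ _ _ _ _ hc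
  · intro j; fin_cases j <;> simp [X8] <;> norm_num
  · intro j; fin_cases j <;> simp [X8] <;> norm_num
  · intro j; fin_cases j <;> simp [X8] <;> norm_num
  · simp [X8, N8, Fin.sum_univ_succ] <;> norm_num
  · simp [X8, N8, Fin.sum_univ_succ] <;> norm_num
  · positivity
  · simp [X8, N8, Fin.prod_univ_succ] <;> norm_num

theorem iv3 {c : ℝ} (hc : c ∈ Icc (-980/1000:ℝ) (-945/1000)) :
    ∏ j, (2 * |c - X8 j|) ^ N8 j ≤ (1.47:ℝ) ^ 32 := by
  apply prod_interval X8 N8 (ξ := -965/1000) (δ := 0.07) _ _ _ _ _ _ _ hc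
  · intro j; fin_cases j <;> simp [X8] <;> norm_num
  · intro j; fin_cases j <;> simp [X8] <;> norm_num
  · intro j; fin_cases j <;> simp [X8] <;> norm_num
  · simp [X8, N8, Fin.sum_univ_succ] <;> norm_num
  · simp [X8, N8, Fin.sum_univ_succ] <;> norm_num
  · positivity
  · simp [X8, N8, Fin.prod_univ_succ] <;> norm_num

theorem iv4 {c : ℝ} (hc : c ∈ Icc (-945/1000:ℝ) (-891/1000)) :
    ∏ j, (2 * |c - X8 j|) ^ N8 j ≤ (1.47:ℝ) ^ 32 := by
  apply prod_interval X8 N8 (ξ := -920/1000) (δ := 0.07) _ _ _ _ _ _ _ hc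
  · intro j; fin_cases j <;> simp [X8] <;> norm_num
  · intro j; fin_cases j <;> simp [X8] <;> norm_num
  · intro j; fin_cases j <;> simp [X8] <;> norm_num
  · simp [X8, N8, Fin.sum_univ_succ] <;> norm_num
  · simp [X8, N8, Fin.sum_univ_succ] <;> norm_num
  · positivity
  · simp [X8, N8, Fin.prod_univ_succ] <;> norm_num

theorem iv5 {c : ℝ} (hc : c ∈ Icc (-891/1000:ℝ) (-817/1000)) :
    ∏ j, (2 * |c - X8 j|) ^ N8 j ≤ (1.47:ℝ) ^ 32 := by
  apply prod_interval X8 N8 (ξ := -857/1000) (δ := 0.07) _ _ _ _ _ _ _ hc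
  · intro j; fin_cases j <;> simp [X8] <;> norm_num
  · intro j; fin_cases j <;> simp [X8] <;> norm_num
  · intro j; fin_cases j <;> simp [X8] <;> norm_num
  · simp [X8, N8, Fin.sum_univ_succ] <;> norm_num
  · simp [X8, N8, Fin.sum_univ_succ] <;> norm_num
  · positivity
  · simp [X8, N8, Fin.prod_univ_succ] <;> norm_num

theorem iv6 {c : ℝ} (hc : c ∈ Icc (-817/1000:ℝ) (-719/1000)) :
    ∏ j, (2 * |c - X8 j|) ^ N8 j ≤ (1.47:ℝ) ^ 32 := by
  apply prod_interval X8 N8 (ξ := -771/1000) (δ := 0.07) _ _ _ _ _ _ _ hc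
  · intro j; fin_cases j <;> simp [X8] <;> norm_num
  · intro j; fin_cases j <;> simp [X8] <;> norm_num
  · intro j; fin_cases j <;> simp [X8] <;> norm_num
  · simp [X8, N8, Fin.sum_univ_succ] <;> norm_num
  · simp [X8, N8, Fin.sum_univ_succ] <;> norm_num
  · positivity
  · simp [X8, N8, Fin.prod_univ_succ] <;> norm_num

theorem iv7 {c : ℝ} (hc : c ∈ Icc (-719/1000:ℝ) (-587/1000)) :
    ∏ j, (2 * |c - X8 j|) ^ N8 j ≤ (1.47:ℝ) ^ 32 := by
  apply prod_interval X8 N8 (ξ := -659/1000) (δ := 0.07) _ _ _ _ _ _ _ hc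
  · intro j; fin_cases j <;> simp [X8] <;> norm_num
  · intro j; fin_cases j <;> simp [X8] <;> norm_num
  · intro j; fin_cases j <;> simp [X8] <;> norm_num
  · simp [X8, N8, Fin.sum_univ_succ] <;> norm_num
  · simp [X8, N8, Fin.sum_univ_succ] <;> norm_num
  · positivity
  · simp [X8, N8, Fin.prod_univ_succ] <;> norm_num

theorem iv8 {c : ℝ} (hc : c ∈ Icc (-587/1000:ℝ) (435/1000)) :
    ∏ j, (2 * |c - X8 j|) ^ N8 j ≤ (1.47:ℝ) ^ 32 := by
  apply prod_interval X8 N8 (ξ := -493/1000) (δ := 0.07) _ _ _ _ _ _ _ hc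
  · intro j; fin_cases j <;> simp [X8] <;> norm_num
  · intro j; fin_cases j <;> simp [X8] <;> norm_num
  · intro j; fin_cases j <;> simp [X8] <;> norm_num
  · simp [X8, N8, Fin.sum_univ_succ] <;> norm_num
  · simp [X8, N8, Fin.sum_univ_succ] <;> norm_num
  · positivity
  · simp [X8, N8, Fin.prod_univ_succ] <;> norm_num

theorem iv9 {c : ℝ} (hc : c ∈ Icc (435/1000:ℝ) (1)) :
    ∏ j, (2 * |c - X8 j|) ^ N8 j ≤ (1.47:ℝ) ^ 32 := by
  apply prod_interval X8 N8 (ξ := 1) (δ := 0.07) _ _ _ _ _ _ _ hc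
  · intro j; fin_cases j <;> simp [X8] <;> norm_num
  · intro j; fin_cases j <;> simp [X8] <;> norm_num
  · intro j; fin_cases j <;> simp [X8] <;> norm_num
  · simp [X8, N8, Fin.sum_univ_succ] <;> norm_num
  · simp [X8, N8, Fin.sum_univ_succ] <;> norm_num
  · positivity
  · simp [X8, N8, Fin.prod_univ_succ] <;> norm_num

theorem max8 (c : ℝ) (hc : c ∈ Icc (-1:ℝ) 1) :
    ∏ j, (2 * |c - X8 j|) ^ N8 j ≤ (1.47:ℝ) ^ 32 := by
  rcases le_total c (-998/1000) with h1 | h1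
  · exact iv1 ⟨hc.1, h1⟩
  rcases le_total c (-980/1000) with h2 | h2
  · exact iv2 ⟨h1, h2⟩
  rcases le_total c (-945/1000) with h3 | h3
  · exact iv3 ⟨h2, h3⟩
  rcases le_total c (-891/1000) with h4 | h4
  · exact iv4 ⟨h3, h4⟩
  rcases le_total c (-817/1000) with h5 | h5
  · exact iv5 ⟨h4, h5⟩
  rcases le_total c (-719/1000) with h6 | h6
  · exact iv6 ⟨h5, h6⟩
  rcases le_total c (-587/1000) with h7 | h7
  · exact iv7 ⟨h6, h7⟩
  rcases le_total c (435/1000) with h8 | h8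
  · exact iv8 ⟨h7, h8⟩
  · exact iv9 ⟨h8, hc.2⟩

theorem neg8 : rP X8 (fun j => (N8 j : ℝ) / (32:ℕ)) (1/2) ^ 2 +
    (1/2) * rP' X8 (fun j => (N8 j : ℝ) / (32:ℕ)) (1/2) < 0 := by
  unfold rP rP'
  simp [X8, N8, Fin.sum_univ_succ] <;> norm_num

theorem fin8 : ((1.47:ℝ) * (1/2) / 0.6048) ^ 32 ≤
    ∏ j, (1 + 2 * X8 j * (1/2) + (1/2) ^ 2) ^ N8 j := by
  simp [X8, N8, Fin.prod_univ_succ] <;> norm_num

theorem example8 : Par X8 (fun j => (N8 j : ℝ) / (32:ℕ)) ∧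
    rho (ef X8 (fun j => (N8 j : ℝ) / (32:ℕ))) ≤ 0.6048 :=
  ratio_upper X8 N8 (N := 32) (by norm_num) N8_sum N8_pos X8_ge X8_le (D := 1.47) (by norm_num)
    max8 (by norm_num) (by norm_num) neg8 (by norm_num) fin8

end Pool.Agent.Helper968.Schild
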